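import Pool.Agent.X121.GS.Prod
import Pool.Agent.X121.ZS.Fin
import Pool.Agent.X121.TV.MeasK

set_option autoImplicit false

namespace Pool.Agent.X121.GS

open Finset Filter MeasureTheory Pool.Agent.X121.AB Pool.Agent.X121.TV Pool.Agent.X121.ZS
open Pool.Agent.Y93.VK (ee ee_add norm_ee ee_zero ee_neg ee_eq)

/-- the size of the frequencies -/
theorem freq_size {β : ℝ} (hβ : MT β) (hβ1 : 1 < β) (D : ℕ) :
    ∀ᶠ y : ℝ in atTop, ∀ (r : ℕ) (c : Fin r → ℕ) (h : Fin r × Fin (D + 1) → ℤ), h ≠ 0 →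
      (r : ℝ) ≤ y ^ 9 → (∀ i, (|h i| : ℝ) ≤ Real.exp (y ^ 10)) →
      (∀ i j, i < j → (c i : ℝ) + y ^ 11 ≤ c j) → ∀ ξ : ℝ, 0 ≤ ξ →
      (∀ i, Real.exp (ξ * y ^ 70) ≤ β ^ c i) →
      Real.exp (ξ * y ^ 70 - y ^ 11) ≤ |∑ i, (h i : ℝ) * β ^ (c i.1 + i.2)| := by
  obtain ⟨κ, c0, hκ, hc0, hM⟩ := hβ D
  have hβ0 : 0 < β := by linarith
  have hlβ : 0 < Real.log β := Real.log_pos hβ1
  filter_upwards [eventually_ge_atTop (100 : ℝ), eventually_ge_atTop (κ + 2),
    eventually_ge_atTop (-Real.log (c0 / 2)),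
    ev_pow_ge 1 (Real.log β / (κ + 4 + D * Real.log β + Real.log (2 * (D + 1) / c0 + 1)))
      (by
        have : 0 ≤ (D : ℝ) * Real.log β := by positivity
        have : 0 ≤ Real.log (2 * ((D : ℝ) + 1) / c0 + 1) := Real.log_nonneg (by
          have : 0 ≤ 2 * ((D : ℝ) + 1) / c0 := by positivity
          linarith)
        positivity) 1 (by norm_num)] with y hy100 hyκ hyc hyβ
  intro r c h h0 hr hh hc ξ hξ hge
  have hy0 : (0 : ℝ) < y := by linarith
  have hy1 : (1 : ℝ) ≤ y := by linarith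
  have yp : ∀ a b : ℕ, a ≤ b → y ^ a ≤ y ^ b := fun a b hab => pow_le_pow_right₀ hy1 hab
  have hy1' : ∀ a : ℕ, 1 ≤ y ^ a := fun a => one_le_pow₀ hy1
  have hstep : ∀ a : ℕ, 100 * y ^ a ≤ y ^ (a + 1) := fun a => by
    rw [pow_succ, mul_comm]; gcongr
  obtain ⟨L, hL⟩ : ∃ L : ℝ, L = Real.log (2 * ((D : ℝ) + 1) / c0 + 1) := ⟨_, rfl⟩
  have hL0 : 0 ≤ L := by
    rw [hL]
    apply Real.log_nonneg
    have : 0 ≤ 2 * ((D : ℝ) + 1) / c0 := by positivity
    linarith
  have hDβ : 0 ≤ (D : ℝ) * Real.log β := by positivity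
  have hyβ' : κ + 4 + D * Real.log β + L ≤ Real.log β * y := by
    rw [← hL, pow_one, div_mul_eq_mul_div, le_div_iff₀ (by positivity)] at hyβ
    linarith
  -- the largest index
  have hne : ((Finset.univ : Finset (Fin r)).filter fun i => ∃ j, h (i, j) ≠ 0).Nonempty := by
    by_contra hcon
    rw [Finset.not_nonempty_iff_eq_empty, Finset.filter_eq_empty_iff] at hcon
    apply h0
    funext i
    have := hcon (Finset.mem_univ i.1)
    push Not at this
    exact this i.2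
  obtain ⟨i0, hi0⟩ : ∃ i0, i0 = ((Finset.univ : Finset (Fin r)).filter fun i => ∃ j, h (i, j) ≠ 0).max' hne :=
    ⟨_, rfl⟩
  have hi0h : ∃ j, h (i0, j) ≠ 0 := by
    have := Finset.max'_mem _ hne
    rw [← hi0, Finset.mem_filter] at this
    exact this.2
  have hmax : ∀ i, (∃ j, h (i, j) ≠ 0) → i ≠ i0 → i < i0 := by
    intro i hi hii
    have h1 : i ≤ i0 := by
      rw [hi0]
      exact Finset.le_max' (Finset.univ.filter fun i => ∃ j, h (i, j) ≠ 0) i
        (Finset.mem_filter.2 ⟨Finset.mem_univ i, hi⟩)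
    exact lt_of_le_of_ne h1 hii
  obtain ⟨F, hF⟩ : ∃ F : Fin r → ℝ, F = fun i => ∑ j : Fin (D + 1), (h (i, j) : ℝ) * β ^ (c i + j) :=
    ⟨_, rfl⟩
  have hsum : ∑ i, (h i : ℝ) * β ^ (c i.1 + i.2) = ∑ i, F i := by
    rw [Fintype.sum_prod_type, hF]
  obtain ⟨G, hG⟩ : ∃ G : ℝ, G = β ^ c i0 * (c0 * Real.exp (-(κ * y ^ 10))) := ⟨_, rfl⟩
  have hG0 : 0 < G := by rw [hG]; positivity
  have hF0 : G ≤ |F i0| := by
    have h1 := hM (fun j => h (i0, j)) (by
      obtain ⟨j, hj⟩ := hi0h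
      intro h2
      exact hj (congrFun h2 j)) (Real.exp (y ^ 10)) (Real.one_le_exp (by positivity))
      (fun j => hh (i0, j))
    have h2 : F i0 = β ^ c i0 * ∑ j : Fin (D + 1), (h (i0, j) : ℝ) * β ^ (j : ℕ) := by
      rw [hF, Finset.mul_sum]
      refine Finset.sum_congr rfl fun j _ => ?_
      rw [pow_add]
      ring
    rw [h2, abs_mul, abs_of_pos (pow_pos hβ0 _), hG]
    gcongr
    have h3 : Real.exp (y ^ 10) ^ κ = Real.exp (κ * y ^ 10) := by
      rw [← Real.exp_mul, mul_comm]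
    rw [h3] at h1
    calc c0 * Real.exp (-(κ * y ^ 10)) ≤ (Real.exp (κ * y ^ 10) *
          |∑ j : Fin (D + 1), (h (i0, j) : ℝ) * β ^ (j : ℕ)|) * Real.exp (-(κ * y ^ 10)) := by gcongr
      _ = (Real.exp (κ * y ^ 10) * Real.exp (-(κ * y ^ 10))) *
          |∑ j : Fin (D + 1), (h (i0, j) : ℝ) * β ^ (j : ℕ)| := by ring
      _ = _ := by rw [← Real.exp_add, add_neg_cancel, Real.exp_zero, one_mul]
  have hFi : ∀ i ∈ (Finset.univ : Finset (Fin r)).erase i0, |F i| ≤
      (D + 1) * (Real.exp (y ^ 10) * (β ^ D * (β ^ c i0 * Real.exp (-(Real.log β * y ^ 11))))) := by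
    intro i hi
    have hii := (Finset.mem_erase.1 hi).1
    by_cases hhi : ∃ j, h (i, j) ≠ 0
    · have hlt := hmax i hhi hii
      have hcc := hc i i0 hlt
      have hpow : β ^ c i ≤ β ^ c i0 * Real.exp (-(Real.log β * y ^ 11)) := by
        have e1 : ∀ k : ℕ, β ^ k = Real.exp (k * Real.log β) := fun k => by
          rw [← Real.log_pow, Real.exp_log (pow_pos hβ0 _)]
        rw [e1, e1, ← Real.exp_add]
        apply Real.exp_le_exp.2
        nlinarith
      rw [hF]
      refine (Finset.abs_sum_le_sum_abs _ _).trans ?_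
      calc _ ≤ ∑ j : Fin (D + 1), Real.exp (y ^ 10) * (β ^ D * (β ^ c i0 * Real.exp (-(Real.log β * y ^ 11)))) := by
            refine Finset.sum_le_sum fun j _ => ?_
            rw [abs_mul, abs_of_pos (pow_pos hβ0 _), pow_add, mul_comm (β ^ c i)]
            have hj : (j : ℕ) ≤ D := Nat.lt_succ_iff.1 j.2
            have h3 : β ^ (j : ℕ) ≤ β ^ D := pow_le_pow_right₀ hβ1.le hj
            gcongr
            exact hh (i, j)
        _ = _ := by
            rw [Finset.sum_const, Finset.card_univ, Fintype.card_fin, nsmul_eq_mul]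
            push_cast
            ring
    · push Not at hhi
      have : F i = 0 := by
        rw [hF]
        simp [hhi]
      rw [this, abs_zero]
      positivity
  have hrest : ∑ i ∈ (Finset.univ : Finset (Fin r)).erase i0, |F i| ≤ 1 / 2 * G := by
    have hcard : (((Finset.univ : Finset (Fin r)).erase i0).card : ℝ) ≤ Real.exp (y ^ 9) := by
      have h1 := Finset.card_le_univ ((Finset.univ : Finset (Fin r)).erase i0)
      rw [Fintype.card_fin] at h1
      have h2 : (((Finset.univ : Finset (Fin r)).erase i0).card : ℝ) ≤ r := by exact_mod_cast h1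
      have := Real.add_one_le_exp (y ^ 9)
      linarith
    have hLe : (D + 1 : ℝ) ≤ c0 / 2 * Real.exp L := by
      rw [hL, Real.exp_log (by positivity)]
      have : c0 / 2 * (2 * ((D : ℝ) + 1) / c0 + 1) = (D + 1) + c0 / 2 := by
        field_simp
      rw [this]
      linarith
    have hβD : β ^ D = Real.exp (D * Real.log β) := by
      rw [← Real.log_pow, Real.exp_log (pow_pos hβ0 _)]
    calc _ ≤ ∑ i ∈ (Finset.univ : Finset (Fin r)).erase i0,
          (D + 1) * (Real.exp (y ^ 10) * (β ^ D * (β ^ c i0 * Real.exp (-(Real.log β * y ^ 11))))) :=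
          Finset.sum_le_sum hFi
      _ = (((Finset.univ : Finset (Fin r)).erase i0).card : ℝ) *
          ((D + 1) * (Real.exp (y ^ 10) * (β ^ D * (β ^ c i0 * Real.exp (-(Real.log β * y ^ 11)))))) := by
          rw [Finset.sum_const, nsmul_eq_mul]
      _ ≤ Real.exp (y ^ 9) * ((c0 / 2 * Real.exp L) * (Real.exp (y ^ 10) *
          (Real.exp (D * Real.log β) * (β ^ c i0 * Real.exp (-(Real.log β * y ^ 11)))))) := by
          rw [hβD]
          gcongr
      _ = (β ^ c i0 * (c0 / 2)) * Real.exp (y ^ 9 + L + y ^ 10 + D * Real.log β + -(Real.log β * y ^ 11)) := by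
          rw [Real.exp_add, Real.exp_add, Real.exp_add, Real.exp_add]
          ring
      _ ≤ (β ^ c i0 * (c0 / 2)) * Real.exp (-(κ * y ^ 10)) := by
          apply mul_le_mul_of_nonneg_left _ (by positivity)
          apply Real.exp_le_exp.2
          have h1 := yp 9 10 (by norm_num)
          have h2 : (κ + 4 + D * Real.log β + L) * y ^ 10 ≤ Real.log β * y * y ^ 10 := by gcongr
          have h3 : Real.log β * y * y ^ 10 = Real.log β * y ^ 11 := by ring
          have h4 : D * Real.log β ≤ D * Real.log β * y ^ 10 := le_mul_of_one_le_right hDβ (hy1' 10)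
          have h5 : L ≤ L * y ^ 10 := le_mul_of_one_le_right hL0 (hy1' 10)
          have h6 := hy1' 10
          nlinarith
      _ = 1 / 2 * G := by rw [hG]; ring
  have hsplit : ∑ i, F i = F i0 + ∑ i ∈ (Finset.univ : Finset (Fin r)).erase i0, F i :=
    (Finset.add_sum_erase _ _ (Finset.mem_univ i0)).symm
  have habs : 1 / 2 * G ≤ |∑ i, F i| := by
    have h1 : |F i0| ≤ |∑ i, F i| + |∑ i ∈ (Finset.univ : Finset (Fin r)).erase i0, F i| := by
      have : F i0 = ∑ i, F i - ∑ i ∈ (Finset.univ : Finset (Fin r)).erase i0, F i := by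
        rw [hsplit]; ring
      rw [this]
      exact abs_sub _ _
    have h2 := Finset.abs_sum_le_sum_abs F ((Finset.univ : Finset (Fin r)).erase i0)
    linarith
  rw [hsum]
  refine le_trans ?_ habs
  have hc2 : Real.exp (-y) ≤ c0 / 2 := by
    rw [← Real.le_log_iff_exp_le (by positivity)]
    linarith
  calc Real.exp (ξ * y ^ 70 - y ^ 11) ≤ Real.exp (ξ * y ^ 70) * (Real.exp (-y) * Real.exp (-(κ * y ^ 10))) := by
        rw [← Real.exp_add, ← Real.exp_add]
        apply Real.exp_le_exp.2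
        have h1 : (κ + 2) * y ^ 10 ≤ y * y ^ 10 := by gcongr
        have h2 : y * y ^ 10 = y ^ 11 := by ring
        have h3 := yp 1 10 (by norm_num)
        rw [pow_one] at h3
        linarith
    _ ≤ β ^ c i0 * (c0 / 2 * Real.exp (-(κ * y ^ 10))) := by
        gcongr
        exact hge i0
    _ = 1 / 2 * G := by rw [hG]; ring

open Classical in
/-- random dilates of the powers of `β` -/
theorem dil_main {β : ℝ} (hβ : MT β) (hβ1 : 1 < β) (D : ℕ) {θ : ℝ} (hθ0 : 0 < θ)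
    (hθ : ∀ m : ℕ, θ ≠ m) {η : ℝ} (hη : 0 < η) (hη1 : η ≤ 1) :
    ∃ N₀ : ℕ, ∀ N H : ℕ, N₀ ≤ N → (N : ℝ) ^ η ≤ H → H ≤ N → ∀ (r m : ℕ) (c : Fin r → ℕ),
      (r * (D + 1) : ℝ) ≤ (Real.log N) ^ (1 / 8 : ℝ) → 1 ≤ m →
      (m : ℝ) ≤ Real.exp ((Real.log N) ^ (1 / 8 : ℝ)) →
      (∀ i j, i < j → (c i : ℝ) + (Real.log N) ^ (1 / 6 : ℝ) ≤ c j) →
      (∀ i, (N : ℝ) ^ (9 / η) ≤ β ^ c i) →
      (∀ i, β ^ (c i + D) ≤ Real.exp ((Real.log N) ^ (9 / 8 : ℝ))) →
      ∀ E : Finset (Fin r × Fin (D + 1) → Fin m),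
      |(((Finset.Ioc N (N + H)).filter fun n : ℕ => ∃ w ∈ E, ∀ i : Fin r × Fin (D + 1),
          ⌊(m : ℝ) * Int.fract ((n : ℝ) ^ θ * β ^ (c i.1 + i.2))⌋₊ = w i).card : ℝ) / H -
        E.card / (m : ℝ) ^ (r * (D + 1))| ≤ Real.exp (-((Real.log N) ^ (1 / 8 : ℝ))) := by
  obtain ⟨N₀, hN₀⟩ := to_log2 ((iid_y.and ((freq_size hβ hβ1 D).and (zsum hθ0 hθ hη hη1))).mono
    fun y h N _ => h) 256
  refine ⟨N₀, fun N H hN hH1 hH2 r m c hr hm hmy hc hc1 hc2 E => ?_⟩
  obtain ⟨y, hy256, hy1, hNy, ⟨htv, hfr, hsum⟩, e1, e2⟩ := hN₀ N hN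
  have hy0 : (0 : ℝ) < y := by linarith
  have hβ0 : 0 < β := by linarith
  rw [e1] at hr hmy ⊢
  rw [e2] at hc2
  have yp : ∀ a b : ℕ, a ≤ b → y ^ a ≤ y ^ b := fun a b hab => pow_le_pow_right₀ hy1 hab
  have hy1' : ∀ a : ℕ, 1 ≤ y ^ a := fun a => one_le_pow₀ hy1
  have hlogN : Real.log N = y ^ 70 := by rw [hNy, Real.log_exp]
  have h6 : y ^ 11 ≤ (Real.log N) ^ (1 / 6 : ℝ) := by
    rw [hlogN, ← Real.rpow_natCast, ← Real.rpow_natCast, ← Real.rpow_mul hy0.le]
    apply Real.rpow_le_rpow_of_exponent_le hy1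
    norm_num
  have h9 : y ^ (35 / 4 : ℝ) ≤ y ^ 9 := by
    rw [← Real.rpow_natCast]
    exact Real.rpow_le_rpow_of_exponent_le hy1 (by norm_num)
  obtain ⟨A, hA⟩ : ∃ A : ℝ, A = y ^ (315 / 4 : ℝ) := ⟨_, rfl⟩
  rw [← hA] at hc2
  have h79 : 4 * A ≤ y ^ 79 := by
    have h1 : (4 : ℝ) ≤ y ^ (1 / 4 : ℝ) := by
      calc (4 : ℝ) = (256 : ℝ) ^ (1 / 4 : ℝ) := by
            rw [show (256 : ℝ) = 4 ^ (4 : ℝ) by norm_num, ← Real.rpow_mul (by norm_num)]
            norm_num
        _ ≤ y ^ (1 / 4 : ℝ) := Real.rpow_le_rpow (by norm_num) hy256 (by norm_num)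
    calc 4 * A ≤ y ^ (1 / 4 : ℝ) * A := by
          gcongr
          rw [hA]; positivity
      _ = y ^ 79 := by
          rw [hA, ← Real.rpow_add hy0, ← Real.rpow_natCast]
          norm_num
  have hA10 : y ^ 9 + y ^ 10 ≤ 2 * A := by
    have h1 : y ^ 10 ≤ A := by
      rw [hA, ← Real.rpow_natCast]
      exact Real.rpow_le_rpow_of_exponent_le hy1 (by norm_num)
    have h2 : y ^ 9 ≤ y ^ 10 := pow_le_pow_right₀ hy1 (by norm_num)
    linarith
  have hA0 : 0 ≤ A := by rw [hA]; positivity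
  have hN0 : (0 : ℝ) < N := by rw [hNy]; exact Real.exp_pos _
  have hH0 : (0 : ℝ) < H := lt_of_lt_of_le (by positivity) hH1
  have hH0' : 1 ≤ H := by
    have : 0 < H := by exact_mod_cast hH0
    omega
  have hrw : ∀ z : ℝ, (N : ℝ) ^ z = Real.exp (z * y ^ 70) := by
    intro z
    rw [hNy, ← Real.exp_mul, mul_comm]
  rw [hrw] at hH1
  simp only [hrw] at hc1
  have hcardR : ((Fintype.card (Fin r × Fin (D + 1)) : ℕ) : ℝ) ≤ y ^ 9 := by
    rw [Fintype.card_prod, Fintype.card_fin, Fintype.card_fin]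
    push_cast
    exact hr.trans h9
  have hr9 : (r : ℝ) ≤ y ^ 9 := by
    have h1 : (r : ℝ) * 1 ≤ r * (D + 1) := by
      gcongr
      have : (0 : ℝ) ≤ D := Nat.cast_nonneg D
      linarith
    linarith
  have hmain := htv (Fin r × Fin (D + 1)) (Finset.Ioc N (N + H))
    (fun n i => (n : ℝ) ^ θ * β ^ (c i.1 + i.2)) m
    (by rw [Finset.nonempty_Ioc]; omega) hcardR hm
    (hmy.trans (Real.exp_le_exp.2 h9)) ?_ E
  · rw [Nat.card_Ioc, Nat.add_sub_cancel_left, Fintype.card_prod, Fintype.card_fin,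
      Fintype.card_fin] at hmain
    have hle : -(y ^ 9) ≤ -(y ^ (35 / 4 : ℝ)) := by linarith
    refine le_trans (le_of_eq ?_) (hmain.trans (Real.exp_le_exp.2 hle))
    congr!
  · intro h h0 hh
    rw [Nat.card_Ioc, Nat.add_sub_cancel_left, sum_reindex]
    have hrwr : ∀ n : ℕ, ∑ i, (h i : ℝ) * ((n : ℝ) ^ θ * β ^ (c i.1 + i.2)) =
        (∑ i, (h i : ℝ) * β ^ (c i.1 + i.2)) * (n : ℝ) ^ θ := by
      intro n
      rw [Finset.sum_mul]
      exact Finset.sum_congr rfl fun i _ => by ring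
    simp only [hrwr]
    refine hsum N hNy H hH1 hH2 _ ?_ ?_
    · have h1 := hfr r c h h0 hr9 hh (fun i j hij => by
        have := hc i j hij
        linarith) (9 / η) (by positivity) hc1
      refine le_trans (Real.exp_le_exp.2 ?_) h1
      have h2 : y ^ 11 ≤ 1 / η * y ^ 70 := by
        calc y ^ 11 ≤ y ^ 70 := yp 11 70 (by norm_num)
          _ = 1 * y ^ 70 := (one_mul _).symm
          _ ≤ 1 / η * y ^ 70 := by
              gcongr
              rw [le_div_iff₀ hη]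
              linarith
      have h3 : 9 / η * y ^ 70 = 8 / η * y ^ 70 + 1 / η * y ^ 70 := by ring
      linarith
    · refine (Finset.abs_sum_le_sum_abs _ _).trans ?_
      calc ∑ i, |(h i : ℝ) * β ^ (c i.1 + i.2)| ≤
            ∑ i : Fin r × Fin (D + 1), Real.exp (y ^ 10) * Real.exp A := by
            refine Finset.sum_le_sum fun i _ => ?_
            rw [abs_mul, abs_of_pos (pow_pos hβ0 _)]
            refine mul_le_mul (hh i) ?_ (pow_pos hβ0 _).le (Real.exp_nonneg _)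
            refine le_trans ?_ (hc2 i.1)
            apply pow_le_pow_right₀ hβ1.le
            have : (i.2 : ℕ) ≤ D := Nat.lt_succ_iff.1 i.2.2
            omega
        _ = (Fintype.card (Fin r × Fin (D + 1)) : ℕ) * (Real.exp (y ^ 10) * Real.exp A) := by
            rw [Finset.sum_const, Finset.card_univ, nsmul_eq_mul]
        _ ≤ Real.exp (y ^ 9) * (Real.exp (y ^ 10) * Real.exp A) := by
            gcongr
            have := Real.add_one_le_exp (y ^ 9)
            linarith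
        _ = Real.exp (y ^ 9 + (y ^ 10 + A)) := by rw [Real.exp_add, Real.exp_add]
        _ ≤ _ := by
            apply Real.exp_le_exp.2
            linarith

end Pool.Agent.X121.GS
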