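import Pool.Agent.X121.GS.Tvp
import Pool.Agent.X121.ZS.Uni

set_option autoImplicit false

namespace Pool.Agent.X121.GS

open Finset Filter MeasureTheory Pool.Agent.X121.AB Pool.Agent.X121.TV Pool.Agent.X121.ZS
open Pool.Agent.Y93.VK (ee ee_add norm_ee ee_zero ee_neg ee_eq)

/-- Lebesgue measure on a cube -/
noncomputable def PU (κ : Type) [Fintype κ] : Measure (κ → ℝ) := Measure.pi fun _ => U

instance (κ : Type) [Fintype κ] : IsProbabilityMeasure (PU κ) := by
  unfold PU
  infer_instance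

theorem pi_ee {κ : Type} [Fintype κ] (X : κ → ℤ) :
    ∫ x, ee (∑ j, (X j : ℝ) * x j) ∂(PU κ) = if X = 0 then 1 else 0 := by
  classical
  have e1 : ∀ x : κ → ℝ, ee (∑ j, (X j : ℝ) * x j) = ∏ j, ee ((X j : ℝ) * x j) := fun x => ee_sum _ _
  simp only [e1]
  unfold PU
  rw [integral_fintype_prod_eq_prod (fun j (t : ℝ) => ee ((X j : ℝ) * t))]
  simp only [int_ee']
  split_ifs with h
  · subst h
    simp
  · rw [Finset.prod_eq_zero_iff]
    by_contra hcon
    push Not at hcon
    apply h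
    funext j
    have := hcon j (Finset.mem_univ _)
    by_contra hj
    have hj' : X j ≠ 0 := hj
    rw [if_neg hj'] at this
    exact this rfl

/-- sets given by conditions on the coordinates -/
theorem pi_box {κ : Type} [Fintype κ] (s : κ → Set ℝ) :
    (PU κ).real {x | ∀ j, x j ∈ s j} = ∏ j, U.real (s j) := by
  have e : {x : κ → ℝ | ∀ j, x j ∈ s j} = Set.pi Set.univ s := by
    ext x; simp
  rw [e]
  unfold PU Measure.real
  rw [Measure.pi_pi, ENNReal.toReal_prod]

theorem digits_U {b : ℕ} (hb : 1 ≤ b) (a : ℕ) (ha : a < b) : U.real {x | dg b x = a} = 1 / b := by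
  have h := digits_unif hb {0} (fun _ => a) (fun _ _ => ha)
  simp only [Finset.mem_singleton, forall_eq, pow_zero, one_mul, Finset.card_singleton, pow_one] at h
  exact h

open Classical in
/-- total variation for independent uniform variables, in terms of `y` -/
theorem iid_y : ∀ᶠ y : ℝ in atTop, ∀ (ι : Type) [Fintype ι] (S : Finset ℕ) (Y : ℕ → ι → ℝ) (m : ℕ),
    S.Nonempty → (Fintype.card ι : ℝ) ≤ y ^ 9 → 1 ≤ m → (m : ℝ) ≤ Real.exp (y ^ 9) →
    (∀ h : ι → ℤ, h ≠ 0 → (∀ i, (|h i| : ℝ) ≤ Real.exp (y ^ 10)) →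
      ‖∑ b ∈ S, ee (∑ i, h i * Y b i)‖ ≤ S.card * Real.exp (-(y ^ 20))) → ∀ E : Finset (ι → Fin m),
    |((S.filter fun b => ∃ w ∈ E, ∀ i, ⌊(m : ℝ) * Int.fract (Y b i)⌋₊ = w i).card : ℝ) / S.card -
      E.card / (m : ℝ) ^ (Fintype.card ι)| ≤ Real.exp (-(y ^ 9)) := by
  filter_upwards [tvP_y] with y hy
  intro ι _ S Y m hS hD hm hmy hX E
  have hS0 : (0 : ℝ) < S.card := by exact_mod_cast hS.card_pos
  have h := hy (ι → ℝ) (PU ι) ι (fun x => x) (fun i => measurable_pi_apply i) S Y (fun _ => m) hS hD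
    (fun _ => hm) (fun _ => hmy) ?_ ?_ {A | ∃ w ∈ E, ∀ i, A i = w i}
  · have e1 : (PU ι).real {x | cv (fun _ => m) x ∈ {A : ι → ℕ | ∃ w ∈ E, ∀ i, A i = w i}} =
        E.card / (m : ℝ) ^ (Fintype.card ι) := by
      have e : {x : ι → ℝ | cv (fun _ => m) x ∈ {A : ι → ℕ | ∃ w ∈ E, ∀ i, A i = w i}} =
          ⋃ w ∈ E, {x : ι → ℝ | ∀ i, x i ∈ {t : ℝ | dg m t = w i}} := by
        ext x
        simp only [Set.mem_ofPred_eq, Set.mem_iUnion, exists_prop]
        rfl
      rw [e, measureReal_biUnion_finset]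
      · have h1 : ∀ w ∈ E, (PU ι).real {x : ι → ℝ | ∀ i, x i ∈ {t : ℝ | dg m t = w i}} =
            1 / (m : ℝ) ^ (Fintype.card ι) := by
          intro w _
          rw [pi_box]
          have : ∀ i ∈ (Finset.univ : Finset ι), U.real {t : ℝ | dg m t = w i} = 1 / m := by
            intro i _
            exact digits_U hm _ (w i).2
          rw [Finset.prod_congr rfl this, Finset.prod_const, Finset.card_univ, div_pow, one_pow]
        rw [Finset.sum_congr rfl h1, Finset.sum_const, nsmul_eq_mul, mul_one_div]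
      · intro w _ w' _ hww
        rw [Function.onFun, Set.disjoint_left]
        intro x hx hx'
        apply hww
        funext i
        have h1 : dg m (x i) = w i := hx i
        have h2 : dg m (x i) = w' i := hx' i
        exact Fin.ext (h1.symm.trans h2)
      · intro w _
        have : {x : ι → ℝ | ∀ i, x i ∈ {t : ℝ | dg m t = w i}} =
            ⋂ i, {x : ι → ℝ | dg m (x i) = w i} := by
          ext x; simp
        rw [this]
        refine MeasurableSet.iInter fun i => ?_
        exact ((dg_meas m).comp (measurable_pi_apply i)) (measurableSet_singleton _)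
    rw [e1] at h
    have e2 : ∀ b, (cv (fun _ : ι => m) (Y b) ∈ {A : ι → ℕ | ∃ w ∈ E, ∀ i, A i = w i}) ↔
        ∃ w ∈ E, ∀ i, ⌊(m : ℝ) * Int.fract (Y b i)⌋₊ = w i := fun b => Iff.rfl
    simp only [e2] at h
    exact h
  · intro i l hl
    have h1 := pi_ee (κ := ι) (fun j => if j = i then l else 0)
    have h2 : ∀ x : ι → ℝ, ∑ j, (((if j = i then l else 0 : ℤ)) : ℝ) * x j = l * x i := by
      intro x
      rw [Finset.sum_eq_single_of_mem i (Finset.mem_univ _)]
      · simp
      · intro j _ hj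
        simp [hj]
    simp only [h2] at h1
    rw [h1, if_neg]
    intro h3
    have := congrFun h3 i
    simp at this
    exact hl this
  · intro h hh
    rw [pi_ee h]
    by_cases h0 : h = 0
    · subst h0
      simp only [if_true, Pi.zero_apply, Int.cast_zero, zero_mul, Finset.sum_const_zero, ee_zero,
        Finset.sum_const, nsmul_eq_mul, mul_one]
      rw [div_self (by exact_mod_cast hS0.ne'), sub_self, norm_zero]
      exact Real.exp_nonneg _
    · rw [if_neg h0, sub_zero, norm_div, Complex.norm_natCast, div_le_iff₀ hS0, mul_comm]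
      exact hX h h0 hh

/-- the frequency of the `j`-th coordinate -/
def frq {κ ι : Type} [Fintype ι] [DecidableEq κ] (jj : ι → κ) (q : ι → ℤ) (h : ι → ℤ) (j : κ) : ℤ :=
  ∑ i, if jj i = j then h i * q i else 0

theorem frq_sum {κ ι : Type} [Fintype ι] [Fintype κ] [DecidableEq κ] (jj : ι → κ) (q : ι → ℤ)
    (h : ι → ℤ) (x : κ → ℝ) :
    ∑ i, (h i : ℝ) * ((q i : ℝ) * x (jj i)) = ∑ j, (frq jj q h j : ℝ) * x j := by
  unfold frq
  push_cast
  simp only [Finset.sum_mul]
  rw [Finset.sum_comm]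
  refine Finset.sum_congr rfl fun i _ => ?_
  rw [Finset.sum_eq_single_of_mem (jj i) (Finset.mem_univ _)]
  · simp
    ring
  · intro j _ hj
    rw [if_neg (Ne.symm hj), zero_mul]

open Classical in
/-- digits of several numbers, in terms of `y` -/
theorem multi_y : ∀ᶠ y : ℝ in atTop, ∀ (κ : Type) [Fintype κ] [DecidableEq κ] (S : Finset ℕ)
    (Z : ℕ → κ → ℝ) (b : ℕ) (Pl : Finset ℕ),
    S.Nonempty → (Fintype.card κ * Pl.card : ℝ) ≤ y ^ 9 → 1 ≤ b → (b : ℝ) ≤ Real.exp (y ^ 9) →
    (∀ X : κ → ℤ, X ≠ 0 → (∀ n₀ : ℕ, (∀ n ∈ Pl, n₀ ≤ n) → ∀ j, (b : ℤ) ^ n₀ ∣ X j) →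
      (∀ L : ℝ, (∀ n ∈ Pl, (b : ℝ) ^ n ≤ L) → ∀ j, (|X j| : ℝ) ≤ Pl.card * (Real.exp (y ^ 10) * L)) →
      ‖∑ m ∈ S, ee (∑ j, X j * Z m j)‖ ≤ S.card * Real.exp (-(y ^ 20))) →
    ∀ E : Finset (κ → Pl → Fin b),
    |((S.filter fun m => ∃ w ∈ E, ∀ j, ∀ n : Pl,
        ⌊(b : ℝ) * Int.fract ((b : ℝ) ^ (n : ℕ) * Z m j)⌋₊ = w j n).card : ℝ) / S.card -
      E.card / (b : ℝ) ^ (Fintype.card κ * Pl.card)| ≤ Real.exp (-(y ^ 9)) := by
  filter_upwards [tvP_y] with y hy
  intro κ _ _ S Z b Pl hS hD hb hby hX E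
  have hS0 : (0 : ℝ) < S.card := by exact_mod_cast hS.card_pos
  have hb0 : (0 : ℝ) < b := by exact_mod_cast hb
  obtain ⟨jj, hjj⟩ : ∃ jj : κ × Pl → κ, jj = Prod.fst := ⟨_, rfl⟩
  obtain ⟨q, hq⟩ : ∃ q : κ × Pl → ℤ, q = fun i => (b : ℤ) ^ (i.2 : ℕ) := ⟨_, rfl⟩
  have hqR : ∀ i : κ × Pl, (q i : ℝ) = (b : ℝ) ^ (i.2 : ℕ) := by
    intro i; rw [hq]; push_cast; rfl
  have h := hy (κ → ℝ) (PU κ) (κ × Pl) (fun x i => (q i : ℝ) * x (jj i))
    (fun i => (measurable_pi_apply _).const_mul _) S (fun m i => (q i : ℝ) * Z m (jj i)) (fun _ => b) hS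
    (by rw [Fintype.card_prod, Fintype.card_coe]; push_cast; exact hD)
    (fun _ => hb) (fun _ => hby) ?_ ?_ {A | ∃ w ∈ E, ∀ j, ∀ n : Pl, A (j, n) = w j n}
  · have e0 : ∀ (z : κ → ℝ), (cv (fun _ => b) (fun i => (q i : ℝ) * z (jj i)) ∈
        {A : κ × Pl → ℕ | ∃ w ∈ E, ∀ j, ∀ n : Pl, A (j, n) = w j n}) ↔
        ∃ w ∈ E, ∀ j, ∀ n : Pl, ⌊(b : ℝ) * Int.fract ((b : ℝ) ^ (n : ℕ) * z j)⌋₊ = w j n := by
      intro z
      rw [Set.mem_ofPred_eq]
      unfold cv
      simp only [hqR, hjj]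
    have e1 : (PU κ).real {x | cv (fun _ => b) (fun i => (q i : ℝ) * x (jj i)) ∈
        {A : κ × Pl → ℕ | ∃ w ∈ E, ∀ j, ∀ n : Pl, A (j, n) = w j n}} =
        E.card / (b : ℝ) ^ (Fintype.card κ * Pl.card) := by
      have e : {x : κ → ℝ | cv (fun _ => b) (fun i => (q i : ℝ) * x (jj i)) ∈
          {A : κ × Pl → ℕ | ∃ w ∈ E, ∀ j, ∀ n : Pl, A (j, n) = w j n}} =
          ⋃ w ∈ E, {x : κ → ℝ | ∀ j, x j ∈ {t : ℝ | ∀ n ∈ Pl,
            dg b ((b : ℝ) ^ n * t) = if h : n ∈ Pl then (w j ⟨n, h⟩ : ℕ) else 0}} := by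
        ext x
        rw [Set.mem_ofPred_eq, e0 x]
        simp only [Set.mem_iUnion, exists_prop, Set.mem_ofPred_eq]
        constructor
        · rintro ⟨w, hw, h1⟩
          refine ⟨w, hw, fun j n hn => ?_⟩
          rw [dif_pos hn]
          exact h1 j ⟨n, hn⟩
        · rintro ⟨w, hw, h1⟩
          refine ⟨w, hw, fun j n => ?_⟩
          have := h1 j n n.2
          rw [dif_pos n.2] at this
          exact this
      rw [e, measureReal_biUnion_finset]
      · have h1 : ∀ w ∈ E, (PU κ).real {x : κ → ℝ | ∀ j, x j ∈ {t : ℝ | ∀ n ∈ Pl,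
            dg b ((b : ℝ) ^ n * t) = if h : n ∈ Pl then (w j ⟨n, h⟩ : ℕ) else 0}} =
            1 / (b : ℝ) ^ (Fintype.card κ * Pl.card) := by
          intro w _
          rw [pi_box]
          have : ∀ j ∈ (Finset.univ : Finset κ), U.real {t : ℝ | ∀ n ∈ Pl,
              dg b ((b : ℝ) ^ n * t) = if h : n ∈ Pl then (w j ⟨n, h⟩ : ℕ) else 0} =
              1 / (b : ℝ) ^ Pl.card := by
            intro j _
            refine digits_unif hb Pl (fun n => if h : n ∈ Pl then (w j ⟨n, h⟩ : ℕ) else 0)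
              fun n hn => ?_
            rw [dif_pos hn]
            exact (w j ⟨n, hn⟩).2
          rw [Finset.prod_congr rfl this, Finset.prod_const, Finset.card_univ, div_pow, one_pow,
            ← pow_mul, mul_comm]
        rw [Finset.sum_congr rfl h1, Finset.sum_const, nsmul_eq_mul, mul_one_div]
      · intro w _ w' _ hww
        rw [Function.onFun, Set.disjoint_left]
        intro x hx hx'
        apply hww
        funext j n
        have h1 := hx j n n.2
        have h2 := hx' j n n.2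
        rw [dif_pos n.2] at h1 h2
        exact Fin.ext (h1.symm.trans h2)
      · intro w _
        have : {x : κ → ℝ | ∀ j, x j ∈ {t : ℝ | ∀ n ∈ Pl,
            dg b ((b : ℝ) ^ n * t) = if h : n ∈ Pl then (w j ⟨n, h⟩ : ℕ) else 0}} =
            ⋂ j, ⋂ n ∈ Pl, {x : κ → ℝ | dg b ((b : ℝ) ^ n * x j) =
              if h : n ∈ Pl then (w j ⟨n, h⟩ : ℕ) else 0} := by
          ext x; simp
        rw [this]
        refine MeasurableSet.iInter fun j => Finset.measurableSet_biInter _ fun n _ => ?_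
        have hmm : Measurable fun x : κ → ℝ => dg b ((b : ℝ) ^ n * x j) :=
          (dg_meas b).comp ((measurable_pi_apply (X := fun _ : κ => ℝ) j).const_mul ((b : ℝ) ^ n))
        exact hmm (measurableSet_singleton _)
    rw [e1] at h
    have e2 : ∀ m, (cv (fun _ : κ × Pl => b) (fun i => (q i : ℝ) * Z m (jj i)) ∈
        {A : κ × Pl → ℕ | ∃ w ∈ E, ∀ j, ∀ n : Pl, A (j, n) = w j n}) ↔
        ∃ w ∈ E, ∀ j, ∀ n : Pl, ⌊(b : ℝ) * Int.fract ((b : ℝ) ^ (n : ℕ) * Z m j)⌋₊ = w j n :=
      fun m => e0 (Z m)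
    simp only [e2] at h
    exact h
  · intro i l hl
    have h1 := pi_ee (κ := κ) (fun j => if j = jj i then l * q i else 0)
    have h2 : ∀ x : κ → ℝ, ∑ j, (((if j = jj i then l * q i else 0 : ℤ)) : ℝ) * x j =
        l * ((q i : ℝ) * x (jj i)) := by
      intro x
      rw [Finset.sum_eq_single_of_mem (jj i) (Finset.mem_univ _)]
      · simp
        ring
      · intro j _ hj
        simp [hj]
    simp only [h2] at h1
    rw [h1, if_neg]
    intro h3
    have h4 := congrFun h3 (jj i)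
    simp only [if_true, Pi.zero_apply] at h4
    have hqi : q i ≠ 0 := by
      rw [hq]
      exact pow_ne_zero _ (by exact_mod_cast (by omega : b ≠ 0))
    exact (mul_ne_zero hl hqi) h4
  · intro h hh
    have e1 : ∀ x : κ → ℝ, ∑ i, (h i : ℝ) * ((q i : ℝ) * x (jj i)) =
        ∑ j, (frq jj q h j : ℝ) * x j := fun x => frq_sum jj q h x
    simp only [e1]
    rw [pi_ee]
    by_cases h0 : frq jj q h = 0
    · rw [if_pos h0]
      simp only [h0, Pi.zero_apply, Int.cast_zero, zero_mul, Finset.sum_const_zero, ee_zero,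
        Finset.sum_const, nsmul_eq_mul, mul_one]
      rw [div_self (by exact_mod_cast hS0.ne'), sub_self, norm_zero]
      exact Real.exp_nonneg _
    · rw [if_neg h0, sub_zero, norm_div, Complex.norm_natCast, div_le_iff₀ hS0, mul_comm]
      refine hX _ h0 (fun n₀ hn j => ?_) (fun L hL j => ?_)
      · unfold frq
        refine Finset.dvd_sum fun i _ => ?_
        split_ifs with h5
        · refine Dvd.dvd.mul_left ?_ _
          rw [hq]
          exact pow_dvd_pow _ (hn _ i.2.2)
        · exact dvd_zero _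
      · unfold frq
        push_cast
        have hL0 : Pl.Nonempty → 0 ≤ L := fun ⟨n, hn⟩ => le_trans (by positivity) (hL n hn)
        calc |∑ i : κ × Pl, (if jj i = j then (h i : ℝ) * (q i : ℝ) else 0)| ≤
              ∑ i : κ × Pl, |if jj i = j then (h i : ℝ) * (q i : ℝ) else 0| :=
              Finset.abs_sum_le_sum_abs _ _
          _ ≤ ∑ i : κ × Pl, if jj i = j then Real.exp (y ^ 10) * L else 0 := by
              refine Finset.sum_le_sum fun i _ => ?_
              split_ifs with h5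
              · rw [abs_mul]
                apply mul_le_mul (hh i) _ (abs_nonneg _) (Real.exp_nonneg _)
                rw [hqR, abs_of_nonneg (by positivity)]
                exact hL _ i.2.2
              · simp
          _ = Pl.card * (Real.exp (y ^ 10) * L) := by
              rw [Fintype.sum_prod_type]
              rw [Finset.sum_eq_single_of_mem j (Finset.mem_univ _)]
              · rw [hjj]
                simp only [if_true]
                rw [Finset.sum_const, Finset.card_univ, Fintype.card_coe, nsmul_eq_mul]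
              · intro j' _ hj'
                refine Finset.sum_eq_zero fun n _ => ?_
                rw [hjj]
                exact if_neg hj'

end Pool.Agent.X121.GS
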