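import Pool.Agent.X121.GS.Pow
import Pool.Agent.X121.GS.Prod
import Pool.Agent.X121.ZS.Fin

set_option autoImplicit false

namespace Pool.Agent.X121.GS

open Finset Filter MeasureTheory Pool.Agent.X121.AB Pool.Agent.X121.TV Pool.Agent.X121.ZS
open Pool.Agent.Y93.VK (ee ee_add norm_ee ee_zero ee_neg ee_eq)

theorem bc_neg_ge (i d : ℕ) : 1 ≤ |bc (-((i : ℝ) + 1)) d| := by
  unfold bc
  rw [Finset.abs_prod]
  calc (1 : ℝ) = ∏ j ∈ Finset.range d, (1 : ℝ) := by simp
    _ ≤ ∏ j ∈ Finset.range d, |(-((i : ℝ) + 1) - j) / ((j : ℝ) + 1)| := by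
        refine Finset.prod_le_prod (fun _ _ => by norm_num) fun j _ => ?_
        have hj : (0 : ℝ) < (j : ℝ) + 1 := by positivity
        rw [abs_div, abs_of_pos hj, le_div_iff₀ hj, one_mul]
        have h1 : |-((i : ℝ) + 1) - j| = (i : ℝ) + 1 + j := by
          rw [abs_of_nonpos (by have : (0 : ℝ) ≤ i := Nat.cast_nonneg i; linarith)]
          ring
        rw [h1]
        have : (0 : ℝ) ≤ i := Nat.cast_nonneg i
        linarith

theorem base_y {η : ℝ} (hη : 0 < η) (hη1 : η ≤ 1) :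
    ∀ᶠ y : ℝ in atTop, ∀ N : ℕ, (N : ℝ) = Real.exp (y ^ 70) → ∀ H : ℕ,
      Real.exp (η * y ^ 70) ≤ H → H ≤ N → ∀ (A : ℝ) (s : ℕ) (h : Fin s → ℤ), h ≠ 0 →
      (∀ i, (|h i| : ℝ) ≤ Real.exp (y ^ 10)) → Real.exp ((s + 8 / η) * y ^ 70) ≤ A →
      A ≤ Real.exp (y ^ 79) →
      ‖∑ b ∈ Finset.Icc 1 H, ee (∑ i, h i * (A / ((N + b : ℕ) : ℝ) ^ ((i : ℕ) + 1)))‖ ≤
        H * Real.exp (-(y ^ 20)) := by
  filter_upwards [psum hη hη1, eventually_ge_atTop (100 : ℝ)] with y hP hy100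
  intro N hN H hH1 hH2 A s h h0 hh hA1 hA2
  have hy0 : (0 : ℝ) < y := by linarith
  have hy1 : (1 : ℝ) ≤ y := by linarith
  have yp : ∀ a b : ℕ, a ≤ b → y ^ a ≤ y ^ b := fun a b hab => pow_le_pow_right₀ hy1 hab
  have hy1' : ∀ a : ℕ, 1 ≤ y ^ a := fun a => one_le_pow₀ hy1
  have hstep : ∀ a : ℕ, 100 * y ^ a ≤ y ^ (a + 1) := fun a => by
    rw [pow_succ, mul_comm]; gcongr
  obtain ⟨ℓ, hℓ⟩ : ∃ ℓ : ℝ, ℓ = y ^ 70 := ⟨_, rfl⟩
  have hℓ0 : 0 < ℓ := by rw [hℓ]; positivity
  have hN0 : (0 : ℝ) < N := by rw [hN]; exact Real.exp_pos _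
  have hA0 : 0 < A := lt_of_lt_of_le (Real.exp_pos _) hA1
  have hlogA1 : (s + 8 / η) * ℓ ≤ Real.log A := by
    rw [Real.le_log_iff_exp_le hA0, hℓ]; exact hA1
  have hlogA2 : Real.log A ≤ y ^ 9 * ℓ := by
    rw [Real.log_le_iff_le_exp hA0, hℓ]
    calc A ≤ Real.exp (y ^ 79) := hA2
      _ = _ := by congr 1; ring
  have h8 : (8 : ℝ) ≤ 8 / η := by rw [le_div_iff₀ hη]; linarith
  have hsy : (s : ℝ) + 8 / η ≤ y ^ 9 := by
    by_contra hcon
    push Not at hcon
    have := mul_lt_mul_of_pos_right hcon hℓ0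
    linarith
  have hs9 : (s : ℝ) ≤ y ^ 9 := by linarith
  -- the smallest index
  have hne : ((Finset.univ : Finset (Fin s)).filter fun i => h i ≠ 0).Nonempty := by
    by_contra hcon
    rw [Finset.not_nonempty_iff_eq_empty, Finset.filter_eq_empty_iff] at hcon
    apply h0
    funext i
    have := hcon (Finset.mem_univ i)
    rw [not_not] at this
    exact this
  obtain ⟨i0, hi0⟩ : ∃ i0, i0 = ((Finset.univ : Finset (Fin s)).filter fun i => h i ≠ 0).min' hne :=
    ⟨_, rfl⟩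
  have hi0h : h i0 ≠ 0 := by
    have := Finset.min'_mem _ hne
    rw [← hi0, Finset.mem_filter] at this
    exact this.2
  have hmin : ∀ i, h i ≠ 0 → i ≠ i0 → (i0 : ℕ) + 1 ≤ i := by
    intro i hi hii
    have h1 : i0 ≤ i := by
      rw [hi0]
      exact Finset.min'_le (Finset.univ.filter fun i => h i ≠ 0) i
        (Finset.mem_filter.2 ⟨Finset.mem_univ i, hi⟩)
    have h2 : i0 < i := lt_of_le_of_ne h1 (Ne.symm hii)
    exact h2
  obtain ⟨κ, hκ⟩ : ∃ κ : ℝ, κ = Real.log A / ℓ - ((i0 : ℕ) + 1) := ⟨_, rfl⟩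
  have hκℓ : κ * ℓ = Real.log A - ((i0 : ℕ) + 1) * ℓ := by rw [hκ]; field_simp
  have hi0s : (((i0 : ℕ) : ℝ) + 1) ≤ s := by
    have := i0.2
    have : (i0 : ℕ) + 1 ≤ s := this
    exact_mod_cast this
  have hκ1 : 8 / η ≤ κ := by
    rw [hκ, le_sub_iff_add_le, le_div_iff₀ hℓ0]
    refine le_trans ?_ hlogA1
    apply mul_le_mul_of_nonneg_right _ hℓ0.le
    linarith
  have hκ2 : κ ≤ 2 * y ^ 9 := by
    have h1 : Real.log A / ℓ ≤ y ^ 9 := by rw [div_le_iff₀ hℓ0]; exact hlogA2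
    have h2 : (0 : ℝ) ≤ ((i0 : ℕ) : ℝ) := Nat.cast_nonneg _
    have := hy1' 9
    rw [hκ]
    linarith
  have hκ0 : 0 ≤ κ := by linarith
  have hAκ : A = Real.exp (κ * ℓ + ((i0 : ℕ) + 1) * ℓ) := by
    rw [hκℓ, sub_add_cancel, Real.exp_log hA0]
  obtain ⟨d, hd1, hd⟩ := exists_indices (μ := η / 4) (κ := κ) (by positivity) (by linarith) 0 le_rfl 0
    (by
      have : (0 + ((0 : ℕ) : ℝ) + 2) / (η / 4) = 8 / η := by
        push_cast
        field_simp
        ring
      rw [this]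
      exact hκ1)
  obtain ⟨hk1, hk2⟩ := hd 0 le_rfl
  rw [Nat.add_zero] at hk1 hk2
  have hd2κ : (d : ℝ) ≤ 2 * κ := by
    have h1 : (d : ℝ) * (1 / 2) ≤ d * (1 - 2 * (η / 4)) := by
      apply mul_le_mul_of_nonneg_left _ (Nat.cast_nonneg _)
      linarith
    linarith
  have hdy : (d : ℝ) ≤ 4 * y ^ 9 := by linarith
  have hexp2 : ∀ j : ℕ, (2 : ℝ) ^ j ≤ Real.exp j := by
    intro j
    calc (2 : ℝ) ^ j ≤ (Real.exp 1) ^ j := by
          apply pow_le_pow_left₀ (by norm_num)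
          have := Real.add_one_le_exp (1 : ℝ)
          linarith
      _ = Real.exp (j : ℝ) := Real.exp_one_pow j
  have hmain := hP N hN H hH1 hH2 (Fin s) (fun i => A * h i) (fun i => -(((i : ℕ) : ℝ) + 1)) (fun _ => 0)
    s κ κ ?_ ?_ (fun _ => le_rfl) hκ0 le_rfl hκ2 ?_ ?_
  · refine le_trans (le_of_eq ?_) hmain
    congr 1
    refine Finset.sum_congr rfl fun b _ => ?_
    congr 1
    refine Finset.sum_congr rfl fun i _ => ?_
    have hb0 : (0 : ℝ) ≤ ((N + b : ℕ) : ℝ) := Nat.cast_nonneg _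
    rw [add_zero, Real.rpow_neg hb0]
    have : (((i : ℕ) : ℝ) + 1) = (((i : ℕ) + 1 : ℕ) : ℝ) := by push_cast; rfl
    rw [this, Real.rpow_natCast]
    ring
  · intro i
    rw [abs_neg, abs_of_nonneg (by positivity)]
    have : (i : ℕ) + 1 ≤ s := i.2
    exact_mod_cast this
  · have := yp 9 10 (by norm_num)
    linarith
  · -- upper bound
    intro n hn1 hn2
    have hnR : (N : ℝ) ≤ n := by exact_mod_cast hn1
    have hn0 : (0 : ℝ) < n := lt_of_lt_of_le hN0 hnR
    have hn1' : (1 : ℝ) ≤ n := by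
      have : 1 ≤ n := by
        have : 0 < n := by exact_mod_cast hn0
        omega
      exact_mod_cast this
    have hterm : ∀ i ∈ (Finset.univ : Finset (Fin s)), |A * (h i : ℝ)| * ((n : ℝ) + 0) ^ (-(((i : ℕ) : ℝ) + 1)) ≤
        Real.exp (y ^ 10) * Real.exp (κ * y ^ 70) := by
      intro i _
      rw [add_zero, ← hℓ]
      by_cases hi : h i = 0
      · rw [hi]
        simp
        positivity
      · have hii : (i0 : ℕ) ≤ i := by
          by_cases he : i = i0
          · rw [he]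
          · have := hmin i hi he
            omega
        have h1 : (n : ℝ) ^ (-(((i : ℕ) : ℝ) + 1)) ≤ Real.exp (-(((i0 : ℕ) + 1) * ℓ)) := by
          calc (n : ℝ) ^ (-(((i : ℕ) : ℝ) + 1)) ≤ (n : ℝ) ^ (-(((i0 : ℕ) : ℝ) + 1)) := by
                apply Real.rpow_le_rpow_of_exponent_le hn1'
                have : (((i0 : ℕ)) : ℝ) ≤ ((i : ℕ) : ℝ) := by exact_mod_cast hii
                linarith
            _ ≤ (N : ℝ) ^ (-(((i0 : ℕ) : ℝ) + 1)) := by
                apply Real.rpow_le_rpow_of_nonpos hN0 hnR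
                have : (0 : ℝ) ≤ ((i0 : ℕ) : ℝ) := Nat.cast_nonneg _
                linarith
            _ = _ := by
                rw [hN, ← hℓ, ← Real.exp_mul]
                congr 1
                ring
        rw [abs_mul, abs_of_pos hA0]
        calc A * |(h i : ℝ)| * (n : ℝ) ^ (-(((i : ℕ) : ℝ) + 1)) ≤
              A * Real.exp (y ^ 10) * Real.exp (-(((i0 : ℕ) + 1) * ℓ)) := by
              gcongr
              exact hh i
          _ = Real.exp (y ^ 10) * (A * Real.exp (-(((i0 : ℕ) + 1) * ℓ))) := by ring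
          _ = Real.exp (y ^ 10) * Real.exp (κ * ℓ) := by
              congr 1
              rw [hAκ, ← Real.exp_add]
              congr 1
              ring
    refine (Finset.sum_le_sum hterm).trans ?_
    rw [Finset.sum_const, Finset.card_univ, Fintype.card_fin, nsmul_eq_mul]
    have hsexp : (s : ℝ) ≤ Real.exp (y ^ 9) := by
      have := Real.add_one_le_exp (y ^ 9)
      linarith
    calc (s : ℝ) * (Real.exp (y ^ 10) * Real.exp (κ * y ^ 70)) ≤
          Real.exp (y ^ 9) * (Real.exp (y ^ 10) * Real.exp (κ * y ^ 70)) := by gcongr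
      _ = Real.exp (y ^ 9 + (y ^ 10 + κ * y ^ 70)) := by rw [Real.exp_add, Real.exp_add]
      _ ≤ _ := by
          apply Real.exp_le_exp.2
          have h1 := yp 9 10 (by norm_num)
          have h2 := hstep 10
          have h3 := yp 11 15 (by norm_num)
          norm_num at h2
          have := hy1' 10
          linarith
  · -- lower bound
    intro n hn1 hn2
    refine ⟨d, hd1, hk1, by linarith, ?_⟩
    have hnR : (N : ℝ) ≤ n := by exact_mod_cast hn1
    have hnR2 : (n : ℝ) ≤ 2 * N := by exact_mod_cast hn2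
    have hn0 : (0 : ℝ) < n := lt_of_lt_of_le hN0 hnR
    have hn1' : (1 : ℝ) ≤ n := by
      have : 1 ≤ n := by
        have : 0 < n := by exact_mod_cast hn0
        omega
      exact_mod_cast this
    obtain ⟨F, hF⟩ : ∃ F : Fin s → ℝ, F = fun i => A * (h i : ℝ) * bc (-(((i : ℕ) : ℝ) + 1)) d *
      ((n : ℝ) + 0) ^ (-(((i : ℕ) : ℝ) + 1) - d) := ⟨_, rfl⟩
    obtain ⟨G, hG⟩ : ∃ G : ℝ, G = A * (n : ℝ) ^ (-(((i0 : ℕ) : ℝ) + 1) - d) := ⟨_, rfl⟩
    have hG0 : 0 < G := by rw [hG]; positivity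
    have hF0 : G ≤ |F i0| := by
      rw [hF, hG]
      simp only [add_zero]
      rw [abs_mul, abs_mul, abs_mul, abs_of_pos hA0, abs_of_pos (Real.rpow_pos_of_pos hn0 _)]
      have h1 : (1 : ℝ) ≤ |(h i0 : ℝ)| := by
        have := Int.one_le_abs hi0h
        exact_mod_cast this
      have h2 := bc_neg_ge i0 d
      have h3 : 0 < (n : ℝ) ^ (-(((i0 : ℕ) : ℝ) + 1) - d) := Real.rpow_pos_of_pos hn0 _
      calc A * (n : ℝ) ^ (-(((i0 : ℕ) : ℝ) + 1) - d) =
            A * 1 * 1 * (n : ℝ) ^ (-(((i0 : ℕ) : ℝ) + 1) - d) := by ring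
        _ ≤ _ := by gcongr
    have hFi : ∀ i ∈ (Finset.univ : Finset (Fin s)).erase i0, |F i| ≤
        Real.exp (y ^ 10 + 5 * y ^ 9) / N * G := by
      intro i hi
      have hii := (Finset.mem_erase.1 hi).1
      rw [hF, hG]
      simp only [add_zero]
      by_cases hhi : h i = 0
      · rw [hhi]
        simp
        positivity
      · have hle := hmin i hhi hii
        rw [abs_mul, abs_mul, abs_mul, abs_of_pos hA0, abs_of_pos (Real.rpow_pos_of_pos hn0 _)]
        have h1 : (n : ℝ) ^ (-(((i : ℕ) : ℝ) + 1) - d) ≤ 1 / N * (n : ℝ) ^ (-(((i0 : ℕ) : ℝ) + 1) - d) := by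
          calc (n : ℝ) ^ (-(((i : ℕ) : ℝ) + 1) - d) ≤ (n : ℝ) ^ (-1 + (-(((i0 : ℕ) : ℝ) + 1) - d)) := by
                apply Real.rpow_le_rpow_of_exponent_le hn1'
                have : (((i0 : ℕ)) : ℝ) + 1 ≤ ((i : ℕ) : ℝ) := by exact_mod_cast hle
                linarith
            _ = (n : ℝ) ^ (-1 : ℝ) * (n : ℝ) ^ (-(((i0 : ℕ) : ℝ) + 1) - d) := Real.rpow_add hn0 _ _
            _ ≤ _ := by
                rw [Real.rpow_neg_one, ← one_div]
                gcongr
        have h2 : |bc (-(((i : ℕ) : ℝ) + 1)) d| ≤ Real.exp (5 * y ^ 9) := by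
          refine (bc_ub (t := s) ?_ d).trans ((hexp2 _).trans (Real.exp_le_exp.2 ?_))
          · rw [abs_neg, abs_of_nonneg (by positivity)]
            have : (i : ℕ) + 1 ≤ s := i.2
            exact_mod_cast this
          · push_cast
            linarith
        calc A * |(h i : ℝ)| * |bc (-(((i : ℕ) : ℝ) + 1)) d| * (n : ℝ) ^ (-(((i : ℕ) : ℝ) + 1) - d) ≤
            A * Real.exp (y ^ 10) * Real.exp (5 * y ^ 9) *
              (1 / N * (n : ℝ) ^ (-(((i0 : ℕ) : ℝ) + 1) - d)) := by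
              gcongr
              exact hh i
          _ = _ := by rw [Real.exp_add]; ring
    have hrest : ∑ i ∈ (Finset.univ : Finset (Fin s)).erase i0, |F i| ≤ 1 / 2 * G := by
      calc _ ≤ ∑ i ∈ (Finset.univ : Finset (Fin s)).erase i0, Real.exp (y ^ 10 + 5 * y ^ 9) / N * G :=
            Finset.sum_le_sum hFi
        _ = (((Finset.univ : Finset (Fin s)).erase i0).card : ℝ) *
            (Real.exp (y ^ 10 + 5 * y ^ 9) / N * G) := by rw [Finset.sum_const, nsmul_eq_mul]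
        _ ≤ s * (Real.exp (y ^ 10 + 5 * y ^ 9) / N * G) := by
            have h1 : (((Finset.univ : Finset (Fin s)).erase i0).card : ℝ) ≤ s := by
              have := Finset.card_le_univ ((Finset.univ : Finset (Fin s)).erase i0)
              rw [Fintype.card_fin] at this
              exact_mod_cast this
            gcongr
        _ = (s * Real.exp (y ^ 10 + 5 * y ^ 9) / N) * G := by ring
        _ ≤ 1 / 2 * G := by
            apply mul_le_mul_of_nonneg_right _ hG0.le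
            rw [div_le_iff₀ hN0, hN]
            have hsexp : (s : ℝ) ≤ Real.exp (y ^ 9) := by
              have := Real.add_one_le_exp (y ^ 9)
              linarith
            have h2e : (2 : ℝ) ≤ Real.exp 1 := by
              have := Real.add_one_le_exp (1 : ℝ)
              linarith
            have h3 : Real.exp (y ^ 9) * Real.exp (y ^ 10 + 5 * y ^ 9) * Real.exp 1 ≤
                Real.exp (y ^ 70) := by
              rw [← Real.exp_add, ← Real.exp_add]
              apply Real.exp_le_exp.2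
              have h1 := yp 9 10 (by norm_num)
              have h2 := hstep 10
              have h3 := yp 11 70 (by norm_num)
              norm_num at h2
              have := hy1' 10
              linarith
            have h4 : 0 < Real.exp (y ^ 9) * Real.exp (y ^ 10 + 5 * y ^ 9) := by positivity
            have h5 : (s : ℝ) * Real.exp (y ^ 10 + 5 * y ^ 9) ≤
                Real.exp (y ^ 9) * Real.exp (y ^ 10 + 5 * y ^ 9) := by gcongr
            nlinarith
    have hsum : ∑ i, F i = F i0 + ∑ i ∈ (Finset.univ : Finset (Fin s)).erase i0, F i :=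
      (Finset.add_sum_erase _ _ (Finset.mem_univ i0)).symm
    have habs : 1 / 2 * G ≤ |∑ i, F i| := by
      have h1 : |F i0| ≤ |∑ i, F i| + |∑ i ∈ (Finset.univ : Finset (Fin s)).erase i0, F i| := by
        have : F i0 = ∑ i, F i - ∑ i ∈ (Finset.univ : Finset (Fin s)).erase i0, F i := by
          rw [hsum]; ring
        rw [this]
        exact abs_sub _ _
      have h2 := Finset.abs_sum_le_sum_abs F ((Finset.univ : Finset (Fin s)).erase i0)
      linarith
    have hGlow : Real.exp (-(y ^ 20) + κ * y ^ 70 - d * y ^ 70) ≤ 1 / 2 * G := by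
      have h1 : (2 * (N : ℝ)) ^ (-(((i0 : ℕ) : ℝ) + 1) - d) ≤ (n : ℝ) ^ (-(((i0 : ℕ) : ℝ) + 1) - d) := by
        apply Real.rpow_le_rpow_of_nonpos hn0 hnR2
        have : (0 : ℝ) ≤ ((i0 : ℕ) : ℝ) := Nat.cast_nonneg _
        have : (0 : ℝ) ≤ (d : ℝ) := Nat.cast_nonneg _
        linarith
      have h2 : (2 * (N : ℝ)) ^ (-(((i0 : ℕ) : ℝ) + 1) - d) =
          (2 : ℝ) ^ (-(((i0 : ℕ) : ℝ) + 1) - d) * Real.exp (-((((i0 : ℕ) : ℝ) + 1) * ℓ) - d * ℓ) := by
        rw [Real.mul_rpow (by norm_num) hN0.le, hN, ← hℓ, ← Real.exp_mul ℓ]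
        congr 2
        ring
      have h3 : Real.exp (-(6 * y ^ 9)) ≤ (2 : ℝ) ^ (-(((i0 : ℕ) : ℝ) + 1) - d) := by
        have h4 : (2 : ℝ) ^ (-(((i0 : ℕ) : ℝ) + 1) - d) = ((2 : ℝ) ^ ((i0 : ℕ) + 1 + d))⁻¹ := by
          rw [← Real.rpow_natCast, ← Real.rpow_neg (by norm_num)]
          congr 1
          push_cast
          ring
        rw [h4, Real.exp_neg]
        apply inv_anti₀ (by positivity)
        refine (hexp2 _).trans (Real.exp_le_exp.2 ?_)
        push_cast
        have := hy1' 9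
        linarith
      have h5 : Real.exp (-1) ≤ 1 / 2 := by
        rw [Real.exp_neg, ← one_div]
        apply one_div_le_one_div_of_le (by norm_num)
        have := Real.add_one_le_exp (1 : ℝ)
        linarith
      calc Real.exp (-(y ^ 20) + κ * y ^ 70 - d * y ^ 70) ≤
            Real.exp (-1 + (κ * ℓ + ((i0 : ℕ) + 1) * ℓ) + -(6 * y ^ 9) +
              (-((((i0 : ℕ) : ℝ) + 1) * ℓ) - d * ℓ)) := by
            apply Real.exp_le_exp.2
            rw [← hℓ]
            have h1 := hstep 9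
            have h2 := yp 10 20 (by norm_num)
            norm_num at h1
            have := hy1' 9
            linarith
        _ = Real.exp (-1) * A * Real.exp (-(6 * y ^ 9)) *
            Real.exp (-((((i0 : ℕ) : ℝ) + 1) * ℓ) - d * ℓ) := by
            rw [Real.exp_add, Real.exp_add, Real.exp_add, ← hAκ]
        _ ≤ 1 / 2 * A * (2 : ℝ) ^ (-(((i0 : ℕ) : ℝ) + 1) - d) *
            Real.exp (-((((i0 : ℕ) : ℝ) + 1) * ℓ) - d * ℓ) := by gcongr
        _ = 1 / 2 * (A * (2 * (N : ℝ)) ^ (-(((i0 : ℕ) : ℝ) + 1) - d)) := by rw [h2]; ring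
        _ ≤ 1 / 2 * G := by
            rw [hG]
            gcongr
    have : |∑ i, F i| = |∑ i : Fin s, A * (h i : ℝ) * bc (-(((i : ℕ) : ℝ) + 1)) d *
      ((n : ℝ) + 0) ^ (-(((i : ℕ) : ℝ) + 1) - d)| := by rw [hF]
    rw [← this]
    exact hGlow.trans habs

open Classical in
/-- the digits of a large number in a random base -/
theorem base_main {η : ℝ} (hη : 0 < η) (hη1 : η ≤ 1) :
    ∃ N₀ : ℕ, ∀ N H : ℕ, N₀ ≤ N → (N : ℝ) ^ η ≤ H → H ≤ N → ∀ (A : ℝ) (s m : ℕ),
      (N : ℝ) ^ (s + 8 / η) ≤ A → A ≤ Real.exp ((Real.log N) ^ (9 / 8 : ℝ)) → 1 ≤ m →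
      (m : ℝ) ≤ Real.exp ((Real.log N) ^ (1 / 8 : ℝ)) → ∀ E : Finset (Fin s → Fin m),
      |(((Finset.Ioc N (N + H)).filter fun q : ℕ => ∃ w ∈ E, ∀ i : Fin s,
          ⌊(m : ℝ) * Int.fract (A / (q : ℝ) ^ ((i : ℕ) + 1))⌋₊ = w i).card : ℝ) / H -
        E.card / (m : ℝ) ^ s| ≤ Real.exp (-((Real.log N) ^ (1 / 8 : ℝ))) := by
  obtain ⟨N₀, hN₀⟩ := to_log2 ((iid_y.and (base_y hη hη1)).mono fun y h N _ => h) 256
  refine ⟨N₀, fun N H hN hH1 hH2 A s m hA1 hA2 hm hmy E => ?_⟩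
  obtain ⟨y, hy256, hy1, hNy, ⟨htv, hsum⟩, e1, e2⟩ := hN₀ N hN
  have hy0 : (0 : ℝ) < y := by linarith
  rw [e1] at hmy ⊢
  rw [e2] at hA2
  have h9 : y ^ (35 / 4 : ℝ) ≤ y ^ 9 := by
    rw [← Real.rpow_natCast]
    exact Real.rpow_le_rpow_of_exponent_le hy1 (by norm_num)
  have h79 : y ^ (315 / 4 : ℝ) ≤ y ^ 79 := by
    rw [← Real.rpow_natCast]
    exact Real.rpow_le_rpow_of_exponent_le hy1 (by norm_num)
  have hN0 : (0 : ℝ) < N := by rw [hNy]; exact Real.exp_pos _
  have hH0 : (0 : ℝ) < H := lt_of_lt_of_le (by positivity) hH1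
  have hH0' : 1 ≤ H := by
    have : 0 < H := by exact_mod_cast hH0
    omega
  have hrw : ∀ z : ℝ, (N : ℝ) ^ z = Real.exp (z * y ^ 70) := by
    intro z
    rw [hNy, ← Real.exp_mul, mul_comm]
  have hA3 : A ≤ Real.exp (y ^ 79) := hA2.trans (Real.exp_le_exp.2 h79)
  rw [hrw] at hA1 hH1
  have hs9 : (s : ℝ) ≤ y ^ 9 := by
    have h1 := hA1.trans hA3
    rw [Real.exp_le_exp] at h1
    have h2 : y ^ 79 = y ^ 9 * y ^ 70 := by ring
    rw [h2] at h1
    have h3 := le_of_mul_le_mul_right h1 (by positivity)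
    have : 0 < 8 / η := by positivity
    linarith
  have hmain := htv (Fin s) (Finset.Ioc N (N + H)) (fun q i => A / (q : ℝ) ^ ((i : ℕ) + 1)) m
    (by rw [Finset.nonempty_Ioc]; omega) (by rw [Fintype.card_fin]; exact hs9) hm
    (hmy.trans (Real.exp_le_exp.2 h9)) ?_ E
  · rw [Nat.card_Ioc, Nat.add_sub_cancel_left, Fintype.card_fin] at hmain
    have hle : -(y ^ 9) ≤ -(y ^ (35 / 4 : ℝ)) := by linarith
    refine le_trans (le_of_eq ?_) (hmain.trans (Real.exp_le_exp.2 hle))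
    congr!
  · intro h h0 hh
    rw [Nat.card_Ioc, Nat.add_sub_cancel_left, sum_reindex]
    exact hsum N hNy H hH1 hH2 A s h h0 hh hA1 hA3

end Pool.Agent.X121.GS
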