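import Pool.Agent.X121.GS.Pow

set_option autoImplicit false

/-! # Elimination: lower bounds for the coefficients of sums of powers -/

namespace Pool.Agent.X121.GS

open Finset Filter Pool.Agent.X121.ZS

theorem bc_shift (θ : ℝ) (d : ℕ) : ((d : ℝ) + 1) * bc θ (d + 1) = θ * bc (θ - 1) d := by
  induction d with
  | zero => rw [bc_succ, bc_zero, bc_zero]; simp
  | succ d ih =>
    rw [bc_succ θ (d + 1), bc_succ (θ - 1) d]
    have h1 : ((d : ℝ) + 1) ≠ 0 := by positivity
    have h2 : (((d + 1 : ℕ) : ℝ) + 1) ≠ 0 := by positivity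
    have e : bc θ (d + 1) = θ * bc (θ - 1) d / (d + 1) := by
      rw [eq_div_iff h1, ← ih]; ring
    rw [e]
    push_cast at h2 ⊢
    field_simp
    ring

theorem elimA {ι : Type} [DecidableEq ι] (θ : ι → ℝ) {x : ℝ} (hx : 0 < x) {A : ℝ} (d : ℕ) (n : ℕ) :
    ∀ (s : Finset ι), s.card = n + 1 → ∀ (f : ι → ℝ) (B : ℝ),
      (∀ i ∈ s, ∀ l ≤ n, ((d + l : ℕ) : ℝ) + 1 + |θ i - (d + l : ℕ)| ≤ A) → 0 ≤ B →
      (∀ l ≤ n, |∑ i ∈ s, f i * bc (θ i) (d + l) * x ^ (θ i - (d + l : ℕ))| ≤ B / x ^ l) →
      ∀ t ∈ s, |f t| * (∏ i ∈ s.erase t, |θ t - θ i|) * |bc (θ t) d| * x ^ (θ t - d) ≤ A ^ n * B := by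
  induction n with
  | zero =>
    intro s hs f B _ _ h t ht
    obtain ⟨t', rfl⟩ := Finset.card_eq_one.1 hs
    rw [mem_singleton] at ht
    subst ht
    have h1 := h 0 le_rfl
    rw [sum_singleton, abs_mul, abs_mul, abs_of_pos (Real.rpow_pos_of_pos hx _)] at h1
    simp only [add_zero, pow_zero, div_one] at h1
    rw [erase_singleton, prod_empty, pow_zero, one_mul, mul_one]
    exact h1
  | succ n ih =>
    intro s hs f B hA hB h t ht
    have h1 : (s.erase t).Nonempty := by
      rw [← Finset.card_pos, card_erase_of_mem ht]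
      omega
    obtain ⟨j, hj⟩ := h1
    have hjt : j ≠ t := ne_of_mem_erase hj
    have hjs : j ∈ s := mem_of_mem_erase hj
    have hA0 : 0 ≤ A := le_trans (by positivity) (hA j hjs 0 (by omega))
    have hc : (s.erase j).card = n + 1 := by rw [card_erase_of_mem hjs]; omega
    have h2 := ih (s.erase j) hc (fun i => f i * (θ i - θ j)) (A * B)
      (fun i hi l hl => hA i (mem_of_mem_erase hi) l (by omega)) (mul_nonneg hA0 hB) (by
        intro l hl
        have e : ∑ i ∈ s.erase j, f i * (θ i - θ j) * bc (θ i) (d + l) * x ^ (θ i - (d + l : ℕ)) =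
            (((d + l : ℕ) : ℝ) + 1) * x * (∑ i ∈ s, f i * bc (θ i) (d + (l + 1)) * x ^ (θ i - (d + (l + 1) : ℕ))) -
            (θ j - (d + l : ℕ)) * (∑ i ∈ s, f i * bc (θ i) (d + l) * x ^ (θ i - (d + l : ℕ))) := by
          rw [mul_sum, mul_sum, ← sum_sub_distrib]
          rw [← Finset.add_sum_erase s _ hjs]
          have hterm : ∀ i, (((d + l : ℕ) : ℝ) + 1) * x * (f i * bc (θ i) (d + (l + 1)) * x ^ (θ i - (d + (l + 1) : ℕ))) -
              (θ j - (d + l : ℕ)) * (f i * bc (θ i) (d + l) * x ^ (θ i - (d + l : ℕ))) =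
              f i * (θ i - θ j) * bc (θ i) (d + l) * x ^ (θ i - (d + l : ℕ)) := by
            intro i
            have e1 : d + (l + 1) = (d + l) + 1 := by ring
            rw [e1, bc_succ]
            have e2 : x ^ (θ i - (((d + l) + 1 : ℕ) : ℝ)) = x ^ (θ i - (d + l : ℕ)) / x := by
              rw [← Real.rpow_sub_one hx.ne']
              congr 1
              push_cast
              ring
            rw [e2]
            have h3 : (((d + l : ℕ) : ℝ) + 1) ≠ 0 := by positivity
            field_simp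
            ring
          rw [hterm j, sub_self, mul_zero, zero_mul, zero_mul, zero_add]
          exact sum_congr rfl fun i _ => (hterm i).symm
        rw [e]
        have h3 := h (l + 1) (by omega)
        have h4 := h l (by omega)
        have h5 := hA j hjs l (by omega)
        have hxl : 0 < x ^ l := pow_pos hx _
        calc _ ≤ |(((d + l : ℕ) : ℝ) + 1) * x * (∑ i ∈ s, f i * bc (θ i) (d + (l + 1)) * x ^ (θ i - (d + (l + 1) : ℕ)))| +
            |(θ j - (d + l : ℕ)) * (∑ i ∈ s, f i * bc (θ i) (d + l) * x ^ (θ i - (d + l : ℕ)))| := abs_sub _ _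
          _ ≤ (((d + l : ℕ) : ℝ) + 1) * x * (B / x ^ (l + 1)) + |θ j - (d + l : ℕ)| * (B / x ^ l) := by
              apply add_le_add
              · rw [abs_mul, abs_of_nonneg (by positivity : 0 ≤ (((d + l : ℕ) : ℝ) + 1) * x)]
                exact mul_le_mul_of_nonneg_left h3 (by positivity)
              · rw [abs_mul]
                exact mul_le_mul_of_nonneg_left h4 (abs_nonneg _)
          _ = (((d + l : ℕ) : ℝ) + 1 + |θ j - (d + l : ℕ)|) * (B / x ^ l) := by
              rw [pow_succ]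
              field_simp
          _ ≤ A * (B / x ^ l) := mul_le_mul_of_nonneg_right h5 (by positivity)
          _ = A * B / x ^ l := by ring) t (mem_erase.2 ⟨Ne.symm hjt, ht⟩)
    have e3 : ∏ i ∈ s.erase t, |θ t - θ i| = |θ t - θ j| * ∏ i ∈ (s.erase j).erase t, |θ t - θ i| := by
      rw [erase_right_comm]
      exact (Finset.mul_prod_erase (s.erase t) (fun i => |θ t - θ i|) hj).symm
    rw [e3]
    calc |f t| * (|θ t - θ j| * ∏ i ∈ (s.erase j).erase t, |θ t - θ i|) * |bc (θ t) d| * x ^ (θ t - d) =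
        |f t * (θ t - θ j)| * (∏ i ∈ (s.erase j).erase t, |θ t - θ i|) * |bc (θ t) d| * x ^ (θ t - d) := by
          rw [abs_mul]; ring
      _ ≤ A ^ n * (A * B) := h2
      _ = A ^ (n + 1) * B := by ring

theorem elimB {ι : Type} [DecidableEq ι] (a : ι → ℝ) (ha : ∀ i, 0 ≤ a i) {x : ℝ} (hx : 0 < x)
    (hax : ∀ i, a i ≤ x) {A : ℝ} (d : ℕ) (n : ℕ) :
    ∀ (s : Finset ι), s.card = n + 1 → ∀ (θ : ℝ) (f : ι → ℝ) (B : ℝ),
      (∀ q ≤ n, ∀ l ≤ n, 2 * (((d + l : ℕ) : ℝ) + 1) + |θ - q - (d + l : ℕ)| ≤ A) → 0 ≤ B →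
      (∀ l ≤ n, |∑ i ∈ s, f i * bc θ (d + l) * (x + a i) ^ (θ - (d + l : ℕ))| ≤ B / x ^ l) →
      ∀ t ∈ s, |f t| * (∏ i ∈ s.erase t, |a t - a i|) * (∏ q ∈ range n, |θ - q|) *
        |bc (θ - n) d| * (x + a t) ^ (θ - n - d) ≤ A ^ n * B := by
  induction n with
  | zero =>
    intro s hs θ f B _ _ h t ht
    obtain ⟨t', rfl⟩ := Finset.card_eq_one.1 hs
    rw [mem_singleton] at ht
    subst ht
    have h1 := h 0 le_rfl
    have hxt : 0 < x + a t := by linarith [ha t]
    rw [sum_singleton, abs_mul, abs_mul, abs_of_pos (Real.rpow_pos_of_pos hxt _)] at h1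
    simp only [add_zero, pow_zero, div_one] at h1
    rw [erase_singleton, prod_empty, pow_zero, one_mul, mul_one, range_zero, prod_empty, mul_one,
      Nat.cast_zero, sub_zero]
    exact h1
  | succ n ih =>
    intro s hs θ f B hA hB h t ht
    have h1 : (s.erase t).Nonempty := by
      rw [← Finset.card_pos, card_erase_of_mem ht]
      omega
    obtain ⟨j, hj⟩ := h1
    have hjt : j ≠ t := ne_of_mem_erase hj
    have hjs : j ∈ s := mem_of_mem_erase hj
    have hA0 : 0 ≤ A := le_trans (by positivity) (hA 0 (by omega) 0 (by omega))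
    have hc : (s.erase j).card = n + 1 := by rw [card_erase_of_mem hjs]; omega
    have h2 := ih (s.erase j) hc (θ - 1) (fun i => f i * (θ * (a j - a i))) (A * B)
      (fun q hq l hl => by
        have := hA (q + 1) (by omega) l (by omega)
        push_cast at this ⊢
        have e : θ - 1 - (q : ℝ) - ((d : ℝ) + l) = θ - (q + 1) - ((d : ℝ) + l) := by ring
        rw [e]
        exact this) (mul_nonneg hA0 hB) (by
        intro l hl
        have e : ∑ i ∈ s.erase j, f i * (θ * (a j - a i)) * bc (θ - 1) (d + l) * (x + a i) ^ (θ - 1 - (d + l : ℕ)) =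
            (((d + l : ℕ) : ℝ) + 1) * (x + a j) * (∑ i ∈ s, f i * bc θ (d + (l + 1)) * (x + a i) ^ (θ - (d + (l + 1) : ℕ))) -
            (θ - (d + l : ℕ)) * (∑ i ∈ s, f i * bc θ (d + l) * (x + a i) ^ (θ - (d + l : ℕ))) := by
          rw [mul_sum, mul_sum, ← sum_sub_distrib]
          rw [← Finset.add_sum_erase s _ hjs]
          have hterm : ∀ i, (((d + l : ℕ) : ℝ) + 1) * (x + a j) * (f i * bc θ (d + (l + 1)) * (x + a i) ^ (θ - (d + (l + 1) : ℕ))) -
              (θ - (d + l : ℕ)) * (f i * bc θ (d + l) * (x + a i) ^ (θ - (d + l : ℕ))) =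
              f i * (θ * (a j - a i)) * bc (θ - 1) (d + l) * (x + a i) ^ (θ - 1 - (d + l : ℕ)) := by
            intro i
            have hxi : 0 < x + a i := by linarith [ha i]
            have e1 : d + (l + 1) = (d + l) + 1 := by ring
            have e4 : (θ - (d + l : ℕ)) * bc θ (d + l) = (((d + l : ℕ) : ℝ) + 1) * bc θ (d + l + 1) := by
              rw [bc_succ]
              have h3 : (((d + l : ℕ) : ℝ) + 1) ≠ 0 := by positivity
              field_simp
            have e5 := bc_shift θ (d + l)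
            have e2 : (x + a i) ^ (θ - (((d + l) + 1 : ℕ) : ℝ)) = (x + a i) ^ (θ - 1 - (d + l : ℕ)) := by
              congr 1
              push_cast
              ring
            have e3 : (x + a i) ^ (θ - (d + l : ℕ)) = (x + a i) ^ (θ - 1 - (d + l : ℕ)) * (x + a i) := by
              rw [← Real.rpow_add_one hxi.ne']
              congr 1
              ring
            rw [e1, e2, e3]
            calc (((d + l : ℕ) : ℝ) + 1) * (x + a j) * (f i * bc θ (d + l + 1) * (x + a i) ^ (θ - 1 - (d + l : ℕ))) -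
                (θ - (d + l : ℕ)) * (f i * bc θ (d + l) * ((x + a i) ^ (θ - 1 - (d + l : ℕ)) * (x + a i))) =
                f i * (x + a i) ^ (θ - 1 - (d + l : ℕ)) * ((x + a j) * ((((d + l : ℕ) : ℝ) + 1) * bc θ (d + l + 1)) -
                (x + a i) * ((θ - (d + l : ℕ)) * bc θ (d + l))) := by ring
              _ = f i * (x + a i) ^ (θ - 1 - (d + l : ℕ)) * ((a j - a i) * ((((d + l : ℕ) : ℝ) + 1) * bc θ (d + l + 1))) := by
                  rw [e4]; ring
              _ = _ := by rw [e5]; ring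
          rw [hterm j, sub_self, mul_zero, mul_zero, zero_mul, zero_mul, zero_add]
          exact sum_congr rfl fun i _ => (hterm i).symm
        rw [e]
        have h3 := h (l + 1) (by omega)
        have h4 := h l (by omega)
        have h5 := hA 0 (by omega) l (by omega)
        rw [Nat.cast_zero, sub_zero] at h5
        have hxl : 0 < x ^ l := pow_pos hx _
        have hxj : 0 ≤ x + a j := by linarith [ha j]
        calc _ ≤ |(((d + l : ℕ) : ℝ) + 1) * (x + a j) * (∑ i ∈ s, f i * bc θ (d + (l + 1)) * (x + a i) ^ (θ - (d + (l + 1) : ℕ)))| +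
            |(θ - (d + l : ℕ)) * (∑ i ∈ s, f i * bc θ (d + l) * (x + a i) ^ (θ - (d + l : ℕ)))| := abs_sub _ _
          _ ≤ (((d + l : ℕ) : ℝ) + 1) * (2 * x) * (B / x ^ (l + 1)) + |θ - (d + l : ℕ)| * (B / x ^ l) := by
              apply add_le_add
              · rw [abs_mul, abs_of_nonneg (by positivity : 0 ≤ (((d + l : ℕ) : ℝ) + 1) * (x + a j))]
                apply mul_le_mul _ h3 (abs_nonneg _) (by positivity)
                apply mul_le_mul_of_nonneg_left _ (by positivity)
                linarith [hax j]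
              · rw [abs_mul]
                exact mul_le_mul_of_nonneg_left h4 (abs_nonneg _)
          _ = (2 * (((d + l : ℕ) : ℝ) + 1) + |θ - (d + l : ℕ)|) * (B / x ^ l) := by
              rw [pow_succ]
              field_simp
          _ ≤ A * (B / x ^ l) := mul_le_mul_of_nonneg_right h5 (by positivity)
          _ = A * B / x ^ l := by ring) t (mem_erase.2 ⟨Ne.symm hjt, ht⟩)
    have e3 : ∏ i ∈ s.erase t, |a t - a i| = |a t - a j| * ∏ i ∈ (s.erase j).erase t, |a t - a i| := by
      rw [erase_right_comm]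
      exact (Finset.mul_prod_erase (s.erase t) (fun i => |a t - a i|) hj).symm
    have e6 : ∏ q ∈ range (n + 1), |θ - (q : ℝ)| = |θ| * ∏ q ∈ range n, |θ - 1 - (q : ℝ)| := by
      rw [prod_range_succ', mul_comm]
      congr 1
      · simp
      · refine prod_congr rfl fun q _ => ?_
        congr 1
        push_cast
        ring
    rw [e3, e6]
    have e7 : θ - ((n + 1 : ℕ) : ℝ) = θ - 1 - n := by push_cast; ring
    rw [e7]
    calc |f t| * (|a t - a j| * ∏ i ∈ (s.erase j).erase t, |a t - a i|) *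
        (|θ| * ∏ q ∈ range n, |θ - 1 - (q : ℝ)|) * |bc (θ - 1 - n) d| * (x + a t) ^ (θ - 1 - n - d) =
        |f t * (θ * (a j - a t))| * (∏ i ∈ (s.erase j).erase t, |a t - a i|) *
        (∏ q ∈ range n, |θ - 1 - (q : ℝ)|) * |bc (θ - 1 - n) d| * (x + a t) ^ (θ - 1 - n - d) := by
          rw [abs_mul, abs_mul, abs_sub_comm (a j) (a t)]; ring
      _ ≤ A ^ n * (A * B) := h2
      _ = A ^ (n + 1) * B := by ring

end Pool.Agent.X121.GS
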