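import Pool.Agent.X121.GS.Wj

set_option autoImplicit false

namespace Pool.Agent.X121.GS

open Finset Pool.Agent.Y957.VK Filter Pool.Agent.X121.AB Pool.Agent.X121.ZS
open Pool.Agent.Y93.VK (ee ee_add norm_ee)

theorem choose_prod (t j : ℕ) : ∏ i ∈ Finset.range j, (((t : ℝ) + 1 + i) / (i + 1)) = (t + j).choose j := by
  induction j with
  | zero => simp
  | succ j ih =>
    rw [Finset.prod_range_succ, ih]
    have h := Nat.add_one_mul_choose_eq (t + j) j
    have h2 : ((t + j + 1 : ℕ) : ℝ) * ((t + j).choose j : ℝ) =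
        ((t + j + 1).choose (j + 1) : ℝ) * ((j + 1 : ℕ) : ℝ) := by exact_mod_cast h
    rw [← Nat.add_assoc]
    push_cast at h2
    field_simp
    linarith

/-- binomial coefficients of arbitrary sign -/
theorem bc_ub {θ : ℝ} {t : ℕ} (h : |θ| ≤ t) (j : ℕ) : |bc θ j| ≤ 2 ^ (t + j) := by
  unfold bc
  rw [Finset.abs_prod]
  calc ∏ i ∈ Finset.range j, |(θ - i) / ((i : ℝ) + 1)| ≤
      ∏ i ∈ Finset.range j, (((t : ℝ) + 1 + i) / (i + 1)) := by
        refine Finset.prod_le_prod (fun _ _ => abs_nonneg _) fun i _ => ?_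
        have hi : (0 : ℝ) < (i : ℝ) + 1 := by positivity
        rw [abs_div, abs_of_pos hi]
        gcongr
        calc |θ - i| ≤ |θ| + |(i : ℝ)| := abs_sub _ _
          _ ≤ t + i := by rw [abs_of_nonneg (Nat.cast_nonneg i : (0 : ℝ) ≤ (i : ℝ))]; linarith
          _ ≤ t + 1 + i := by linarith
    _ = (t + j).choose j := choose_prod t j
    _ ≤ 2 ^ (t + j) := by exact_mod_cast Nat.choose_le_two_pow (t + j) j

/-- the binomial series with a remainder -/
theorem bin_series' (θ : ℝ) {C : ℝ} (hC : ∀ j, |bc θ j| ≤ C * 2 ^ j) (r : ℕ) {z : ℝ} (hz : |z| ≤ 1 / 4) :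
    |(1 + z) ^ θ - ∑ j ∈ Finset.range (r + 1), bc θ j * z ^ j| ≤ 2 * C * (2 * |z|) ^ (r + 1) := by
  have h1 : HasSum (fun j => bc θ j * z ^ j) ((1 + z) ^ θ) := by
    have h2 := (Real.one_add_rpow_hasFPowerSeriesOnBall_zero (a := θ)).hasSum (y := z) (by
      rw [Metric.mem_eball, edist_zero_right]
      rw [← ofReal_norm, Real.norm_eq_abs]
      rw [← ENNReal.ofReal_one]
      rw [ENNReal.ofReal_lt_ofReal_iff one_pos]
      linarith)
    rw [zero_add] at h2
    have e : (fun j => bc θ j * z ^ j) = fun j => (binomialSeries ℝ θ j) fun _ => z := by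
      funext j
      rw [binomialSeries_apply, choose_eq, smul_eq_mul, List.ofFn_const, List.prod_replicate]
    rw [e]
    exact h2
  have hC0 : 0 ≤ C := by
    have := (abs_nonneg _).trans (hC 0)
    rw [pow_zero, mul_one] at this
    exact this
  have h2 := h1.summable.sum_add_tsum_nat_add (r + 1)
  rw [h1.tsum_eq] at h2
  have h3 : (1 + z) ^ θ - ∑ j ∈ Finset.range (r + 1), bc θ j * z ^ j =
      ∑' i, bc θ (i + (r + 1)) * z ^ (i + (r + 1)) := by
    rw [← h2]; ring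
  rw [h3]
  obtain ⟨w, hw⟩ : ∃ w : ℝ, w = 2 * |z| := ⟨_, rfl⟩
  have hw0 : 0 ≤ w := by rw [hw]; positivity
  have hw1 : w ≤ 1 / 2 := by rw [hw]; linarith
  have h4 : HasSum (fun i : ℕ => C * w ^ (r + 1) * w ^ i) (C * w ^ (r + 1) * (1 - w)⁻¹) :=
    (hasSum_geometric_of_lt_one hw0 (by linarith)).mul_left _
  have h5 := tsum_of_norm_bounded h4 (f := fun i => bc θ (i + (r + 1)) * z ^ (i + (r + 1))) (by
    intro i
    rw [Real.norm_eq_abs, abs_mul, abs_pow]
    calc |bc θ (i + (r + 1))| * |z| ^ (i + (r + 1)) ≤ C * 2 ^ (i + (r + 1)) * |z| ^ (i + (r + 1)) := by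
          gcongr
          exact hC _
      _ = C * (w ^ i * w ^ (r + 1)) := by
          rw [mul_assoc, ← mul_pow, ← hw, pow_add]
      _ = _ := by ring)
  rw [Real.norm_eq_abs] at h5
  refine h5.trans ?_
  have h6 : (1 - w)⁻¹ ≤ 2 := by
    rw [inv_le_comm₀ (by linarith) (by norm_num)]
    linarith
  rw [← hw]
  calc C * w ^ (r + 1) * (1 - w)⁻¹ ≤ C * w ^ (r + 1) * 2 := by gcongr
    _ = _ := by ring

/-- the expansion of a power near `x` -/
theorem pow_loc {θ x p : ℝ} {t : ℕ} (h : |θ| ≤ t) (hx : 0 < x) (hp : 0 ≤ p) (hpx : 4 * p ≤ x) (r : ℕ) :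
    |(x + p) ^ θ - ∑ j ∈ Finset.range (r + 1), bc θ j * x ^ (θ - j) * p ^ j| ≤
      x ^ θ * (2 ^ (t + 1) * (2 * (p / x)) ^ (r + 1)) := by
  obtain ⟨z, hz⟩ : ∃ z : ℝ, z = p / x := ⟨_, rfl⟩
  have hz0 : 0 ≤ z := by rw [hz]; positivity
  have hz1 : |z| ≤ 1 / 4 := by
    rw [abs_of_nonneg hz0, hz, div_le_iff₀ hx]
    linarith
  have h1 := bin_series' θ (C := 2 ^ t) (fun j => by rw [← pow_add]; exact bc_ub h j) r hz1
  have e1 : (x + p) ^ θ = x ^ θ * (1 + z) ^ θ := by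
    rw [← Real.mul_rpow hx.le (by linarith)]
    congr 1
    rw [hz]
    field_simp
  have e2 : (x + p) ^ θ - ∑ j ∈ Finset.range (r + 1), bc θ j * x ^ (θ - j) * p ^ j =
      x ^ θ * ((1 + z) ^ θ - ∑ j ∈ Finset.range (r + 1), bc θ j * z ^ j) := by
    rw [e1, mul_sub, Finset.mul_sum]
    congr 1
    refine Finset.sum_congr rfl fun j _ => ?_
    rw [Real.rpow_sub hx, Real.rpow_natCast, hz, div_pow]
    ring
  rw [e2, abs_mul, abs_of_nonneg (by positivity : (0 : ℝ) ≤ x ^ θ), ← hz]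
  have hxp : 0 ≤ x ^ θ := by positivity
  apply mul_le_mul_of_nonneg_left _ hxp
  rw [abs_of_nonneg hz0] at h1
  calc _ ≤ 2 * 2 ^ t * (2 * z) ^ (r + 1) := h1
    _ = _ := by rw [pow_succ 2 t]; ring

/-- **exponential sums** of sums of powers -/
theorem psum {η : ℝ} (hη : 0 < η) (hη1 : η ≤ 1) :
    ∀ᶠ y : ℝ in atTop, ∀ N : ℕ, (N : ℝ) = Real.exp (y ^ 70) → ∀ H : ℕ,
      Real.exp (η * y ^ 70) ≤ H → H ≤ N → ∀ (ι : Type) [Fintype ι] (f θ a : ι → ℝ) (t : ℕ) (κ κ' : ℝ),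
      (∀ i, |θ i| ≤ t) → (t : ℝ) ≤ y ^ 10 → (∀ i, 0 ≤ a i) → 0 ≤ κ' → κ' ≤ κ → κ ≤ 2 * y ^ 9 →
      (∀ n : ℕ, N ≤ n → n ≤ 2 * N → ∑ i, |f i| * (n + a i) ^ (θ i) ≤ Real.exp (y ^ 15 + κ * y ^ 70)) →
      (∀ n : ℕ, N ≤ n → n ≤ 2 * N → ∃ d : ℕ, 1 ≤ d ∧
        κ + 1 / 10 ≤ d * (1 - η / 4) ∧ d * (1 - 2 * (η / 4)) ≤ κ' - 1 / 10 ∧
        Real.exp (-(y ^ 20) + κ' * y ^ 70 - d * y ^ 70) ≤
          |∑ i, f i * bc (θ i) d * (n + a i) ^ (θ i - d)|) →
      ‖∑ b ∈ Finset.Icc 1 H, ee (∑ i, f i * ((N + b : ℕ) + a i) ^ (θ i))‖ ≤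
        H * Real.exp (-(y ^ 20)) := by
  filter_upwards [gsum hη hη1, eventually_ge_atTop (100 : ℝ)] with y hG hy100
  intro N hN H hH1 hH2 ι _ f θ a t κ κ' hθ hty ha hκ0 hκκ hκy hup hlow
  have hy0 : (0 : ℝ) < y := by linarith
  have hy1 : (1 : ℝ) ≤ y := by linarith
  have yp : ∀ a b : ℕ, a ≤ b → y ^ a ≤ y ^ b := fun a b hab => pow_le_pow_right₀ hy1 hab
  have hy1' : ∀ a : ℕ, 1 ≤ y ^ a := fun a => one_le_pow₀ hy1
  have hstep : ∀ a : ℕ, 100 * y ^ a ≤ y ^ (a + 1) := fun a => by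
    rw [pow_succ, mul_comm]; gcongr
  have hN0 : (0 : ℝ) < N := by rw [hN]; exact Real.exp_pos _
  obtain ⟨r, hr⟩ : ∃ r : ℕ, r = ⌈2 * κ⌉₊ + 4 := ⟨_, rfl⟩
  have hκ0' : 0 ≤ κ := by linarith
  have hrge : 2 * κ + 4 ≤ r := by
    have := Nat.le_ceil (2 * κ)
    rw [hr]; push_cast; linarith
  have hrle' : (r : ℝ) ≤ 2 * κ + 5 := by
    have h1 := Nat.ceil_lt_add_one (a := 2 * κ) (by linarith)
    rw [hr]; push_cast; linarith
  have hrle : (r : ℝ) ≤ y ^ 10 := by
    have h3 := hy1' 9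
    have h4 := hstep 9
    norm_num at h4
    linarith
  have hr2 : 2 ≤ r := by omega
  refine hG N hN H hH1 hH2 (fun n => ∑ i, f i * ((n : ℕ) + a i) ^ (θ i)) κ κ' r hr2 hrle ?_
  intro n hn1 hn2
  obtain ⟨d, hd1, hk1, hk2, hd⟩ := hlow n hn1 hn2
  have hnR : (N : ℝ) ≤ n := by exact_mod_cast hn1
  have hn0 : (0 : ℝ) < n := lt_of_lt_of_le hN0 hnR
  have hx0 : ∀ i, (0 : ℝ) < (n : ℝ) + a i := fun i => by have := ha i; linarith
  have hdκ : (d : ℝ) ≤ 2 * κ := by
    have h1 : (d : ℝ) * (1 / 2) ≤ d * (1 - 2 * (η / 4)) := by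
      apply mul_le_mul_of_nonneg_left _ (Nat.cast_nonneg _)
      linarith
    linarith
  have hdr : d ≤ r := by
    have : (d : ℝ) ≤ r := by linarith
    exact_mod_cast this
  have hdy : (d : ℝ) ≤ y ^ 10 := by
    have : (d : ℝ) ≤ r := by exact_mod_cast hdr
    linarith
  have h2d : ∀ j : ℕ, (j : ℝ) ≤ 2 * y ^ 10 → (2 : ℝ) ^ j ≤ Real.exp (2 * y ^ 10) := by
    intro j hj
    calc (2 : ℝ) ^ j ≤ (Real.exp 1) ^ j := by
          apply pow_le_pow_left₀ (by norm_num)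
          have := Real.add_one_le_exp (1 : ℝ)
          linarith
      _ = Real.exp (j : ℝ) := Real.exp_one_pow j
      _ ≤ _ := Real.exp_le_exp.2 hj
  refine ⟨∑ i, f i * (n + a i) ^ (θ i), fun j => ∑ i, f i * bc (θ i) j * (n + a i) ^ (θ i - j), d,
    hd1, hdr, hk1, hk2, ?_, hd, ?_⟩
  · -- upper bound
    refine (Finset.abs_sum_le_sum_abs _ _).trans ?_
    have hterm : ∀ i ∈ (Finset.univ : Finset ι), |f i * bc (θ i) d * (n + a i) ^ (θ i - d)| ≤
        Real.exp (2 * y ^ 10) * Real.exp (-(d * y ^ 70)) * (|f i| * (n + a i) ^ (θ i)) := by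
      intro i _
      rw [abs_mul, abs_mul, abs_of_pos (Real.rpow_pos_of_pos (hx0 i) _), Real.rpow_sub (hx0 i),
        Real.rpow_natCast]
      have h1 : |bc (θ i) d| ≤ Real.exp (2 * y ^ 10) := by
        refine (bc_ub (hθ i) d).trans (h2d _ ?_)
        push_cast
        linarith
      have h2 : (n + a i) ^ (θ i) / (n + a i) ^ d ≤ Real.exp (-(d * y ^ 70)) * (n + a i) ^ (θ i) := by
        have h3 : Real.exp (d * y ^ 70) ≤ (n + a i) ^ d := by
          rw [Real.exp_nat_mul, ← hN]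
          apply pow_le_pow_left₀ hN0.le
          have := ha i
          linarith
        rw [Real.exp_neg, div_eq_mul_inv, mul_comm]
        have h4 : ((n + a i) ^ d)⁻¹ ≤ (Real.exp (d * y ^ 70))⁻¹ :=
          inv_anti₀ (Real.exp_pos _) h3
        have h5 : 0 ≤ (n + a i) ^ (θ i) := (Real.rpow_pos_of_pos (hx0 i) _).le
        gcongr
      have h5 : 0 ≤ (n + a i) ^ (θ i) / (n + a i) ^ d := by
        have := hx0 i
        positivity
      calc |f i| * |bc (θ i) d| * ((n + a i) ^ (θ i) / (n + a i) ^ d) ≤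
          |f i| * Real.exp (2 * y ^ 10) * (Real.exp (-(d * y ^ 70)) * (n + a i) ^ (θ i)) := by
            gcongr
        _ = _ := by ring
    refine (Finset.sum_le_sum hterm).trans ?_
    rw [← Finset.mul_sum]
    calc _ ≤ Real.exp (2 * y ^ 10) * Real.exp (-(d * y ^ 70)) * Real.exp (y ^ 15 + κ * y ^ 70) := by
          gcongr
          exact hup n hn1 hn2
      _ = Real.exp (2 * y ^ 10 + -(d * y ^ 70) + (y ^ 15 + κ * y ^ 70)) := by
          rw [← Real.exp_add, ← Real.exp_add]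
      _ ≤ _ := by
          apply Real.exp_le_exp.2
          have h1 := hstep 15
          have h2 := yp 16 20 (by norm_num)
          have h3 := yp 10 15 (by norm_num)
          norm_num at h1
          have h4 := hy1' 15
          linarith
  · -- the remainder
    intro p hp
    have hp0 : (0 : ℝ) ≤ p := Nat.cast_nonneg p
    have hpe : (p : ℝ) ≤ Real.exp (y ^ 70 / 2) := by
      refine hp.trans (Real.exp_le_exp.2 ?_)
      have := hy1' 70
      nlinarith
    have hpN : (p : ℝ) ≤ Real.exp (-(y ^ 70 / 2)) * N := by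
      rw [hN, ← Real.exp_add]
      refine hpe.trans (Real.exp_le_exp.2 (by linarith))
    have h70 : y ^ 11 ≤ y ^ 70 / 100 := by
      have h1 := hstep 11
      have h2 := yp 12 70 (by norm_num)
      norm_num at h1
      linarith
    have hexp8 : Real.exp (-(y ^ 70 / 2)) ≤ 1 / 4 := by
      rw [Real.exp_neg, ← one_div]
      apply one_div_le_one_div_of_le (by norm_num)
      have h1 := Real.add_one_le_exp (y ^ 70 / 2)
      have h2 := hstep 69
      have h3 := hy1' 69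
      norm_num at h2
      linarith
    have h4p : ∀ i, 4 * (p : ℝ) ≤ n + a i := by
      intro i
      have h1 : (p : ℝ) ≤ 1 / 4 * N := hpN.trans (by gcongr)
      have := ha i
      linarith
    have hrem : ∀ i, |((n : ℝ) + a i + p) ^ (θ i) - ∑ j ∈ Finset.range (r + 1),
        bc (θ i) j * (n + a i) ^ (θ i - j) * (p : ℝ) ^ j| ≤
        (n + a i) ^ (θ i) * (2 ^ (t + 1) * (2 * Real.exp (-(y ^ 70 / 2))) ^ (r + 1)) := by
      intro i
      refine (pow_loc (hθ i) (hx0 i) hp0 (h4p i) r).trans ?_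
      have h1 : (p : ℝ) / (n + a i) ≤ Real.exp (-(y ^ 70 / 2)) := by
        rw [div_le_iff₀ (hx0 i)]
        refine hpN.trans ?_
        have := ha i
        gcongr
        linarith
      have h5 : 0 ≤ (n + a i) ^ (θ i) := (Real.rpow_pos_of_pos (hx0 i) _).le
      have h6 : 0 ≤ (p : ℝ) / (n + a i) := div_nonneg hp0 (hx0 i).le
      gcongr
    have e1 : ∑ i, f i * (((n + p : ℕ) : ℝ) + a i) ^ (θ i) - (∑ i, f i * (n + a i) ^ (θ i) +
        ∑ j ∈ Finset.Icc 1 r, (∑ i, f i * bc (θ i) j * (n + a i) ^ (θ i - j)) * (p : ℝ) ^ j) =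
        ∑ i, f i * (((n : ℝ) + a i + p) ^ (θ i) - ∑ j ∈ Finset.range (r + 1),
          bc (θ i) j * (n + a i) ^ (θ i - j) * (p : ℝ) ^ j) := by
      have e2 : ∀ i, f i * (((n : ℝ) + a i + p) ^ (θ i) - ∑ j ∈ Finset.range (r + 1),
          bc (θ i) j * (n + a i) ^ (θ i - j) * (p : ℝ) ^ j) =
          f i * (((n + p : ℕ) : ℝ) + a i) ^ (θ i) - (f i * (n + a i) ^ (θ i) +
          ∑ j ∈ Finset.Icc 1 r, f i * bc (θ i) j * (n + a i) ^ (θ i - j) * (p : ℝ) ^ j) := by
        intro i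
        rw [sum_range_Icc, bc_zero, pow_zero, Nat.cast_zero, sub_zero, mul_one, one_mul, mul_sub,
          mul_add, Finset.mul_sum]
        have e3 : ((n + p : ℕ) : ℝ) + a i = (n : ℝ) + a i + p := by push_cast; ring
        rw [e3]
        congr 2
        exact Finset.sum_congr rfl fun j _ => by ring
      simp only [e2]
      rw [Finset.sum_sub_distrib, Finset.sum_add_distrib]
      congr 2
      rw [Finset.sum_comm]
      exact Finset.sum_congr rfl fun j _ => by rw [Finset.sum_mul]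
    show |∑ i, f i * (((n + p : ℕ) : ℝ) + a i) ^ (θ i) - (∑ i, f i * (n + a i) ^ (θ i) +
        ∑ j ∈ Finset.Icc 1 r, (∑ i, f i * bc (θ i) j * (n + a i) ^ (θ i - j)) * (p : ℝ) ^ j)| ≤ _
    rw [e1]
    refine (Finset.abs_sum_le_sum_abs _ _).trans ?_
    calc _ ≤ ∑ i, (2 ^ (t + 1) * (2 * Real.exp (-(y ^ 70 / 2))) ^ (r + 1)) *
          (|f i| * (n + a i) ^ (θ i)) := by
          refine Finset.sum_le_sum fun i _ => ?_
          rw [abs_mul]
          calc _ ≤ |f i| * ((n + a i) ^ (θ i) *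
                (2 ^ (t + 1) * (2 * Real.exp (-(y ^ 70 / 2))) ^ (r + 1))) :=
                mul_le_mul_of_nonneg_left (hrem i) (abs_nonneg _)
            _ = _ := by ring
      _ = (2 ^ (t + 1) * (2 * Real.exp (-(y ^ 70 / 2))) ^ (r + 1)) *
          ∑ i, (|f i| * (n + a i) ^ (θ i)) := by rw [Finset.mul_sum]
      _ ≤ (Real.exp (2 * y ^ 10) * (Real.exp (2 * y ^ 10) *
          Real.exp (-((2 * κ + 5) * (y ^ 70 / 2))))) * Real.exp (y ^ 15 + κ * y ^ 70) := by
          have hS0 : 0 ≤ ∑ i, |f i| * (n + a i) ^ (θ i) := Finset.sum_nonneg fun i _ =>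
            mul_nonneg (abs_nonneg _) (Real.rpow_pos_of_pos (hx0 i) _).le
          refine mul_le_mul (mul_le_mul ?_ ?_ (by positivity) (Real.exp_nonneg _))
            (hup n hn1 hn2) hS0 (by positivity)
          · refine h2d _ ?_
            push_cast
            have := hy1' 10
            linarith
          · rw [mul_pow]
            have h1 : (2 : ℝ) ^ (r + 1) ≤ Real.exp (2 * y ^ 10) := by
              refine h2d _ ?_
              push_cast
              have := hy1' 10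
              linarith
            have h2 : (Real.exp (-(y ^ 70 / 2))) ^ (r + 1) ≤ Real.exp (-((2 * κ + 5) * (y ^ 70 / 2))) := by
              rw [← Real.exp_nat_mul]
              apply Real.exp_le_exp.2
              push_cast
              have h3 : (0 : ℝ) ≤ y ^ 70 / 2 := by positivity
              nlinarith
            exact mul_le_mul h1 h2 (by positivity) (Real.exp_nonneg _)
      _ = Real.exp (2 * y ^ 10 + (2 * y ^ 10 + -((2 * κ + 5) * (y ^ 70 / 2))) + (y ^ 15 + κ * y ^ 70)) := by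
          rw [← Real.exp_add, ← Real.exp_add, ← Real.exp_add]
      _ ≤ _ := by
          apply Real.exp_le_exp.2
          have h1 := hstep 15
          have h2 := yp 16 70 (by norm_num)
          have h3 := yp 10 15 (by norm_num)
          norm_num at h1
          have h4 := hy1' 15
          nlinarith

/-- the choice of consecutive indices -/
theorem exists_indices {μ κ : ℝ} (hμ : 0 < μ) (hμ1 : μ ≤ 1 / 4) (C : ℝ) (hC : 0 ≤ C) (k : ℕ)
    (hκ : (C + k + 2) / μ ≤ κ) :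
    ∃ d : ℕ, 1 ≤ d ∧ ∀ l : ℕ, l ≤ k → κ + 1 / 10 ≤ ((d + l : ℕ) : ℝ) * (1 - μ) ∧
      ((d + l : ℕ) : ℝ) * (1 - 2 * μ) ≤ κ - C - 1 / 10 := by
  have hk0 : (0 : ℝ) ≤ k := Nat.cast_nonneg k
  have hμκ : C + k + 2 ≤ κ * μ := by
    rw [div_le_iff₀ hμ] at hκ
    exact hκ
  have hκ0 : 0 < κ := by
    have : 0 < (C + k + 2) / μ := by positivity
    linarith
  refine ⟨⌈(κ + 1 / 10) / (1 - μ)⌉₊, ?_, fun l hl => ⟨?_, ?_⟩⟩
  · rw [Nat.one_le_ceil_iff]
    apply div_pos <;> linarith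
  · have h1 := Nat.le_ceil ((κ + 1 / 10) / (1 - μ))
    rw [div_le_iff₀ (by linarith)] at h1
    refine h1.trans ?_
    push_cast
    have : (0 : ℝ) ≤ l := Nat.cast_nonneg l
    nlinarith
  · have h1 := Nat.ceil_lt_add_one (a := (κ + 1 / 10) / (1 - μ)) (by
      apply div_nonneg <;> linarith)
    have h2 : (κ + 1 / 10) / (1 - μ) * (1 - 2 * μ) ≤ (κ + 1 / 10) * (1 - μ) := by
      rw [div_mul_eq_mul_div, div_le_iff₀ (by linarith)]
      nlinarith
    have hl' : (l : ℝ) ≤ k := by exact_mod_cast hl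
    have h3 : ((⌈(κ + 1 / 10) / (1 - μ)⌉₊ + l : ℕ) : ℝ) * (1 - 2 * μ) ≤
        ((κ + 1 / 10) / (1 - μ) + 1 + k) * (1 - 2 * μ) := by
      apply mul_le_mul_of_nonneg_right _ (by linarith)
      push_cast
      linarith
    have h4 : (1 + (k : ℝ)) * (1 - 2 * μ) ≤ 1 + k := by nlinarith
    nlinarith

end Pool.Agent.X121.GS
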