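import Pool.Agent.X121.GS.Elim
import Pool.Agent.X121.GS.Prod

set_option autoImplicit false

/-! # Exponential sums over sums of powers -/

namespace Pool.Agent.X121.GS

open Finset Filter Pool.Agent.X121.ZS
open Pool.Agent.Y93.VK (ee ee_add norm_ee)

/-- a lower bound for the coefficients of all combinations of the powers `(x + a t) ^ θ t` -/
def LB {κ : Type} [Fintype κ] (a θ : κ → ℝ) (q : ℕ) (C : ℝ) : Prop :=
  ∀ᶠ y : ℝ in atTop, ∀ (x : ℝ) (d : ℕ) (f : κ → ℝ) (B : ℝ), Real.exp (y ^ 70) ≤ x →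
    (d : ℝ) ≤ 4 * y ^ 9 → 0 ≤ B →
    (∀ l ≤ q, |∑ t, f t * bc (θ t) (d + l) * (x + a t) ^ (θ t - (d + l : ℕ))| ≤ B / x ^ l) →
    ∀ t, |f t| * x ^ (θ t) ≤ Real.exp (y ^ 11) * x ^ (C + d) * B

theorem evt_pow_le (c : ℝ) (n : ℕ) {m : ℕ} (hm : 1 ≤ m) : ∀ᶠ y : ℝ in atTop, c * y ^ n ≤ Real.exp (y ^ m) := by
  have h1 := (tendsto_exp_mul_div_rpow_atTop n 1 one_pos).eventually_ge_atTop c
  filter_upwards [h1, eventually_ge_atTop 1] with y hy hy1
  have hy0 : (0 : ℝ) < y ^ (n : ℝ) := Real.rpow_pos_of_pos (by linarith) _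
  rw [le_div_iff₀ hy0, one_mul, Real.rpow_natCast] at hy
  refine hy.trans (Real.exp_le_exp.2 ?_)
  calc y = y ^ 1 := (pow_one y).symm
    _ ≤ y ^ m := pow_le_pow_right₀ hy1 hm

theorem bc_exp {θ : ℝ} (hθ : ∀ m : ℕ, θ ≠ m) : ∀ᶠ y : ℝ in atTop, ∀ d : ℕ, (d : ℝ) ≤ 4 * y ^ 9 →
    Real.exp (-(y ^ 10)) ≤ |bc θ d| := by
  obtain ⟨c, hc0, hc1, hc⟩ := bc_ge θ hθ
  have h1 := (tendsto_exp_mul_div_rpow_atTop 9 (1 / 8) (by norm_num)).eventually_ge_atTop 4
  filter_upwards [h1, eventually_ge_atTop 1, eventually_ge_atTop (8 * Real.log (1 / c))] with y hy hy1 hyc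
  intro d hd
  have hy0 : (0 : ℝ) < y := by linarith
  have hy9 : (0 : ℝ) < y ^ (9 : ℝ) := Real.rpow_pos_of_pos hy0 _
  rw [le_div_iff₀ hy9] at hy
  have e9 : y ^ (9 : ℝ) = y ^ (9 : ℕ) := by rw [← Real.rpow_natCast]; norm_num
  rw [e9] at hy
  refine le_trans ?_ (hc d)
  rw [le_div_iff₀ (by exact_mod_cast Nat.factorial_pos d)]
  have h2 : (d.factorial : ℝ) ≤ Real.exp (y ^ 10 / 2) := by
    calc (d.factorial : ℝ) ≤ (d : ℝ) ^ d := by exact_mod_cast Nat.factorial_le_pow d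
      _ ≤ (Real.exp (1 / 8 * y)) ^ d := pow_le_pow_left₀ (Nat.cast_nonneg _) (hd.trans hy) _
      _ = Real.exp (d * (1 / 8 * y)) := by rw [← Real.exp_nat_mul]
      _ ≤ Real.exp (y ^ 10 / 2) := by
          apply Real.exp_le_exp.2
          calc (d : ℝ) * (1 / 8 * y) ≤ 4 * y ^ 9 * (1 / 8 * y) := by gcongr
            _ = y ^ 10 / 2 := by ring
  have h3 : Real.exp (-(y ^ 10) / 2) ≤ c ^ d := by
    have e1 : c ^ d = Real.exp (-(d * Real.log (1 / c))) := by
      rw [one_div, Real.log_inv, mul_neg, neg_neg, ← Real.log_pow, Real.exp_log (by positivity)]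
    rw [e1]
    apply Real.exp_le_exp.2
    have h4 : 0 ≤ Real.log (1 / c) := Real.log_nonneg (by rw [le_div_iff₀ hc0]; linarith)
    have h5 : (d : ℝ) * Real.log (1 / c) ≤ 4 * y ^ 9 * (y / 8) := by
      apply mul_le_mul hd (by linarith) h4 (by positivity)
    have h6 : 4 * y ^ 9 * (y / 8) = y ^ 10 / 2 := by ring
    linarith
  calc Real.exp (-(y ^ 10)) * d.factorial ≤ Real.exp (-(y ^ 10)) * Real.exp (y ^ 10 / 2) :=
        mul_le_mul_of_nonneg_left h2 (Real.exp_pos _).le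
    _ = Real.exp (-(y ^ 10) / 2) := by rw [← Real.exp_add]; congr 1; ring
    _ ≤ c ^ d := h3

/-- powers with different exponents -/
theorem LB_A {κ : Type} [Fintype κ] [Nonempty κ] (θ : κ → ℝ) (hθ : ∀ t, ∀ m : ℕ, θ t ≠ m)
    (hinj : Function.Injective θ) : LB (fun _ => 0) θ (Fintype.card κ - 1) 0 := by
  classical
  obtain ⟨n, hn⟩ : ∃ n, Fintype.card κ = n + 1 := ⟨Fintype.card κ - 1, by have := Fintype.card_pos (α := κ); omega⟩
  have en : Fintype.card κ - 1 = n := by omega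
  obtain ⟨T, hT⟩ : ∃ T : ℝ, ∀ t, |θ t| ≤ T :=
    ⟨∑ t, |θ t|, fun t => single_le_sum (f := fun t => |θ t|) (fun _ _ => abs_nonneg _) (mem_univ t)⟩
  have hP : ∀ t, 0 < ∏ i ∈ univ.erase t, |θ t - θ i| := by
    intro t
    refine prod_pos fun i hi => abs_pos.2 (sub_ne_zero.2 fun h => ne_of_mem_erase hi (hinj h).symm)
  unfold LB
  rw [en]
  have e1 : ∀ᶠ y : ℝ in atTop, ∀ t, ∀ d : ℕ, (d : ℝ) ≤ 4 * y ^ 9 → Real.exp (-(y ^ 10)) ≤ |bc (θ t) d| :=
    eventually_all.2 fun t => bc_exp (hθ t)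
  have e2 : ∀ᶠ y : ℝ in atTop, ∀ t, (1 / ∏ i ∈ univ.erase t, |θ t - θ i|) * y ^ (10 * n) ≤ Real.exp (y ^ 1) :=
    eventually_all.2 fun t => evt_pow_le _ _ le_rfl
  filter_upwards [e1, e2, eventually_ge_atTop 100, eventually_ge_atTop (2 * n + 1 + T)] with y h1 h2 hy hyT
  intro x d f B hx hd hB h t
  have hx0 : 0 < x := lt_of_lt_of_le (Real.exp_pos _) hx
  have hy0 : (0 : ℝ) < y := by linarith
  have hy9 : (1 : ℝ) ≤ y ^ 9 := one_le_pow₀ (by linarith)
  have hy10 : (1 : ℝ) ≤ y ^ 10 := one_le_pow₀ (by linarith)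
  have h3 := elimA θ hx0 (A := y ^ 10) d n univ (by rw [card_univ, hn]) f B (by
    intro i _ l hl
    have hl' : (l : ℝ) ≤ n := by exact_mod_cast hl
    have h4 : |θ i - (d + l : ℕ)| ≤ |θ i| + (d + l : ℕ) := by
      refine (abs_sub _ _).trans ?_
      rw [Nat.abs_cast]
    have h5 := hT i
    push_cast at h4 ⊢
    have e10 : y ^ 10 = y ^ 9 * y := by ring
    rw [e10]
    have h6 : y ^ 9 * 100 ≤ y ^ 9 * y := by gcongr
    have h7 : (2 * (n : ℝ) + 1 + T) ≤ y ^ 9 := by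
      refine hyT.trans ?_
      calc y = y ^ 1 := (pow_one y).symm
        _ ≤ y ^ 9 := pow_le_pow_right₀ (by linarith) (by norm_num)
    linarith) hB (by
    intro l hl
    have h4 := h l hl
    simp only [add_zero] at h4
    exact h4) t (mem_univ t)
  have hb := h1 t d hd
  have hbpos : 0 < |bc (θ t) d| := lt_of_lt_of_le (Real.exp_pos _) hb
  have hPt := hP t
  have e3 : x ^ (θ t) = x ^ (θ t - d) * x ^ (d : ℝ) := by
    rw [← Real.rpow_add hx0]; congr 1; ring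
  rw [e3, zero_add]
  have h4 : |f t| * x ^ (θ t - d) ≤ Real.exp (y ^ 11) * B := by
    have h5 : |f t| * x ^ (θ t - d) * ((∏ i ∈ univ.erase t, |θ t - θ i|) * |bc (θ t) d|) ≤ (y ^ 10) ^ n * B := by
      refine le_trans (le_of_eq ?_) h3
      ring
    have h6 : (y ^ 10) ^ n ≤ Real.exp (y ^ 11) * ((∏ i ∈ univ.erase t, |θ t - θ i|) * |bc (θ t) d|) := by
      have h7 := h2 t
      rw [pow_one, one_div, inv_mul_le_iff₀ hPt, pow_mul] at h7
      calc (y ^ 10) ^ n ≤ (∏ i ∈ univ.erase t, |θ t - θ i|) * Real.exp y := h7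
        _ = (∏ i ∈ univ.erase t, |θ t - θ i|) * (Real.exp (y + y ^ 10) * Real.exp (-(y ^ 10))) := by
            rw [← Real.exp_add]; congr 2; ring
        _ ≤ (∏ i ∈ univ.erase t, |θ t - θ i|) * (Real.exp (y ^ 11) * |bc (θ t) d|) := by
            gcongr
            have e11 : y ^ 11 = y ^ 10 * y := by ring
            have e10 : y ^ 10 = y ^ 9 * y := by ring
            rw [e11]
            have h8 : y ^ 10 * 100 ≤ y ^ 10 * y := by gcongr
            have h9 : 1 * y ≤ y ^ 9 * y := by gcongr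
            rw [← e10] at h9
            linarith
        _ = _ := by ring
    have hpos : 0 < (∏ i ∈ univ.erase t, |θ t - θ i|) * |bc (θ t) d| := by positivity
    have h7 := h5.trans (mul_le_mul_of_nonneg_right h6 hB)
    have h8 : Real.exp (y ^ 11) * ((∏ i ∈ univ.erase t, |θ t - θ i|) * |bc (θ t) d|) * B =
        Real.exp (y ^ 11) * B * ((∏ i ∈ univ.erase t, |θ t - θ i|) * |bc (θ t) d|) := by ring
    rw [h8] at h7
    exact le_of_mul_le_mul_right h7 hpos
  calc |f t| * (x ^ (θ t - d) * x ^ (d : ℝ)) = (|f t| * x ^ (θ t - d)) * x ^ (d : ℝ) := by ring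
    _ ≤ (Real.exp (y ^ 11) * B) * x ^ (d : ℝ) := mul_le_mul_of_nonneg_right h4 (Real.rpow_nonneg hx0.le _)
    _ = _ := by ring

/-- powers of different shifts -/
theorem LB_B {κ : Type} [Fintype κ] [Nonempty κ] (a : κ → ℝ) (ha : ∀ t, 0 ≤ a t)
    (hinj : Function.Injective a) {θ : ℝ} (hθ0 : 0 < θ) (hθ : ∀ m : ℕ, θ ≠ m) :
    LB a (fun _ => θ) (Fintype.card κ - 1) (Fintype.card κ - 1 : ℕ) := by
  classical
  obtain ⟨n, hn⟩ : ∃ n, Fintype.card κ = n + 1 := ⟨Fintype.card κ - 1, by have := Fintype.card_pos (α := κ); omega⟩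
  have en : Fintype.card κ - 1 = n := by omega
  obtain ⟨T, hT⟩ : ∃ T : ℝ, ∀ t, a t ≤ T :=
    ⟨∑ t, a t, fun t => single_le_sum (f := fun t => a t) (fun i _ => ha i) (mem_univ t)⟩
  have hP : ∀ t, 0 < (∏ i ∈ univ.erase t, |a t - a i|) * (∏ q ∈ range n, |θ - (q : ℝ)|) := by
    intro t
    refine mul_pos (prod_pos fun i hi => abs_pos.2 (sub_ne_zero.2 fun h => ne_of_mem_erase hi (hinj h).symm)) ?_
    exact prod_pos fun q _ => abs_pos.2 (sub_ne_zero.2 (hθ q))
  have hθn : ∀ m : ℕ, θ - n ≠ m := by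
    intro m h
    apply hθ (m + n)
    push_cast
    linarith
  unfold LB
  rw [en]
  have e1 := bc_exp hθn
  have e2 : ∀ᶠ y : ℝ in atTop, ∀ t, (2 ^ n / ((∏ i ∈ univ.erase t, |a t - a i|) * (∏ q ∈ range n, |θ - (q : ℝ)|))) *
      y ^ (10 * n) ≤ Real.exp (y ^ 1) := eventually_all.2 fun t => evt_pow_le _ _ le_rfl
  filter_upwards [e1, e2, eventually_ge_atTop 100, eventually_ge_atTop (5 * n + 2 + |θ|), eventually_ge_atTop T]
    with y h1 h2 hy hyT hyT2
  intro x d f B hx hd hB h t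
  have hx0 : 0 < x := lt_of_lt_of_le (Real.exp_pos _) hx
  have hy0 : (0 : ℝ) < y := by linarith
  have hy9 : (1 : ℝ) ≤ y ^ 9 := one_le_pow₀ (by linarith)
  have hy10 : (1 : ℝ) ≤ y ^ 10 := one_le_pow₀ (by linarith)
  have hax : ∀ i, a i ≤ x := by
    intro i
    refine (hT i).trans (hyT2.trans (le_trans ?_ hx))
    calc y ≤ y ^ 70 := by
          calc y = y ^ 1 := (pow_one y).symm
            _ ≤ y ^ 70 := pow_le_pow_right₀ (by linarith) (by norm_num)
      _ ≤ Real.exp (y ^ 70) := by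
          have := Real.add_one_le_exp (y ^ 70)
          linarith
  have h3 := elimB a ha hx0 hax (A := y ^ 10) d n univ (by rw [card_univ, hn]) θ f B (by
    intro q hq l hl
    have hl' : (l : ℝ) ≤ n := by exact_mod_cast hl
    have hq' : (q : ℝ) ≤ n := by exact_mod_cast hq
    have h4 : |θ - q - (d + l : ℕ)| ≤ |θ| + q + (d + l : ℕ) := by
      refine (abs_sub _ _).trans ?_
      rw [Nat.abs_cast]
      have := abs_sub θ (q : ℝ)
      rw [Nat.abs_cast] at this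
      linarith
    push_cast at h4 ⊢
    have e10 : y ^ 10 = y ^ 9 * y := by ring
    rw [e10]
    have h6 : y ^ 9 * 100 ≤ y ^ 9 * y := by gcongr
    have h7 : (5 * (n : ℝ) + 2 + |θ|) ≤ y ^ 9 := by
      refine hyT.trans ?_
      calc y = y ^ 1 := (pow_one y).symm
        _ ≤ y ^ 9 := pow_le_pow_right₀ (by linarith) (by norm_num)
    linarith) hB h t (mem_univ t)
  have hb := h1 d hd
  have hbpos : 0 < |bc (θ - n) d| := lt_of_lt_of_le (Real.exp_pos _) hb
  have hPt := hP t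
  obtain ⟨P, hPe⟩ : ∃ P, P = (∏ i ∈ univ.erase t, |a t - a i|) * (∏ q ∈ range n, |θ - (q : ℝ)|) := ⟨_, rfl⟩
  have h2t := h2 t
  rw [← hPe] at hPt h2t
  have hxt : 0 < x + a t := by linarith [ha t]
  -- the power
  have h5 : x ^ θ / (2 * x) ^ (n + d) ≤ (x + a t) ^ (θ - n - d) := by
    have e3 : (x + a t) ^ (θ - n - d) = (x + a t) ^ θ / (x + a t) ^ (n + d) := by
      rw [← Real.rpow_natCast, ← Real.rpow_sub hxt]
      congr 1
      push_cast
      ring
    rw [e3]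
    apply div_le_div₀ (Real.rpow_nonneg hxt.le _) _ (by positivity)
    · exact pow_le_pow_left₀ hxt.le (by linarith [hax t]) _
    · exact Real.rpow_le_rpow hx0.le (by linarith [ha t]) hθ0.le
  have h6 : |f t| * P * |bc (θ - n) d| * (x ^ θ / (2 * x) ^ (n + d)) ≤ (y ^ 10) ^ n * B := by
    refine le_trans ?_ h3
    have e4 : |f t| * (∏ i ∈ univ.erase t, |a t - a i|) * (∏ q ∈ range n, |θ - (q : ℝ)|) * |bc (θ - n) d| *
        (x + a t) ^ (θ - n - d) = |f t| * P * |bc (θ - n) d| * (x + a t) ^ (θ - n - d) := by rw [hPe]; ring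
    rw [e4]
    exact mul_le_mul_of_nonneg_left h5 (by positivity)
  have h2x : (0 : ℝ) < (2 * x) ^ (n + d) := by positivity
  have h7 : |f t| * x ^ θ * (P * |bc (θ - n) d|) ≤ (y ^ 10) ^ n * B * (2 * x) ^ (n + d) := by
    have e5 : |f t| * P * |bc (θ - n) d| * (x ^ θ / (2 * x) ^ (n + d)) =
        |f t| * x ^ θ * (P * |bc (θ - n) d|) / (2 * x) ^ (n + d) := by ring
    rw [e5, div_le_iff₀ h2x] at h6
    exact h6
  have h8 : (y ^ 10) ^ n * 2 ^ (n + d) ≤ Real.exp (y ^ 11) * (P * |bc (θ - n) d|) := by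
    rw [pow_one, div_mul_eq_mul_div, div_le_iff₀ hPt, pow_mul] at h2t
    have h9 : (2 : ℝ) ^ d ≤ Real.exp (4 * y ^ 9) := by
      calc (2 : ℝ) ^ d ≤ (Real.exp 1) ^ d := by
            apply pow_le_pow_left₀ (by norm_num)
            have := Real.add_one_le_exp (1 : ℝ)
            linarith
        _ = Real.exp (d : ℝ) := Real.exp_one_pow d
        _ ≤ _ := Real.exp_le_exp.2 hd
    calc (y ^ 10) ^ n * 2 ^ (n + d) = (2 ^ n * (y ^ 10) ^ n) * 2 ^ d := by ring
      _ ≤ (Real.exp y * P) * Real.exp (4 * y ^ 9) := by gcongr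
      _ = (Real.exp (y + 4 * y ^ 9 + y ^ 10) * Real.exp (-(y ^ 10))) * P := by
          rw [← Real.exp_add]
          rw [mul_right_comm, ← Real.exp_add]
          congr 2
          ring
      _ ≤ (Real.exp (y ^ 11) * |bc (θ - n) d|) * P := by
          gcongr
          have e11 : y ^ 11 = y ^ 10 * y := by ring
          have e10 : y ^ 10 = y ^ 9 * y := by ring
          rw [e11]
          have h8 : y ^ 10 * 100 ≤ y ^ 10 * y := by gcongr
          have h9 : 1 * y ≤ y ^ 9 * y := by gcongr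
          have h10 : y ^ 9 * 1 ≤ y ^ 9 * y := by gcongr; linarith
          rw [← e10] at h9 h10
          linarith
      _ = _ := by ring
  have hpos : 0 < P * |bc (θ - n) d| := by positivity
  have e6 : x ^ (((n : ℕ) : ℝ) + d) = x ^ (n + d) := by
    rw [← Real.rpow_natCast]
    push_cast
    rfl
  rw [e6]
  apply le_of_mul_le_mul_right _ hpos
  refine h7.trans ?_
  calc (y ^ 10) ^ n * B * (2 * x) ^ (n + d) = ((y ^ 10) ^ n * 2 ^ (n + d)) * (x ^ (n + d) * B) := by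
        rw [mul_pow]; ring
    _ ≤ (Real.exp (y ^ 11) * (P * |bc (θ - n) d|)) * (x ^ (n + d) * B) :=
        mul_le_mul_of_nonneg_right h8 (by positivity)
    _ = _ := by ring

end Pool.Agent.X121.GS
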