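import Pool.Agent.X121.GS.Tup
import Pool.Agent.X121.ZS.Fin

set_option autoImplicit false

/-! # The joint law of the digits of several roots -/

namespace Pool.Agent.X121.GS

open Finset Filter Pool.Agent.X121.ZS
open Pool.Agent.Y93.VK (ee ee_add norm_ee)

theorem tup_sum {κ : Type} [Fintype κ] [Nonempty κ] {a θ : κ → ℝ} (ha : ∀ t, 0 ≤ a t) (hθ : ∀ t, 0 < θ t)
    {q : ℕ} {C : ℝ} (hC : 0 ≤ C) (hLB : LB a θ q C) {η : ℝ} (hη : 0 < η) (hη1 : η ≤ 1) :
    ∀ᶠ y : ℝ in atTop, ∀ N : ℕ, (N : ℝ) = Real.exp (y ^ 70) → ∀ H : ℕ,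
      Real.exp (η * y ^ 70) ≤ H → H ≤ N → ∀ f : κ → ℝ, (∀ t, |f t| ≤ Real.exp (y ^ 79)) →
      (∃ t, Real.exp ((C + q + 2) / (η / 4) * y ^ 70) ≤ |f t| * (N : ℝ) ^ θ t) →
      ‖∑ b ∈ Finset.Icc 1 H, ee (∑ t, f t * ((N + b : ℕ) + a t) ^ (θ t))‖ ≤ H * Real.exp (-(y ^ 20)) := by
  classical
  obtain ⟨T, hT⟩ : ∃ T : ℕ, ∀ t, |θ t| ≤ T := by
    refine ⟨⌈∑ t, |θ t|⌉₊, fun t => le_trans ?_ (Nat.le_ceil _)⟩
    exact single_le_sum (f := fun t => |θ t|) (fun _ _ => abs_nonneg _) (mem_univ t)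
  obtain ⟨A, hA⟩ : ∃ A : ℝ, ∀ t, a t ≤ A :=
    ⟨∑ t, a t, fun t => single_le_sum (f := fun t => a t) (fun i _ => ha i) (mem_univ t)⟩
  have e1 : ∀ᶠ y : ℝ in atTop, ((Fintype.card κ : ℝ) * 3 ^ T) * y ^ 0 ≤ Real.exp (y ^ 15) :=
    evt_pow_le _ 0 (by norm_num)
  filter_upwards [psum hη hη1, hLB, e1, eventually_ge_atTop 100, eventually_ge_atTop (T : ℝ),
    eventually_ge_atTop A, eventually_ge_atTop (C + q)] with y hps hlb h1 hy100 hyT hyA hyC
  intro N hN H hH1 hH2 f hf hex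
  have hy0 : (0 : ℝ) < y := by linarith
  have hy1 : (1 : ℝ) ≤ y := by linarith
  have yp : ∀ a b : ℕ, a ≤ b → y ^ a ≤ y ^ b := fun a b hab => pow_le_pow_right₀ hy1 hab
  have yle : ∀ a : ℕ, 1 ≤ a → y ≤ y ^ a := fun a ha => by
    calc y = y ^ 1 := (pow_one y).symm
      _ ≤ y ^ a := yp 1 a ha
  obtain ⟨ℓ, hℓ⟩ : ∃ ℓ : ℝ, ℓ = y ^ 70 := ⟨_, rfl⟩
  have hℓ0 : 0 < ℓ := by rw [hℓ]; positivity
  have hN0 : (0 : ℝ) < N := by rw [hN]; exact Real.exp_pos _
  have hN1 : (1 : ℝ) ≤ N := by rw [hN]; exact Real.one_le_exp (by positivity)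
  have hAN : A ≤ N := by
    rw [hN]
    have h2 := Real.add_one_le_exp (y ^ 70)
    have h3 := yle 70 (by norm_num)
    linarith
  -- the largest term
  obtain ⟨t0, -, ht0⟩ := exists_max_image univ (fun t => |f t| * (N : ℝ) ^ θ t) univ_nonempty
  obtain ⟨M, hM⟩ : ∃ M, M = |f t0| * (N : ℝ) ^ θ t0 := ⟨_, rfl⟩
  have hMt : ∀ t, |f t| * (N : ℝ) ^ θ t ≤ M := fun t => by rw [hM]; exact ht0 t (mem_univ t)
  obtain ⟨K0, hK0⟩ : ∃ K0 : ℝ, K0 = (C + q + 2) / (η / 4) := ⟨_, rfl⟩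
  have hMK : Real.exp (K0 * ℓ) ≤ M := by
    obtain ⟨t, ht⟩ := hex
    rw [← hℓ, ← hK0] at ht
    exact ht.trans (hMt t)
  have hM0 : 0 < M := lt_of_lt_of_le (Real.exp_pos _) hMK
  obtain ⟨k, hk⟩ : ∃ k : ℝ, k = Real.log M / ℓ := ⟨_, rfl⟩
  have hkℓ : k * ℓ = Real.log M := by rw [hk]; field_simp
  have hMe : M = Real.exp (k * ℓ) := by rw [hkℓ, Real.exp_log hM0]
  have hkK : K0 ≤ k := by
    rw [hk, le_div_iff₀ hℓ0, Real.le_log_iff_exp_le hM0]
    exact hMK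
  have hk2 : k ≤ 2 * y ^ 9 := by
    have h2 : M ≤ Real.exp ((y ^ 9 + T) * ℓ) := by
      rw [hM]
      have h3 : (N : ℝ) ^ θ t0 ≤ Real.exp (T * ℓ) := by
        calc (N : ℝ) ^ θ t0 ≤ (N : ℝ) ^ (T : ℝ) := Real.rpow_le_rpow_of_exponent_le hN1 ((le_abs_self _).trans (hT t0))
          _ = Real.exp (T * ℓ) := by rw [hN, ← Real.exp_mul, ← hℓ, mul_comm]
      calc |f t0| * (N : ℝ) ^ θ t0 ≤ Real.exp (y ^ 79) * Real.exp (T * ℓ) :=
            mul_le_mul (hf t0) h3 (Real.rpow_nonneg hN0.le _) (Real.exp_pos _).le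
        _ = Real.exp ((y ^ 9 + T) * ℓ) := by
            rw [← Real.exp_add, hℓ]; congr 1; ring
    rw [hMe, Real.exp_le_exp] at h2
    have h3 := le_of_mul_le_mul_right h2 hℓ0
    have h4 := yle 9 (by norm_num)
    linarith
  have hq0 : (0 : ℝ) ≤ q := Nat.cast_nonneg q
  have hK0C : C + q + 2 ≤ K0 := by
    rw [hK0, le_div_iff₀ (by positivity)]
    nlinarith
  obtain ⟨d, hd1, hd⟩ := exists_indices (μ := η / 4) (κ := k) (by positivity) (by linarith) C hC q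
    (by rw [← hK0]; exact hkK)
  have hdk : (d : ℝ) ≤ 2 * k := by
    have h2 := (hd 0 (Nat.zero_le _)).2
    rw [Nat.add_zero] at h2
    have h3 : (d : ℝ) * (1 / 2) ≤ d * (1 - 2 * (η / 4)) := by
      apply mul_le_mul_of_nonneg_left _ (Nat.cast_nonneg _)
      linarith
    linarith
  have hdy : (d : ℝ) ≤ 4 * y ^ 9 := by linarith
  have hTy : (T : ℝ) ≤ y ^ 10 := hyT.trans (yle 10 (by norm_num))
  have hmain := hps N hN H hH1 hH2 κ f θ a T k (k - C) hT hTy ha (by linarith) (by linarith) hk2 ?_ ?_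
  · exact hmain
  · intro n hn1 hn2
    have hn1' : (N : ℝ) ≤ n := by exact_mod_cast hn1
    have hn2' : (n : ℝ) ≤ 2 * N := by exact_mod_cast hn2
    calc ∑ i, |f i| * ((n : ℝ) + a i) ^ (θ i) ≤ ∑ _i : κ, M * 3 ^ T := by
          refine sum_le_sum fun i _ => ?_
          have h2 : ((n : ℝ) + a i) ^ (θ i) ≤ (N : ℝ) ^ θ i * 3 ^ T := by
            calc ((n : ℝ) + a i) ^ (θ i) ≤ (3 * (N : ℝ)) ^ (θ i) := by
                  apply Real.rpow_le_rpow _ _ (hθ i).le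
                  · linarith [ha i]
                  · linarith [hA i]
              _ = 3 ^ (θ i) * (N : ℝ) ^ θ i := Real.mul_rpow (by norm_num) hN0.le
              _ ≤ 3 ^ (T : ℝ) * (N : ℝ) ^ θ i := by
                  apply mul_le_mul_of_nonneg_right _ (Real.rpow_nonneg hN0.le _)
                  exact Real.rpow_le_rpow_of_exponent_le (by norm_num) ((le_abs_self _).trans (hT i))
              _ = (N : ℝ) ^ θ i * 3 ^ T := by rw [Real.rpow_natCast]; ring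
          calc |f i| * ((n : ℝ) + a i) ^ (θ i) ≤ |f i| * ((N : ℝ) ^ θ i * 3 ^ T) :=
                mul_le_mul_of_nonneg_left h2 (abs_nonneg _)
            _ = (|f i| * (N : ℝ) ^ θ i) * 3 ^ T := by ring
            _ ≤ M * 3 ^ T := mul_le_mul_of_nonneg_right (hMt i) (by positivity)
      _ = ((Fintype.card κ : ℝ) * 3 ^ T * y ^ 0) * M := by
          rw [sum_const, card_univ, nsmul_eq_mul]; ring
      _ ≤ Real.exp (y ^ 15) * Real.exp (k * ℓ) := by
          rw [← hMe]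
          exact mul_le_mul_of_nonneg_right h1 hM0.le
      _ = _ := by rw [← Real.exp_add, hℓ]
  · intro n hn1 hn2
    have hn1' : (N : ℝ) ≤ n := by exact_mod_cast hn1
    have hn2' : (n : ℝ) ≤ 2 * N := by exact_mod_cast hn2
    have hn0 : (0 : ℝ) < n := by linarith
    by_contra hcon
    push Not at hcon
    obtain ⟨B, hB⟩ : ∃ B : ℝ, B = 2 ^ q * Real.exp (-(y ^ 20) + (k - C) * ℓ - d * ℓ) := ⟨_, rfl⟩
    have hB0 : 0 ≤ B := by rw [hB]; positivity
    have h2 := hlb n d f B (by rw [← hN]; exact hn1') hdy hB0 (by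
      intro l hl
      obtain ⟨h3, h4⟩ := hd l hl
      have h5 := hcon (d + l) (by omega) h3 h4
      refine h5.le.trans ?_
      rw [hB, le_div_iff₀ (by positivity), ← hℓ]
      have h6 : (n : ℝ) ^ l ≤ 2 ^ q * Real.exp (l * ℓ) := by
        calc (n : ℝ) ^ l ≤ (2 * N) ^ l := pow_le_pow_left₀ hn0.le hn2' _
          _ = 2 ^ l * (N : ℝ) ^ l := mul_pow _ _ _
          _ ≤ 2 ^ q * (N : ℝ) ^ l := by
              apply mul_le_mul_of_nonneg_right _ (by positivity)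
              exact pow_le_pow_right₀ (by norm_num) hl
          _ = 2 ^ q * Real.exp (l * ℓ) := by rw [hN, ← Real.exp_nat_mul, hℓ]
      calc Real.exp (-(y ^ 20) + (k - C) * ℓ - ((d + l : ℕ) : ℝ) * ℓ) * (n : ℝ) ^ l ≤
          Real.exp (-(y ^ 20) + (k - C) * ℓ - ((d + l : ℕ) : ℝ) * ℓ) * (2 ^ q * Real.exp (l * ℓ)) :=
            mul_le_mul_of_nonneg_left h6 (Real.exp_pos _).le
        _ = 2 ^ q * (Real.exp (-(y ^ 20) + (k - C) * ℓ - ((d + l : ℕ) : ℝ) * ℓ) * Real.exp (l * ℓ)) := by ring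
        _ = 2 ^ q * Real.exp (-(y ^ 20) + (k - C) * ℓ - d * ℓ) := by
            rw [← Real.exp_add]
            congr 2
            push_cast
            ring) t0
    have h3 : Real.exp (k * ℓ) ≤ |f t0| * (n : ℝ) ^ θ t0 := by
      rw [← hMe, hM]
      apply mul_le_mul_of_nonneg_left _ (abs_nonneg _)
      exact Real.rpow_le_rpow hN0.le hn1' (hθ t0).le
    have h4 : (n : ℝ) ^ (C + d) ≤ Real.exp (C + d) * Real.exp ((C + d) * ℓ) := by
      have hCd : 0 ≤ C + d := by positivity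
      calc (n : ℝ) ^ (C + d) ≤ (2 * N) ^ (C + d) := Real.rpow_le_rpow hn0.le hn2' hCd
        _ = 2 ^ (C + d) * (N : ℝ) ^ (C + d) := Real.mul_rpow (by norm_num) hN0.le
        _ ≤ (Real.exp 1) ^ (C + d) * (N : ℝ) ^ (C + d) := by
            apply mul_le_mul_of_nonneg_right _ (Real.rpow_nonneg hN0.le _)
            apply Real.rpow_le_rpow (by norm_num) _ hCd
            have := Real.add_one_le_exp (1 : ℝ)
            linarith
        _ = Real.exp (C + d) * Real.exp ((C + d) * ℓ) := by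
            rw [hN, ← Real.exp_mul, ← Real.exp_mul, one_mul, ← hℓ, mul_comm ℓ]
    have h5 : (2 : ℝ) ^ q ≤ Real.exp q := by
      calc (2 : ℝ) ^ q ≤ (Real.exp 1) ^ q := by
            apply pow_le_pow_left₀ (by norm_num)
            have := Real.add_one_le_exp (1 : ℝ)
            linarith
        _ = Real.exp (q : ℝ) := Real.exp_one_pow q
    have h6 : Real.exp (k * ℓ) ≤ Real.exp (y ^ 11 + (C + d) + q - y ^ 20 + k * ℓ) := by
      refine h3.trans (h2.trans ?_)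
      calc Real.exp (y ^ 11) * (n : ℝ) ^ (C + d) * B ≤
          Real.exp (y ^ 11) * (Real.exp (C + d) * Real.exp ((C + d) * ℓ)) *
            (Real.exp q * Real.exp (-(y ^ 20) + (k - C) * ℓ - d * ℓ)) := by
            rw [hB]
            gcongr
        _ = _ := by
            rw [← Real.exp_add, ← Real.exp_add, ← Real.exp_add, ← Real.exp_add]
            congr 1
            ring
    rw [Real.exp_le_exp] at h6
    have h7 : y ^ 20 = y ^ 11 * y ^ 9 := by ring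
    have h8 : 0 < y ^ 11 := by positivity
    have h9 : (100 : ℝ) ≤ y ^ 9 := hy100.trans (yle 9 (by norm_num))
    have h10 : y ^ 9 ≤ y ^ 11 := yp 9 11 (by norm_num)
    have h11 : y ≤ y ^ 11 := yle 11 (by norm_num)
    nlinarith

end Pool.Agent.X121.GS
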