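import Pool.Agent.X121.GS.Tup2

set_option autoImplicit false

/-! # The joint law of the digits of several roots -/

namespace Pool.Agent.X121.GS

open Finset Filter Pool.Agent.X121.ZS
open Pool.Agent.Y93.VK (ee ee_add norm_ee)

/-- a measure of linear independence -/
def LI {ρ : Type} [Fintype ρ] (α : ρ → ℝ) (c₁ ν : ℝ) : Prop :=
  ∀ X : ρ → ℤ, X ≠ 0 → ∀ h : ℝ, 1 ≤ h → (∀ s, |(X s : ℝ)| ≤ h) → c₁ ≤ h ^ ν * |∑ s, (X s : ℝ) * α s|

theorem tup_law {κ ρ : Type} [Fintype κ] [Nonempty κ] [DecidableEq κ] [Fintype ρ] [DecidableEq ρ]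
    {a θ : κ → ℝ} (ha : ∀ t, 0 ≤ a t) (hθ : ∀ t, 0 < θ t)
    {q : ℕ} {C : ℝ} (hC : 0 ≤ C) (hLB : LB a θ q C) (α : ρ → ℝ) {c₁ ν : ℝ} (hc₁ : 0 < c₁) (hν : 0 ≤ ν)
    (hα : LI α c₁ ν) {η : ℝ} (hη : 0 < η) (hη1 : η ≤ 1) :
    ∀ᶠ y : ℝ in atTop, ∀ N : ℕ, (N : ℝ) = Real.exp (y ^ 70) → ∀ H : ℕ,
      Real.exp (η * y ^ 70) ≤ H → H ≤ N → ∀ (ω : κ → ℝ) (z : ρ × κ → ℝ), (∀ t, 1 ≤ |ω t|) →
      (∀ t, |ω t| ≤ Real.exp (y ^ 79 / 4)) →
      ∀ b : ℕ, 2 ≤ b → (b : ℝ) ≤ Real.exp (y ^ 9) → ∀ s R : ℕ,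
      (Fintype.card (ρ × κ) * R : ℝ) ≤ y ^ 9 → Real.exp ((C + q + 2) / (η / 4) * y ^ 70) ≤ (b : ℝ) ^ s →
      (b : ℝ) ^ (s + R) ≤ Real.exp (y ^ 79 / 2) → ∀ E : Finset (ρ × κ → Finset.Ico s (s + R) → Fin b),
      |(((Ioc N (N + H)).filter fun m : ℕ => ∃ w ∈ E, ∀ j, ∀ n : Finset.Ico s (s + R),
        ⌊(b : ℝ) * Int.fract ((b : ℝ) ^ (n : ℕ) *
          (α j.1 * (ω j.2 * ((m : ℝ) + a j.2) ^ θ j.2) + z j))⌋₊ = w j n).card : ℝ) / H -
      E.card / (b : ℝ) ^ (Fintype.card (ρ × κ) * R)| ≤ Real.exp (-(y ^ 9)) := by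
  classical
  obtain ⟨CA, hCA⟩ : ∃ CA, CA = ∑ s, |α s| := ⟨_, rfl⟩
  have hCA0 : 0 ≤ CA := by rw [hCA]; exact sum_nonneg fun _ _ => abs_nonneg _
  have e1 : ∀ᶠ y : ℝ in atTop, ∀ t, (ν + |Real.log c₁|) / θ t ≤ y :=
    eventually_all.2 fun t => eventually_ge_atTop _
  filter_upwards [multi_y, tup_sum ha hθ hC hLB hη hη1, e1, evt_pow_le CA 9 (m := 10) (by norm_num),
    eventually_ge_atTop 100] with y hmy hts h1 h2 hy100
  intro N hN H hH1 hH2 ω z hω1 hω2 b hb2 hb9 s R hR hbs hbsR E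
  have hy0 : (0 : ℝ) < y := by linarith
  have hy1 : (1 : ℝ) ≤ y := by linarith
  have yp : ∀ a b : ℕ, a ≤ b → y ^ a ≤ y ^ b := fun a b hab => pow_le_pow_right₀ hy1 hab
  have hy1' : ∀ a : ℕ, 1 ≤ y ^ a := fun a => one_le_pow₀ hy1
  have hstep : ∀ a : ℕ, 100 * y ^ a ≤ y ^ (a + 1) := fun a => by
    rw [pow_succ, mul_comm]; gcongr
  have hN0 : (0 : ℝ) < N := by rw [hN]; exact Real.exp_pos _
  have hb0 : (0 : ℝ) < b := by exact_mod_cast (by omega : 0 < b)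
  have hb1 : (1 : ℝ) ≤ b := by exact_mod_cast (by omega : 1 ≤ b)
  have hHpos : 0 < H := by
    have : (0 : ℝ) < H := lt_of_lt_of_le (Real.exp_pos _) hH1
    exact_mod_cast this
  have hcard : (Ioc N (N + H)).card = H := by rw [Nat.card_Ioc]; omega
  have hPl : (Finset.Ico s (s + R)).card = R := by rw [Nat.card_Ico]; omega
  have hS : (Ioc N (N + H)).Nonempty := by rw [← card_pos, hcard]; exact hHpos
  have hres := hmy (ρ × κ) (Ioc N (N + H)) (fun m j => α j.1 * (ω j.2 * ((m : ℝ) + a j.2) ^ θ j.2) + z j) b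
    (Finset.Ico s (s + R)) hS (by rw [hPl]; exact hR) (by omega) hb9 ?_ E
  · rw [hcard, hPl] at hres
    exact hres
  intro X hX hdiv hsize
  have hdiv' := hdiv s (fun n hn => (mem_Ico.1 hn).1)
  choose X' hX' using hdiv'
  have hsize' := hsize ((b : ℝ) ^ (s + R)) (fun n hn => pow_le_pow_right₀ hb1 (mem_Ico.1 hn).2.le)
  rw [hPl] at hsize'
  obtain ⟨j0, hj0⟩ : ∃ j, X j ≠ 0 := by
    by_contra hc
    push Not at hc
    exact hX (funext hc)
  have hc1 : 1 ≤ Fintype.card (ρ × κ) := Fintype.card_pos_iff.2 ⟨j0⟩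
  have hR9 : (R : ℝ) ≤ y ^ 9 := by
    refine le_trans ?_ hR
    have h3 : (1 : ℝ) ≤ Fintype.card (ρ × κ) := by exact_mod_cast hc1
    have h4 : (0 : ℝ) ≤ R := Nat.cast_nonneg R
    nlinarith
  have hbR : (b : ℝ) ^ R ≤ Real.exp (y ^ 18) := by
    calc (b : ℝ) ^ R ≤ (Real.exp (y ^ 9)) ^ R := pow_le_pow_left₀ hb0.le hb9 _
      _ = Real.exp (R * y ^ 9) := by rw [← Real.exp_nat_mul]
      _ ≤ Real.exp (y ^ 18) := by
          apply Real.exp_le_exp.2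
          calc (R : ℝ) * y ^ 9 ≤ y ^ 9 * y ^ 9 := by gcongr
            _ = y ^ 18 := by ring
  have hXabs : ∀ j, |(X j : ℝ)| = (b : ℝ) ^ s * |(X' j : ℝ)| := by
    intro j
    rw [hX' j]
    push_cast
    rw [abs_mul, abs_of_nonneg (by positivity : (0 : ℝ) ≤ (b : ℝ) ^ s)]
  have hyexp : y ^ 9 ≤ Real.exp (y ^ 9) := by
    have := Real.add_one_le_exp (y ^ 9)
    linarith
  have hX'19 : ∀ j, |(X' j : ℝ)| ≤ Real.exp (y ^ 19) := by
    intro j
    have h3 := hsize' j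
    have h3' : (b : ℝ) ^ s * |(X' j : ℝ)| ≤ (b : ℝ) ^ s * (R * (Real.exp (y ^ 10) * (b : ℝ) ^ R)) := by
      rw [← hXabs]
      refine le_trans (le_of_eq ?_) (h3.trans (le_of_eq ?_))
      · norm_cast
      · rw [pow_add]; ring
    have h4 := le_of_mul_le_mul_left h3' (by positivity)
    refine h4.trans ?_
    calc (R : ℝ) * (Real.exp (y ^ 10) * (b : ℝ) ^ R) ≤ Real.exp (y ^ 9) * (Real.exp (y ^ 10) * Real.exp (y ^ 18)) := by
          gcongr
          exact hR9.trans hyexp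
      _ = Real.exp (y ^ 9 + (y ^ 10 + y ^ 18)) := by rw [← Real.exp_add, ← Real.exp_add]
      _ ≤ Real.exp (y ^ 19) := by
          apply Real.exp_le_exp.2
          have h5 : 100 * y ^ 18 ≤ y ^ 19 := hstep 18
          have h6 := yp 9 18 (by norm_num)
          have h7 := yp 10 18 (by norm_num)
          have h8 := hy1' 18
          linarith
  -- the coefficients
  obtain ⟨f, hf⟩ : ∃ f : κ → ℝ, f = fun t => ω t * ∑ u, (X (u, t) : ℝ) * α u := ⟨_, rfl⟩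
  have hsum : ∀ m : ℕ, ∑ j, (X j : ℝ) * (α j.1 * (ω j.2 * ((m : ℝ) + a j.2) ^ θ j.2) + z j) =
      ∑ t, f t * ((m : ℝ) + a t) ^ (θ t) + ∑ j, (X j : ℝ) * z j := by
    intro m
    rw [hf]
    simp only [mul_add]
    rw [sum_add_distrib]
    congr 1
    rw [Fintype.sum_prod_type_right]
    refine sum_congr rfl fun t _ => ?_
    rw [mul_sum, sum_mul]
    refine sum_congr rfl fun u _ => ?_
    ring
  have hnorm : ‖∑ m ∈ Ioc N (N + H), ee (∑ j, (X j : ℝ) * (α j.1 * (ω j.2 * ((m : ℝ) + a j.2) ^ θ j.2) + z j))‖ =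
      ‖∑ m ∈ Ioc N (N + H), ee (∑ t, f t * ((m : ℝ) + a t) ^ (θ t))‖ := by
    have e2 : ∑ m ∈ Ioc N (N + H), ee (∑ j, (X j : ℝ) * (α j.1 * (ω j.2 * ((m : ℝ) + a j.2) ^ θ j.2) + z j)) =
        (∑ m ∈ Ioc N (N + H), ee (∑ t, f t * ((m : ℝ) + a t) ^ (θ t))) * ee (∑ j, (X j : ℝ) * z j) := by
      rw [sum_mul]
      refine sum_congr rfl fun m _ => ?_
      rw [hsum m, ee_add]
    rw [e2, norm_mul, norm_ee, mul_one]
  rw [hnorm, sum_reindex, hcard]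
  apply hts N hN H hH1 hH2 f
  · intro t
    rw [hf]
    simp only
    rw [abs_mul]
    have h3 : |∑ u, (X (u, t) : ℝ) * α u| ≤ (y ^ 9 * (Real.exp (y ^ 10) * Real.exp (y ^ 79 / 2))) * CA := by
      refine (abs_sum_le_sum_abs _ _).trans ?_
      rw [hCA, mul_sum]
      refine sum_le_sum fun u _ => ?_
      rw [abs_mul]
      apply mul_le_mul_of_nonneg_right _ (abs_nonneg _)
      refine (le_of_eq (by norm_cast)).trans ((hsize' (u, t)).trans ?_)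
      gcongr
    calc |ω t| * |∑ u, (X (u, t) : ℝ) * α u| ≤
        Real.exp (y ^ 79 / 4) * ((y ^ 9 * (Real.exp (y ^ 10) * Real.exp (y ^ 79 / 2))) * CA) :=
          mul_le_mul (hω2 t) h3 (abs_nonneg _) (Real.exp_pos _).le
      _ = (CA * y ^ 9) * (Real.exp (y ^ 79 / 4) * (Real.exp (y ^ 10) * Real.exp (y ^ 79 / 2))) := by ring
      _ ≤ Real.exp (y ^ 10) * (Real.exp (y ^ 79 / 4) * (Real.exp (y ^ 10) * Real.exp (y ^ 79 / 2))) := by
          gcongr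
      _ = Real.exp (y ^ 10 + (y ^ 79 / 4 + (y ^ 10 + y ^ 79 / 2))) := by
          rw [← Real.exp_add, ← Real.exp_add, ← Real.exp_add]
      _ ≤ Real.exp (y ^ 79) := by
          apply Real.exp_le_exp.2
          have h5 : 100 * y ^ 78 ≤ y ^ 79 := hstep 78
          have h6 := yp 10 78 (by norm_num)
          have h8 := hy1' 78
          linarith
  · refine ⟨j0.2, ?_⟩
    have hX0 : (fun u => X' (u, j0.2)) ≠ 0 := by
      intro h
      have h3 : X' (j0.1, j0.2) = 0 := congrFun h j0.1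
      apply hj0
      rw [hX' j0]
      have h4 : X' j0 = 0 := h3
      rw [h4, mul_zero]
    have h3 := hα _ hX0 (Real.exp (y ^ 19)) (Real.one_le_exp (by positivity)) (fun u => hX'19 _)
    have h4 : |∑ u, (X (u, j0.2) : ℝ) * α u| = (b : ℝ) ^ s * |∑ u, (X' (u, j0.2) : ℝ) * α u| := by
      have e3 : ∑ u, (X (u, j0.2) : ℝ) * α u = (b : ℝ) ^ s * ∑ u, (X' (u, j0.2) : ℝ) * α u := by
        rw [mul_sum]
        refine sum_congr rfl fun u _ => ?_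
        rw [hX' (u, j0.2)]
        push_cast
        ring
      rw [e3, abs_mul, abs_of_nonneg (by positivity : (0 : ℝ) ≤ (b : ℝ) ^ s)]
    rw [hf]
    simp only
    rw [abs_mul, h4]
    have h5 : Real.exp (-(θ j0.2 * y ^ 70)) ≤ |∑ u, (X' (u, j0.2) : ℝ) * α u| := by
      have h6 : c₁ ≤ Real.exp (ν * y ^ 19) * |∑ u, (X' (u, j0.2) : ℝ) * α u| := by
        refine h3.trans (le_of_eq ?_)
        rw [← Real.exp_mul, mul_comm (y ^ 19) ν]
      have h7 : Real.exp (-|Real.log c₁|) ≤ c₁ := by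
        calc Real.exp (-|Real.log c₁|) ≤ Real.exp (Real.log c₁) := Real.exp_le_exp.2 (neg_abs_le _)
          _ = c₁ := Real.exp_log hc₁
      have h8 : Real.exp (-|Real.log c₁|) * Real.exp (-(ν * y ^ 19)) ≤ |∑ u, (X' (u, j0.2) : ℝ) * α u| := by
        have h9 := h7.trans h6
        calc Real.exp (-|Real.log c₁|) * Real.exp (-(ν * y ^ 19)) ≤
            (Real.exp (ν * y ^ 19) * |∑ u, (X' (u, j0.2) : ℝ) * α u|) * Real.exp (-(ν * y ^ 19)) :=
              mul_le_mul_of_nonneg_right h9 (Real.exp_pos _).le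
          _ = |∑ u, (X' (u, j0.2) : ℝ) * α u| * (Real.exp (ν * y ^ 19) * Real.exp (-(ν * y ^ 19))) := by ring
          _ = |∑ u, (X' (u, j0.2) : ℝ) * α u| := by rw [← Real.exp_add, add_neg_cancel, Real.exp_zero, mul_one]
      refine le_trans ?_ h8
      rw [← Real.exp_add]
      apply Real.exp_le_exp.2
      have h10 := h1 j0.2
      rw [div_le_iff₀ (hθ _)] at h10
      have h11 : y * θ j0.2 * y ^ 69 = θ j0.2 * y ^ 70 := by ring
      have h12 : (ν + |Real.log c₁|) * y ^ 69 ≤ y * θ j0.2 * y ^ 69 := by gcongr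
      have h13 : ν * y ^ 19 ≤ ν * y ^ 69 := mul_le_mul_of_nonneg_left (yp 19 69 (by norm_num)) hν
      have h14 : |Real.log c₁| * 1 ≤ |Real.log c₁| * y ^ 69 := mul_le_mul_of_nonneg_left (hy1' 69) (abs_nonneg _)
      linarith
    have h6 : (N : ℝ) ^ θ j0.2 = Real.exp (θ j0.2 * y ^ 70) := by
      rw [hN, ← Real.exp_mul, mul_comm]
    calc Real.exp ((C + q + 2) / (η / 4) * y ^ 70) ≤ (b : ℝ) ^ s := hbs
      _ = 1 * ((b : ℝ) ^ s * Real.exp (-(θ j0.2 * y ^ 70))) * Real.exp (θ j0.2 * y ^ 70) := by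
          rw [one_mul, mul_assoc, ← Real.exp_add, neg_add_cancel, Real.exp_zero, mul_one]
      _ ≤ |ω j0.2| * ((b : ℝ) ^ s * |∑ u, (X' (u, j0.2) : ℝ) * α u|) * (N : ℝ) ^ θ j0.2 := by
          rw [h6]
          have := hω1 j0.2
          gcongr

end Pool.Agent.X121.GS
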