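import Pool.Agent.X121.ZS.Asm

set_option autoImplicit false

namespace Pool.Agent.X121.GS

open Finset Filter MeasureTheory Pool.Agent.X121.AB Pool.Agent.X121.TV Pool.Agent.X121.ZS
open Pool.Agent.Y93.VK (ee ee_add norm_ee ee_zero ee_neg ee_eq)

/-- the values of the `m_i`-adic digits of the numbers `x_i` -/
noncomputable def cv {ι : Type} (m : ι → ℕ) (x : ι → ℝ) : ι → ℕ :=
  fun i => ⌊(m i : ℝ) * Int.fract (x i)⌋₊

theorem cv_mem {ι : Type} [Fintype ι] [DecidableEq ι] {m : ι → ℕ} (hm : ∀ i, 1 ≤ m i) (x : ι → ℝ) :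
    cv m x ∈ bx m := by
  rw [bx, Fintype.mem_piFinset]
  intro i
  rw [Finset.mem_range]
  unfold cv
  have hm0 : (0 : ℝ) < m i := by exact_mod_cast hm i
  rw [Nat.floor_lt (by have := Int.fract_nonneg (x i); positivity)]
  have := Int.fract_lt_one (x i)
  nlinarith

theorem cv_iff {ι : Type} (m : ι → ℕ) (x : ι → ℝ) (A : ι → ℕ) :
    cv m x = A ↔ ∀ i, (A i : ℝ) ≤ m i * Int.fract (x i) ∧ m i * Int.fract (x i) < (A i : ℝ) + 1 := by
  rw [funext_iff]
  refine forall_congr' fun i => ?_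
  have h0 : 0 ≤ (m i : ℝ) * Int.fract (x i) := by
    have := Int.fract_nonneg (x i); positivity
  rw [← Nat.floor_eq_iff h0]
  rfl

section
variable {Ω : Type} [MeasurableSpace Ω] (P : Measure Ω) [IsProbabilityMeasure P]

theorem int_bdd {E : Type*} [NormedAddCommGroup E] [MeasurableSpace E] [BorelSpace E]
    [SecondCountableTopology E] {f : Ω → E} (hf : Measurable f) (C : ℝ) (h : ∀ ω, ‖f ω‖ ≤ C) :
    Integrable f P :=
  Integrable.of_bound hf.aestronglyMeasurable C (Eventually.of_forall h)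

variable {ι : Type} [Fintype ι] (V : Ω → ι → ℝ) (hV : ∀ i, Measurable fun ω => V ω i)

include hV in
theorem cvV_meas (m : ι → ℕ) (E : Set (ι → ℕ)) : MeasurableSet {ω | cv m (V ω) ∈ E} := by
  have h1 : Measurable fun ω => cv m (V ω) := by
    rw [measurable_pi_iff]
    intro i
    unfold cv
    exact Nat.measurable_floor.comp ((measurable_fract.comp (hV i)).const_mul _)
  exact h1 (Set.to_countable E).measurableSet

theorem G_expP [DecidableEq ι] (T : ℕ) (g : ι → ℝ → ℝ) (w : ι → ℤ → ℂ)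
    (hg : ∀ i t, ((g i t : ℝ) : ℂ) = ∑ h ∈ Finset.Icc (-(T : ℤ)) T, w i h * ee (h * t)) (x : ι → ℝ) :
    ((∏ i, g i (x i) : ℝ) : ℂ) = ∑ p ∈ Fintype.piFinset (fun _ : ι => Finset.Icc (-(T : ℤ)) T),
      (∏ i, w i (p i)) * ee (∑ i, p i * x i) := by
  simp only [Complex.ofReal_prod, hg, Finset.prod_univ_sum]
  refine Finset.sum_congr rfl fun p _ => ?_
  rw [Finset.prod_mul_distrib, ee_sum]

include hV in
theorem ee_int (h : ι → ℤ) : Integrable (fun ω => ee (∑ i, h i * V ω i)) P := by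
  refine int_bdd P ?_ 1 fun ω => (norm_ee _).le
  exact cont_ee.measurable.comp (Finset.measurable_sum _ fun i _ => (hV i).const_mul _)

include hV in
theorem G_diffP [DecidableEq ι] (S : Finset ℕ) (hS : S.Nonempty) (Y : ℕ → ι → ℝ) (T : ℕ)
    (g : ι → ℝ → ℝ) (w : ι → ℤ → ℂ)
    (hg : ∀ i t, ((g i t : ℝ) : ℂ) = ∑ h ∈ Finset.Icc (-(T : ℤ)) T, w i h * ee (h * t))
    {W ε : ℝ} (hW : 0 ≤ W) (hw : ∀ i h, ‖w i h‖ ≤ W)
    (hX : ∀ h : ι → ℤ, (∀ i, |h i| ≤ T) →
      ‖(∑ b ∈ S, ee (∑ i, h i * Y b i)) / (S.card : ℂ) - ∫ ω, ee (∑ i, h i * V ω i) ∂P‖ ≤ ε) :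
    |(∑ b ∈ S, ∏ i, g i (Y b i)) / S.card - ∫ ω, ∏ i, g i (V ω i) ∂P| ≤
      ((2 * T + 1) * W) ^ (Fintype.card ι) * ε := by
  have hS0 : (0 : ℝ) < S.card := by exact_mod_cast hS.card_pos
  have e1 : (((∑ b ∈ S, ∏ i, g i (Y b i)) / S.card - ∫ ω, ∏ i, g i (V ω i) ∂P : ℝ) : ℂ) =
      ∑ p ∈ Fintype.piFinset (fun _ : ι => Finset.Icc (-(T : ℤ)) T),
        (∏ i, w i (p i)) * ((∑ b ∈ S, ee (∑ i, p i * Y b i)) / (S.card : ℂ) -
          ∫ ω, ee (∑ i, p i * V ω i) ∂P) := by
    rw [Complex.ofReal_sub, Complex.ofReal_div, ← integral_complex_ofReal, Complex.ofReal_sum]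
    simp only [G_expP T g w hg]
    rw [integral_finsetSum _ (fun p _ => (ee_int P V hV p).const_mul _)]
    rw [Finset.sum_comm, Finset.sum_div, ← Finset.sum_sub_distrib]
    refine Finset.sum_congr rfl fun p _ => ?_
    rw [integral_const_mul, ← Finset.mul_sum]
    push_cast
    ring
  rw [← Real.norm_eq_abs, ← Complex.norm_real, e1]
  refine (norm_sum_le _ _).trans ?_
  have hcard : ((Fintype.piFinset (fun _ : ι => Finset.Icc (-(T : ℤ)) T)).card : ℝ) =
      (2 * T + 1) ^ (Fintype.card ι) := by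
    rw [Fintype.card_piFinset, Finset.prod_const, Finset.card_univ, Int.card_Icc]
    have : ((T : ℤ) + 1 - -(T : ℤ)).toNat = 2 * T + 1 := by omega
    rw [this]
    push_cast
    rfl
  calc _ ≤ ∑ p ∈ Fintype.piFinset (fun _ : ι => Finset.Icc (-(T : ℤ)) T), (W ^ (Fintype.card ι) * ε) := by
        refine Finset.sum_le_sum fun p hp => ?_
        rw [Fintype.mem_piFinset] at hp
        rw [norm_mul, norm_prod]
        apply mul_le_mul _ _ (norm_nonneg _) (by positivity)
        · calc ∏ i, ‖w i (p i)‖ ≤ ∏ i : ι, W :=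
              Finset.prod_le_prod (fun _ _ => norm_nonneg _) fun i _ => hw i _
            _ = _ := by rw [Finset.prod_const, Finset.card_univ]
        · refine hX p fun i => ?_
          have := Finset.mem_Icc.1 (hp i)
          rw [abs_le]
          exact this
    _ = _ := by
        rw [Finset.sum_const, nsmul_eq_mul, hcard, mul_pow]
        ring

open Classical in
theorem count_cellsP (S : Finset ℕ) (Y : ℕ → ι → ℝ) {m : ι → ℕ} (hm : ∀ i, 1 ≤ m i)
    (E : Set (ι → ℕ)) :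
    ((S.filter fun b => cv m (Y b) ∈ E).card : ℝ) =
      ∑ A ∈ (bx m).filter (· ∈ E), ((S.filter fun b => cv m (Y b) = A).card : ℝ) := by
  have h1 := Finset.card_eq_sum_card_fiberwise (s := S.filter fun b => cv m (Y b) ∈ E)
    (t := (bx m).filter (· ∈ E)) (f := fun b => cv m (Y b)) (by
      intro b hb
      have hb' := (Finset.mem_filter.1 (Finset.mem_coe.1 hb)).2
      exact Finset.mem_coe.2 (Finset.mem_filter.2 ⟨cv_mem hm _, hb'⟩))
  rw [h1]
  push_cast
  refine Finset.sum_congr rfl fun A hA => ?_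
  congr 2
  ext b
  simp only [Finset.mem_filter]
  constructor
  · rintro ⟨⟨h1, -⟩, h3⟩
    exact ⟨h1, h3⟩
  · rintro ⟨h1, h3⟩
    exact ⟨⟨h1, h3 ▸ (Finset.mem_filter.1 hA).2⟩, h3⟩

open Classical in
include hV in
theorem meas_cellsP {m : ι → ℕ} (hm : ∀ i, 1 ≤ m i) (E : Set (ι → ℕ)) :
    P.real {ω | cv m (V ω) ∈ E} = ∑ A ∈ (bx m).filter (· ∈ E), P.real {ω | cv m (V ω) = A} := by
  have e : {ω | cv m (V ω) ∈ E} = ⋃ A ∈ (bx m).filter (· ∈ E), {ω | cv m (V ω) = A} := by
    ext x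
    simp only [Set.mem_ofPred_eq, Set.mem_iUnion, Finset.mem_filter]
    constructor
    · intro h
      exact ⟨_, ⟨cv_mem hm _, h⟩, rfl⟩
    · rintro ⟨A, ⟨-, h2⟩, h3⟩
      exact h3 ▸ h2
  rw [e, measureReal_biUnion_finset]
  · intro A _ B _ hAB
    rw [Function.onFun, Set.disjoint_left]
    intro x hx hx'
    exact hAB ((show cv m (V x) = A from hx).symm.trans (show cv m (V x) = B from hx'))
  · intro A _
    exact cvV_meas V hV m {A}

open Classical in
include hV in
/-- **total variation** from the characteristic function -/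
theorem tvP (S : Finset ℕ) (hS : S.Nonempty) (Y : ℕ → ι → ℝ) (m : ι → ℕ) (hm : ∀ i, 1 ≤ m i)
    (T : ℕ) (hT : 1 ≤ T) {δ ε : ℝ} (hδ : 0 < δ) (hmδ : ∀ i, m i * δ ≤ 1)
    (hmT : ∀ i, m i / (δ * T) ≤ 1 / 2) (hε : 0 ≤ ε)
    (h1D : ∀ i, ∀ l : ℤ, l ≠ 0 → |l| ≤ T → ∫ ω, ee (l * V ω i) ∂P = 0)
    (hX : ∀ h : ι → ℤ, (∀ i, |h i| ≤ T) →
      ‖(∑ b ∈ S, ee (∑ i, h i * Y b i)) / (S.card : ℂ) - ∫ ω, ee (∑ i, h i * V ω i) ∂P‖ ≤ ε)
    (E : Set (ι → ℕ)) :
    |((S.filter fun b => cv m (Y b) ∈ E).card : ℝ) / S.card - P.real {ω | cv m (V ω) ∈ E}| ≤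
      5 ^ (Fintype.card ι) * ∑ i, m i * (δ + 1 / (δ * T)) +
        (∏ i, (m i : ℝ)) * (((2 * T + 1) * (4 / δ)) ^ (Fintype.card ι) * ε) := by
  have hS0 : (0 : ℝ) < S.card := by exact_mod_cast hS.card_pos
  have hT0 : (0 : ℝ) < T := by exact_mod_cast hT
  have hfam := fun i => maj_fam (m i) T (hm i) hT hδ (hmδ i) (hmT i)
  choose g w h1 h2 h3 h4 h5 h6 h7 using hfam
  have hB : ∀ A ∈ bx m, ∀ i, A i < m i := by
    intro A hA i
    rw [bx, Fintype.mem_piFinset] at hA
    exact Finset.mem_range.1 (hA i)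
  have hg5 : ∀ i, ∀ a < m i, ∀ t, g i a t ≤ 5 := by
    intro i a ha t
    refine le_trans ?_ (h7 i t)
    exact Finset.single_le_sum (f := fun a => g i a t) (fun b hb => h2 i b (Finset.mem_range.1 hb) t)
      (Finset.mem_range.2 ha)
  have hgm : ∀ i, ∀ a < m i, Measurable fun ω => g i a (V ω i) := fun i a ha =>
    (h6 i a ha).measurable.comp (hV i)
  have hmeas : ∀ A ∈ bx m, Measurable fun ω => ∏ i, g i (A i) (V ω i) := by
    intro A hA
    exact Finset.measurable_prod _ fun i _ => hgm i (A i) (hB A hA i)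
  have hnn : ∀ A ∈ bx m, ∀ x : ι → ℝ, 0 ≤ ∏ i, g i (A i) (x i) := by
    intro A hA x
    exact Finset.prod_nonneg fun i _ => h2 i (A i) (hB A hA i) _
  have hint : ∀ A ∈ bx m, Integrable (fun ω => ∏ i, g i (A i) (V ω i)) P := by
    intro A hA
    refine int_bdd P (hmeas A hA) (5 ^ (Fintype.card ι)) fun ω => ?_
    rw [Real.norm_eq_abs, abs_of_nonneg (hnn A hA _)]
    calc ∏ i, g i (A i) (V ω i) ≤ ∏ i : ι, (5 : ℝ) :=
          Finset.prod_le_prod (fun i _ => h2 i (A i) (hB A hA i) _) fun i _ => hg5 i (A i) (hB A hA i) _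
      _ = _ := by rw [Finset.prod_const, Finset.card_univ]
  have hind : ∀ A ∈ bx m, ∀ x : ι → ℝ, cv m x = A → 1 ≤ ∏ i, g i (A i) (x i) := by
    intro A hA x hx
    rw [cv_iff] at hx
    calc (1 : ℝ) = ∏ i : ι, (1 : ℝ) := by simp
      _ ≤ ∏ i, g i (A i) (x i) := by
          refine Finset.prod_le_prod (fun _ _ => by norm_num) fun i _ => ?_
          have hm0 : (0 : ℝ) < m i := by exact_mod_cast hm i
          refine h3 i (A i) (hB A hA i) _ ?_ ?_
          · rw [div_le_iff₀ hm0, mul_comm]; exact (hx i).1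
          · rw [lt_div_iff₀ hm0, mul_comm]; exact (hx i).2
  obtain ⟨r, hr⟩ : ∃ r : ℝ, r = ((2 * T + 1) * (4 / δ)) ^ (Fintype.card ι) * ε := ⟨_, rfl⟩
  have hr0 : 0 ≤ r := by rw [hr]; positivity
  -- the family of a cell
  have hp : ∀ A ∈ bx m, ((S.filter fun b => cv m (Y b) = A).card : ℝ) / S.card ≤
      (∫ ω, ∏ i, g i (A i) (V ω i) ∂P) + r := by
    intro A hA
    have hd := G_diffP P V hV S hS Y T (fun i => g i (A i)) (fun i => w i (A i))
      (fun i t => h1 i (A i) (hB A hA i) t) (W := 4 / δ) (by positivity)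
      (fun i h => h5 i (A i) (hB A hA i) h) hX
    have hc : ((S.filter fun b => cv m (Y b) = A).card : ℝ) ≤ ∑ b ∈ S, ∏ i, g i (A i) (Y b i) := by
      rw [Finset.card_filter]
      push_cast
      refine Finset.sum_le_sum fun b _ => ?_
      split_ifs with h
      · exact hind A hA _ h
      · exact hnn A hA _
    have hc' : ((S.filter fun b => cv m (Y b) = A).card : ℝ) / S.card ≤
        (∑ b ∈ S, ∏ i, g i (A i) (Y b i)) / S.card := by gcongr
    have := (abs_le.1 hd).2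
    rw [hr]
    linarith
  have hqq : ∀ A ∈ bx m, P.real {ω | cv m (V ω) = A} ≤ ∫ ω, ∏ i, g i (A i) (V ω i) ∂P := by
    intro A hA
    have hms : MeasurableSet {ω | cv m (V ω) = A} := cvV_meas V hV m {A}
    rw [← integral_indicator_one hms]
    apply integral_mono_of_nonneg
    · exact Eventually.of_forall fun x => Set.indicator_nonneg (fun _ _ => zero_le_one) x
    · exact hint A hA
    · refine Eventually.of_forall fun x => ?_
      by_cases hx : cv m (V x) = A
      · rw [Set.indicator_of_mem (by exact hx)]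
        exact hind A hA _ hx
      · rw [Set.indicator_of_notMem (by exact hx)]
        exact hnn A hA _
  -- the sum of the integrals
  have hgint : ∀ i, ∀ a < m i, Integrable (fun ω => g i a (V ω i)) P := by
    intro i a ha
    refine int_bdd P (hgm i a ha) 5 fun ω => ?_
    rw [Real.norm_eq_abs, abs_of_nonneg (h2 i a ha _)]
    exact hg5 i a ha _
  have hgi : ∀ i, ∀ a < m i, ∫ ω, g i a (V ω i) ∂P = 1 / m i + δ + 1 / (δ * T) := by
    intro i a ha
    have e1 : ((∫ ω, g i a (V ω i) ∂P : ℝ) : ℂ) = ((1 / m i + δ + 1 / (δ * T) : ℝ) : ℂ) := by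
      rw [← integral_complex_ofReal, ← h4 i a ha]
      simp only [h1 i a ha]
      rw [integral_finsetSum _ (fun p _ => ?_)]
      · rw [Finset.sum_eq_single_of_mem 0 (by rw [Finset.mem_Icc]; omega)]
        · simp [ee_zero]
        · intro b hb hb0
          rw [integral_const_mul, h1D i b hb0 (by rw [abs_le]; exact Finset.mem_Icc.1 hb), mul_zero]
      · refine (int_bdd P ?_ 1 fun ω => (norm_ee _).le).const_mul _
        exact cont_ee.measurable.comp ((hV i).const_mul _)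
    exact_mod_cast e1
  obtain ⟨R, hR⟩ : ∃ R : ι → Ω → ℝ, R = fun i ω => ∑ a ∈ Finset.range (m i), g i a (V ω i) - 1 :=
    ⟨_, rfl⟩
  have hR1 : ∀ i x, R i x ≤ 4 := by
    intro i x
    have := h7 i (V x i)
    rw [hR]
    linarith
  have hR0 : ∀ i x, 0 ≤ R i x := by
    intro i x
    have hm0 : (0 : ℝ) < m i := by exact_mod_cast hm i
    obtain ⟨a, ha⟩ : ∃ a : ℕ, a = ⌊(m i : ℝ) * Int.fract (V x i)⌋₊ := ⟨_, rfl⟩
    have h0 : 0 ≤ (m i : ℝ) * Int.fract (V x i) := by
      have := Int.fract_nonneg (V x i); positivity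
    have ha' := (Nat.floor_eq_iff h0).1 ha.symm
    have ham : a < m i := by
      rw [ha, Nat.floor_lt h0]
      have := Int.fract_lt_one (V x i)
      nlinarith
    have h8 := h3 i a ham (V x i) (by rw [div_le_iff₀ hm0, mul_comm]; exact ha'.1)
      (by rw [lt_div_iff₀ hm0, mul_comm]; exact ha'.2)
    have h9 : g i a (V x i) ≤ ∑ a ∈ Finset.range (m i), g i a (V x i) :=
      Finset.single_le_sum (fun b hb => h2 i b (Finset.mem_range.1 hb) _) (Finset.mem_range.2 ham)
    rw [hR]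
    linarith
  have hRint : ∀ i, Integrable (R i) P := by
    intro i
    rw [hR]
    exact (integrable_finset_sum _ fun a ha => hgint i a (Finset.mem_range.1 ha)).sub
      (integrable_const _)
  have hRi : ∀ i, ∫ ω, R i ω ∂P = m i * (δ + 1 / (δ * T)) := by
    intro i
    have hm0 : (m i : ℝ) ≠ 0 := by have := hm i; positivity
    rw [hR]
    simp only
    rw [integral_sub (integrable_finset_sum _ fun a ha => hgint i a (Finset.mem_range.1 ha))
      (integrable_const _), integral_finsetSum _ (fun a ha => hgint i a (Finset.mem_range.1 ha))]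
    rw [Finset.sum_congr rfl fun a ha => hgi i a (Finset.mem_range.1 ha), Finset.sum_const,
        Finset.card_range, nsmul_eq_mul]
    simp
    field_simp
    ring
  have hg : ∑ A ∈ bx m, ∫ ω, ∏ i, g i (A i) (V ω i) ∂P ≤
      1 + 5 ^ (Fintype.card ι) * ∑ i, m i * (δ + 1 / (δ * T)) := by
    rw [← integral_finsetSum _ (fun A hA => hint A hA)]
    have e1 : ∀ x : Ω, ∑ A ∈ bx m, ∏ i, g i (A i) (V x i) = ∏ i, (1 + R i x) := by
      intro x
      have : ∀ i, 1 + R i x = ∑ a ∈ Finset.range (m i), g i a (V x i) := by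
        intro i; rw [hR]; ring
      simp only [this]
      rw [Finset.prod_univ_sum]
      rfl
    have hPint : Integrable (fun x => ∏ i, (1 + R i x)) P := by
      have := integrable_finset_sum (bx m) fun A hA => hint A hA
      simp only [e1] at this
      exact this
    simp only [e1]
    have hI : Integrable (fun x => ∑ i, R i x) P := integrable_finset_sum _ fun i _ => hRint i
    have hI2 : Integrable (fun x => 5 ^ (Fintype.card ι) * ∑ i, R i x) P := hI.const_mul _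
    calc ∫ x, ∏ i, (1 + R i x) ∂P ≤ ∫ x, (1 + 5 ^ (Fintype.card ι) * ∑ i, R i x) ∂P := by
          apply integral_mono hPint ((integrable_const _).add hI2)
          intro x
          have := prod_tel Finset.univ (fun i => R i x) (fun i _ => hR0 i x) (fun i _ => hR1 i x)
          rw [Finset.card_univ] at this
          show ∏ i, (1 + R i x) ≤ 1 + 5 ^ (Fintype.card ι) * ∑ i, R i x
          linarith
      _ = _ := by
          rw [integral_add (integrable_const _) hI2, integral_const_mul,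
            integral_finsetSum _ (fun i _ => hRint i)]
          simp only [hRi]
          simp
  -- conclusion
  have hsum1 : ∑ A ∈ bx m, ((S.filter fun b => cv m (Y b) = A).card : ℝ) / S.card = 1 := by
    have := count_cellsP S Y hm Set.univ
    simp only [Set.mem_univ, Finset.filter_true] at this
    rw [← Finset.sum_div, ← this, div_self hS0.ne']
  have hsum2 : ∑ A ∈ bx m, P.real {ω | cv m (V ω) = A} = 1 := by
    have := meas_cellsP P V hV hm Set.univ
    simp only [Set.mem_univ, Finset.filter_true] at this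
    rw [← this]
    have : {x : Ω | True} = Set.univ := by ext; simp
    rw [this]
    exact probReal_univ
  have hmain := tv_abs (bx m) _ _ _ hr0 hp hqq hg hsum1 hsum2 ((bx m).filter (· ∈ E))
    (Finset.filter_subset _ _)
  rw [count_cellsP S Y hm E, Finset.sum_div, meas_cellsP P V hV hm E]
  refine hmain.trans (le_of_eq ?_)
  have hcard : ((bx m).card : ℝ) = ∏ i, (m i : ℝ) := by
    rw [bx, Fintype.card_piFinset]
    simp
  rw [hcard, hr]

end

open Classical in
/-- total variation from exponential sums, in terms of `y` -/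
theorem tvP_y : ∀ᶠ y : ℝ in atTop, ∀ (Ω : Type) [MeasurableSpace Ω] (P : Measure Ω)
    [IsProbabilityMeasure P] (ι : Type) [Fintype ι] (V : Ω → ι → ℝ), (∀ i, Measurable fun ω => V ω i) →
    ∀ (S : Finset ℕ) (Y : ℕ → ι → ℝ) (m : ι → ℕ), S.Nonempty → (Fintype.card ι : ℝ) ≤ y ^ 9 →
    (∀ i, 1 ≤ m i) → (∀ i, (m i : ℝ) ≤ Real.exp (y ^ 9)) →
    (∀ i, ∀ l : ℤ, l ≠ 0 → ∫ ω, ee (l * V ω i) ∂P = 0) →
    (∀ h : ι → ℤ, (∀ i, (|h i| : ℝ) ≤ Real.exp (y ^ 10)) →
      ‖(∑ b ∈ S, ee (∑ i, h i * Y b i)) / (S.card : ℂ) - ∫ ω, ee (∑ i, h i * V ω i) ∂P‖ ≤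
        Real.exp (-(y ^ 20))) → ∀ E : Set (ι → ℕ),
    |((S.filter fun b => cv m (Y b) ∈ E).card : ℝ) / S.card - P.real {ω | cv m (V ω) ∈ E}| ≤
      Real.exp (-(y ^ 9)) := by
  filter_upwards [eventually_ge_atTop (30 : ℝ)] with y hy
  intro Ω _ P _ ι _ V hV S Y m hS hD hm hmy h1D hX E
  have hy0 : (0 : ℝ) < y := by linarith
  have hy1 : (1 : ℝ) ≤ y := by linarith
  have hy9 : (1 : ℝ) ≤ y ^ 9 := one_le_pow₀ hy1
  have h109 : 30 * y ^ 9 ≤ y ^ 10 := by
    calc 30 * y ^ 9 ≤ y * y ^ 9 := by gcongr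
      _ = y ^ 10 := by ring
  obtain ⟨T, hT⟩ : ∃ T : ℕ, T = ⌊Real.exp (y ^ 10)⌋₊ := ⟨_, rfl⟩
  have hexp10 : 2 ≤ Real.exp (y ^ 10) := by
    have h1 := Real.add_one_le_exp (y ^ 10)
    linarith
  have hT1 : 1 ≤ T := by
    rw [hT, Nat.one_le_floor_iff]
    linarith
  have hTle : (T : ℝ) ≤ Real.exp (y ^ 10) := by rw [hT]; exact Nat.floor_le (Real.exp_nonneg _)
  have hTge : Real.exp (y ^ 10) / 2 ≤ T := by
    have h1 : Real.exp (y ^ 10) < T + 1 := by rw [hT]; exact Nat.lt_floor_add_one _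
    have h2 : (1 : ℝ) ≤ T := by exact_mod_cast hT1
    linarith
  have hT0 : (0 : ℝ) < T := by exact_mod_cast hT1
  obtain ⟨δ, hδ⟩ : ∃ δ : ℝ, δ = Real.exp (-(y ^ 10 / 2)) := ⟨_, rfl⟩
  have hδ0 : 0 < δ := by rw [hδ]; exact Real.exp_pos _
  have hδT : 1 / (δ * T) ≤ 2 * δ := by
    have h1 : δ * δ * Real.exp (y ^ 10) = 1 := by
      rw [hδ, ← Real.exp_add, ← Real.exp_add, ← Real.exp_zero]
      congr 1
      ring
    rw [div_le_iff₀ (by positivity)]
    calc (1 : ℝ) = δ * δ * Real.exp (y ^ 10) := h1.symm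
      _ ≤ δ * δ * (2 * T) := by
          apply mul_le_mul_of_nonneg_left _ (by positivity)
          linarith
      _ = 2 * δ * (δ * T) := by ring
  have hsm : ∀ z : ℝ, z ≤ -2 → Real.exp z ≤ 1 / 4 := by
    intro z hz
    have h1 : Real.exp z ≤ Real.exp (-2) := Real.exp_le_exp.2 hz
    have h2 : Real.exp (-2) ≤ 1 / 4 := by
      rw [Real.exp_neg, ← one_div]
      apply one_div_le_one_div_of_le (by norm_num)
      have h7 : Real.exp 2 = Real.exp 1 * Real.exp 1 := by rw [← Real.exp_add]; norm_num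
      rw [h7]
      have h8 : (2 : ℝ) ≤ Real.exp 1 := by
        have := Real.add_one_le_exp (1 : ℝ)
        linarith
      nlinarith
    linarith
  have hmδ' : ∀ i, m i * δ ≤ 1 / 4 := by
    intro i
    calc (m i : ℝ) * δ ≤ Real.exp (y ^ 9) * δ := by gcongr; exact hmy i
      _ = Real.exp (y ^ 9 + -(y ^ 10 / 2)) := by rw [hδ, Real.exp_add]
      _ ≤ 1 / 4 := hsm _ (by linarith)
  have hmδ : ∀ i, m i * δ ≤ 1 := fun i => (hmδ' i).trans (by norm_num)
  have hmT : ∀ i, m i / (δ * T) ≤ 1 / 2 := by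
    intro i
    calc (m i : ℝ) / (δ * T) = m i * (1 / (δ * T)) := by ring
      _ ≤ m i * (2 * δ) := by gcongr
      _ = 2 * (m i * δ) := by ring
      _ ≤ 1 / 2 := by have := hmδ' i; linarith
  have hX' : ∀ h : ι → ℤ, (∀ i, |h i| ≤ T) →
      ‖(∑ b ∈ S, ee (∑ i, h i * Y b i)) / (S.card : ℂ) - ∫ ω, ee (∑ i, h i * V ω i) ∂P‖ ≤
        Real.exp (-(y ^ 20)) := by
    intro h hh
    refine hX h (fun i => ?_)
    have h1 : ((|h i| : ℤ) : ℝ) ≤ T := by exact_mod_cast hh i
    push_cast at h1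
    exact h1.trans hTle
  refine (tvP P V hV S hS Y m hm T hT1 hδ0 hmδ hmT (Real.exp_nonneg _)
    (fun i l hl _ => h1D i l hl) hX' E).trans ?_
  obtain ⟨D, hDd⟩ : ∃ D : ℕ, D = Fintype.card ι := ⟨_, rfl⟩
  rw [← hDd] at hD ⊢
  have h5D : (5 : ℝ) ^ D ≤ Real.exp (5 * y ^ 9) := by
    calc (5 : ℝ) ^ D ≤ (Real.exp 5) ^ D := by
          apply pow_le_pow_left₀ (by norm_num)
          have := Real.add_one_le_exp (5 : ℝ)
          linarith
      _ = Real.exp (D * 5) := by rw [← Real.exp_nat_mul]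
      _ ≤ Real.exp (5 * y ^ 9) := Real.exp_le_exp.2 (by linarith)
  have hDe : (D : ℝ) ≤ Real.exp (y ^ 9) := by
    have := Real.add_one_le_exp (y ^ 9)
    linarith
  have hsum : ∑ i, m i * (δ + 1 / (δ * T)) ≤ D * (Real.exp (y ^ 9) * (3 * δ)) := by
    calc ∑ i, m i * (δ + 1 / (δ * T)) ≤ ∑ i : ι, Real.exp (y ^ 9) * (3 * δ) := by
          refine Finset.sum_le_sum fun i _ => ?_
          have := hmy i
          gcongr
          linarith
      _ = _ := by rw [Finset.sum_const, Finset.card_univ, nsmul_eq_mul, hDd]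
  have t1 : 5 ^ D * ∑ i, m i * (δ + 1 / (δ * T)) ≤ Real.exp (-(y ^ 9)) / 2 := by
    calc 5 ^ D * ∑ i, m i * (δ + 1 / (δ * T)) ≤
        Real.exp (5 * y ^ 9) * (Real.exp (y ^ 9) * (Real.exp (y ^ 9) * (3 * δ))) := by
          apply mul_le_mul h5D _ _ (Real.exp_nonneg _)
          · refine hsum.trans ?_
            gcongr
          · refine Finset.sum_nonneg fun i _ => by positivity
      _ = 3 * Real.exp (5 * y ^ 9 + (y ^ 9 + (y ^ 9 + -(y ^ 10 / 2)))) := by
          rw [hδ, Real.exp_add, Real.exp_add, Real.exp_add]; ring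
      _ = 3 * (Real.exp (-(y ^ 9)) * Real.exp (8 * y ^ 9 - y ^ 10 / 2)) := by
          rw [← Real.exp_add]; congr 2; ring
      _ ≤ 3 * (Real.exp (-(y ^ 9)) * (1 / 8)) := by
          have h1 : Real.exp (8 * y ^ 9 - y ^ 10 / 2) ≤ 1 / 8 := by
            have h2 : Real.exp (8 * y ^ 9 - y ^ 10 / 2) ≤ Real.exp (-2 + -2) :=
              Real.exp_le_exp.2 (by linarith)
            rw [Real.exp_add] at h2
            have h3 := hsm (-2) le_rfl
            have h4 := Real.exp_pos (-2)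
            nlinarith
          gcongr
      _ ≤ _ := by have := Real.exp_pos (-(y ^ 9)); linarith
  have hprod : ∏ i, (m i : ℝ) ≤ Real.exp (y ^ 18) := by
    calc ∏ i, (m i : ℝ) ≤ ∏ i : ι, Real.exp (y ^ 9) :=
          Finset.prod_le_prod (fun _ _ => Nat.cast_nonneg _) fun i _ => hmy i
      _ = Real.exp (D * y ^ 9) := by
          rw [Finset.prod_const, Finset.card_univ, ← hDd, ← Real.exp_nat_mul]
      _ ≤ Real.exp (y ^ 18) := by
          apply Real.exp_le_exp.2
          calc (D : ℝ) * y ^ 9 ≤ y ^ 9 * y ^ 9 := by gcongr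
            _ = y ^ 18 := by ring
  have hpow : ((2 * T + 1) * (4 / δ) : ℝ) ^ D ≤ Real.exp (2 * y ^ 19) := by
    have h1 : (2 * T + 1) * (4 / δ) ≤ Real.exp (2 * y ^ 10) := by
      have e1 : (4 : ℝ) / δ = 4 * Real.exp (y ^ 10 / 2) := by
        rw [hδ, Real.exp_neg, div_inv_eq_mul]
      have e2 : (2 * T + 1 : ℝ) ≤ 3 * Real.exp (y ^ 10) := by linarith
      have e3 : (12 : ℝ) ≤ Real.exp (y ^ 10 / 2) := by
        have h1 := Real.add_one_le_exp (y ^ 10 / 2)
        linarith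
      calc (2 * T + 1 : ℝ) * (4 / δ) ≤ (3 * Real.exp (y ^ 10)) * (4 * Real.exp (y ^ 10 / 2)) := by
            rw [e1]; gcongr
        _ = 12 * (Real.exp (y ^ 10) * Real.exp (y ^ 10 / 2)) := by ring
        _ ≤ Real.exp (y ^ 10 / 2) * (Real.exp (y ^ 10) * Real.exp (y ^ 10 / 2)) := by gcongr
        _ = Real.exp (2 * y ^ 10) := by
            rw [← Real.exp_add, ← Real.exp_add]; congr 1; ring
    calc ((2 * T + 1) * (4 / δ) : ℝ) ^ D ≤ (Real.exp (2 * y ^ 10)) ^ D :=
          pow_le_pow_left₀ (by positivity) h1 D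
      _ = Real.exp (D * (2 * y ^ 10)) := by rw [← Real.exp_nat_mul]
      _ ≤ Real.exp (2 * y ^ 19) := by
          apply Real.exp_le_exp.2
          calc (D : ℝ) * (2 * y ^ 10) ≤ y ^ 9 * (2 * y ^ 10) := by gcongr
            _ = 2 * y ^ 19 := by ring
  have t2 : (∏ i, (m i : ℝ)) * (((2 * T + 1) * (4 / δ)) ^ D * Real.exp (-(y ^ 20))) ≤
      Real.exp (-(y ^ 9)) / 2 := by
    calc _ ≤ Real.exp (y ^ 18) * (Real.exp (2 * y ^ 19) * Real.exp (-(y ^ 20))) := by gcongr
      _ = Real.exp (-(y ^ 9)) * Real.exp (y ^ 9 + y ^ 18 + 2 * y ^ 19 - y ^ 20) := by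
          rw [← Real.exp_add, ← Real.exp_add, ← Real.exp_add]; congr 1; ring
      _ ≤ Real.exp (-(y ^ 9)) * (1 / 4) := by
          have h1 : y ^ 9 ≤ y ^ 19 := pow_le_pow_right₀ hy1 (by norm_num)
          have h2 : y ^ 18 ≤ y ^ 19 := pow_le_pow_right₀ hy1 (by norm_num)
          have h3 : 30 * y ^ 19 ≤ y ^ 20 := by
            calc 30 * y ^ 19 ≤ y * y ^ 19 := by gcongr
              _ = y ^ 20 := by ring
          gcongr
          exact hsm _ (by linarith)
      _ ≤ _ := by have := Real.exp_pos (-(y ^ 9)); linarith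
  linarith

end Pool.Agent.X121.GS
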