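import Pool.Agent.X121.ZS.Sum

set_option autoImplicit false

namespace Pool.Agent.X121.GS

open Finset Pool.Agent.Y957.VK Filter Pool.Agent.X121.AB Pool.Agent.X121.ZS
open Pool.Agent.Y93.VK (ee ee_add norm_ee)

/-- the factor of the good index -/
theorem WJ_num {μ : ℝ} (hμ : 0 < μ) (hμ1 : μ ≤ 1 / 4) :
    ∀ᶠ y : ℝ in atTop, ∀ (κ κ' a : ℝ) (d r M : ℕ),
      |a| ≤ Real.exp (y ^ 20 + κ * y ^ 70 - d * y ^ 70) →
      Real.exp (-(y ^ 20) + κ' * y ^ 70 - d * y ^ 70) ≤ |a| →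
      Real.exp (μ * y ^ 70) / 2 ≤ M → (M : ℝ) ≤ Real.exp (μ * y ^ 70) →
      κ + 1 / 10 ≤ d * (1 - μ) → d * (1 - 2 * μ) ≤ κ' - 1 / 10 → 1 ≤ d → (d : ℝ) ≤ y ^ 10 →
      2 ≤ r → (r : ℝ) ≤ y ^ 10 → 1 ≤ M →
      WJ (r ^ 2 + r * (r * ⌈y⌉₊)) M d a ≤
        (((3 * ((r ^ 2 + r * (r * ⌈y⌉₊)) * M ^ d) : ℕ) : ℝ)) ^ 2 * Real.exp (-(μ / 5 * y ^ 70)) := by
  filter_upwards [eventually_ge_atTop (2 : ℝ), ev_exp_pow 3 (1 / 20) (by norm_num) 21 70
    (by norm_num) (ε := 1 / 2) (by norm_num), ev_pow_ge 4 (4 * μ / 5) (by positivity) 70 (by norm_num),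
    ev_pow_ge 100 (1 / 40) (by norm_num) 50 (by norm_num)] with y hy2 hy3 hy4 hy5
  intro κ κ' a d r M hup hlow hM1 hM2 hd1 hd2 hd hdy hr2 hry hM
  have hy0 : (0 : ℝ) < y := by linarith
  have hy1 : (1 : ℝ) ≤ y := by linarith
  have yp : ∀ a b : ℕ, a ≤ b → y ^ a ≤ y ^ b := fun a b hab => pow_le_pow_right₀ hy1 hab
  have hy1' : ∀ a : ℕ, 1 ≤ y ^ a := fun a => one_le_pow₀ hy1
  obtain ⟨K, hK⟩ : ∃ K : ℕ, K = ⌈y⌉₊ := ⟨_, rfl⟩
  have hK2 : (K : ℝ) ≤ 2 * y := by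
    have := Nat.ceil_lt_add_one hy0.le
    rw [← hK] at this
    linarith
  rw [← hK]
  obtain ⟨s, hs⟩ : ∃ s : ℕ, s = r ^ 2 + r * (r * K) := ⟨_, rfl⟩
  have hs1 : 1 ≤ s := by rw [hs]; have : 1 ≤ r ^ 2 := Nat.one_le_pow _ _ (by omega); omega
  have hsR : (s : ℝ) ≤ 3 * y ^ 21 := by
    have hr0 : (0 : ℝ) ≤ r := Nat.cast_nonneg r
    have hm : (((r * K : ℕ)) : ℝ) ≤ 2 * y ^ 11 := by
      push_cast
      calc (r : ℝ) * K ≤ y ^ 10 * (2 * y) := mul_le_mul hry hK2 (Nat.cast_nonneg _) (by positivity)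
        _ = 2 * y ^ 11 := by ring
    have e : (s : ℝ) = (r : ℝ) ^ 2 + r * ((r * K : ℕ) : ℝ) := by rw [hs]; push_cast; ring
    rw [e]
    have h1 : (r : ℝ) ^ 2 ≤ y ^ 21 := by
      calc (r : ℝ) ^ 2 ≤ (y ^ 10) ^ 2 := pow_le_pow_left₀ hr0 hry 2
        _ = y ^ 20 := by ring
        _ ≤ y ^ 21 := yp _ _ (by norm_num)
    have h2 : (r : ℝ) * ((r * K : ℕ) : ℝ) ≤ 2 * y ^ 21 := by
      calc (r : ℝ) * ((r * K : ℕ) : ℝ) ≤ y ^ 10 * (2 * y ^ 11) :=
            mul_le_mul hry hm (Nat.cast_nonneg _) (by positivity)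
        _ = 2 * y ^ 21 := by ring
    linarith
  rw [← hs]
  have hne : a ≠ 0 := by
    rw [← abs_pos]
    exact lt_of_lt_of_le (Real.exp_pos _) hlow
  have hM0 : (0 : ℝ) < M := by exact_mod_cast hM
  have h20 : y ^ 20 ≤ 1 / 40 * y ^ 70 := by
    have h1 : 1 * y ^ 20 ≤ 1 / 40 * y ^ 50 * y ^ 20 := by
      apply mul_le_mul_of_nonneg_right _ (by positivity)
      linarith
    have h2 : 1 / 40 * y ^ 50 * y ^ 20 = 1 / 40 * y ^ 70 := by ring
    linarith
  have hy70 : 0 < y ^ 70 := by positivity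
  have h1 : |a| * (s * M ^ d : ℕ) ≤ 1 / 2 := by
    have h3 : (M : ℝ) ^ d ≤ Real.exp (d * (μ * y ^ 70)) := by
      rw [Real.exp_nat_mul]
      exact pow_le_pow_left₀ hM0.le hM2 d
    push_cast
    calc |a| * (s * (M : ℝ) ^ d) ≤ Real.exp (y ^ 20 + κ * y ^ 70 - d * y ^ 70) *
          ((3 * y ^ 21) * Real.exp (d * (μ * y ^ 70))) := by gcongr
      _ = 3 * y ^ 21 * Real.exp (y ^ 20 + κ * y ^ 70 - d * y ^ 70 + d * (μ * y ^ 70)) := by
          rw [Real.exp_add _ (d * (μ * y ^ 70))]; ring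
      _ ≤ 3 * y ^ 21 * Real.exp (-(1 / 20 * y ^ 70)) := by
          gcongr
          have h4 := mul_le_mul_of_nonneg_right hd1 hy70.le
          nlinarith
      _ ≤ 1 / 2 := hy3
  have hlow' : 1 / |a| ≤ (M : ℝ) ^ (2 * d) * (4 ^ d * Real.exp (y ^ 20 - y ^ 70 / 10)) := by
    have h3 : 1 / |a| ≤ 1 / Real.exp (-(y ^ 20) + κ' * y ^ 70 - d * y ^ 70) :=
      one_div_le_one_div_of_le (Real.exp_pos _) hlow
    rw [one_div, one_div, ← Real.exp_neg] at h3
    rw [one_div]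
    refine h3.trans ?_
    have h4 : Real.exp (2 * d * (μ * y ^ 70)) / 4 ^ d ≤ (M : ℝ) ^ (2 * d) := by
      have h5 : (Real.exp (μ * y ^ 70) / 2) ^ (2 * d) ≤ (M : ℝ) ^ (2 * d) :=
        pow_le_pow_left₀ (by positivity) hM1 _
      have h6 : (Real.exp (μ * y ^ 70) / 2) ^ (2 * d) = Real.exp (2 * d * (μ * y ^ 70)) / 4 ^ d := by
        rw [div_pow, ← Real.exp_nat_mul, pow_mul (2 : ℝ) 2 d]
        push_cast
        norm_num
      rw [h6] at h5
      exact h5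
    calc Real.exp (-(-(y ^ 20) + κ' * y ^ 70 - d * y ^ 70)) ≤
          Real.exp (2 * d * (μ * y ^ 70) + (y ^ 20 - y ^ 70 / 10)) := by
          apply Real.exp_le_exp.2
          have h5 := mul_le_mul_of_nonneg_right hd2 hy70.le
          nlinarith
      _ = (Real.exp (2 * d * (μ * y ^ 70)) / 4 ^ d) * (4 ^ d * Real.exp (y ^ 20 - y ^ 70 / 10)) := by
          rw [Real.exp_add]
          field_simp
      _ ≤ _ := by gcongr
  refine (WJ_good hs1 hM hd hne h1 hlow').trans ?_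
  apply mul_le_mul_of_nonneg_left _ (by positivity)
  -- the first term
  have t1 : 1 / (M : ℝ) ≤ Real.exp (-(μ / 5 * y ^ 70)) / 2 := by
    have h2 : 1 / (M : ℝ) ≤ 1 / (Real.exp (μ * y ^ 70) / 2) :=
      one_div_le_one_div_of_le (by positivity) hM1
    have h3 : (4 : ℝ) ≤ Real.exp (4 * μ / 5 * y ^ 70) := by
      have := Real.add_one_le_exp (4 * μ / 5 * y ^ 70)
      linarith
    have h4 : Real.exp (μ * y ^ 70) = Real.exp (μ / 5 * y ^ 70) * Real.exp (4 * μ / 5 * y ^ 70) := by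
      rw [← Real.exp_add]; congr 1; ring
    refine h2.trans ?_
    rw [h4, Real.exp_neg]
    rw [div_le_div_iff₀ (by positivity) (by positivity)]
    have h5 : 0 < Real.exp (μ / 5 * y ^ 70) := Real.exp_pos _
    rw [one_mul]
    have h6 : (Real.exp (μ / 5 * y ^ 70))⁻¹ * (Real.exp (μ / 5 * y ^ 70) *
        Real.exp (4 * μ / 5 * y ^ 70) / 2) = Real.exp (4 * μ / 5 * y ^ 70) / 2 := by
      field_simp
    rw [h6]
    linarith
  -- the second term
  have hlog : Real.log ((s * M ^ d : ℕ) : ℝ) ≤ 3 * y ^ 21 + y ^ 80 := by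
    have hs0 : (0 : ℝ) < s := by exact_mod_cast hs1
    push_cast
    rw [Real.log_mul hs0.ne' (by positivity), Real.log_pow]
    have h2 : Real.log s ≤ s := (Real.log_le_sub_one_of_pos hs0).trans (by linarith)
    have h3 : Real.log M ≤ μ * y ^ 70 := by
      rw [Real.log_le_iff_le_exp hM0]
      exact hM2
    have h4 : (d : ℝ) * Real.log M ≤ y ^ 10 * (μ * y ^ 70) := by
      have : 0 ≤ Real.log (M : ℝ) := Real.log_nonneg (by exact_mod_cast hM)
      gcongr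
    have h5 : y ^ 10 * (μ * y ^ 70) ≤ y ^ 80 := by
      calc y ^ 10 * (μ * y ^ 70) = μ * y ^ 80 := by ring
        _ ≤ 1 * y ^ 80 := by gcongr; linarith
        _ = y ^ 80 := one_mul _
    linarith
  have hpc : (4 : ℝ) ^ d ≤ Real.exp (4 * y ^ 11) := by
    calc (4 : ℝ) ^ d ≤ (Real.exp 4) ^ d := by
          apply pow_le_pow_left₀ (by positivity)
          have := Real.add_one_le_exp (4 : ℝ)
          linarith
      _ = Real.exp (d * 4) := by rw [← Real.exp_nat_mul]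
      _ ≤ Real.exp (4 * y ^ 11) := by
          apply Real.exp_le_exp.2
          have := yp 10 11 (by norm_num)
          linarith
  have h80 : 1 + (3 * y ^ 21 + y ^ 80) ≤ Real.exp (85 * y ^ 11) / 2 := by
    have h2 := yp 21 80 (by norm_num)
    have h3 := hy1' 80
    have h4 : y ^ 80 ≤ Real.exp (80 * y) := by
      calc y ^ 80 ≤ (Real.exp y) ^ 80 := by
            apply pow_le_pow_left₀ hy0.le
            have := Real.add_one_le_exp y
            linarith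
        _ = Real.exp (80 * y) := by rw [← Real.exp_nat_mul]; norm_num
    have h5 : (10 : ℝ) ≤ Real.exp (5 * y) := by
      have := Real.add_one_le_exp (5 * y)
      linarith
    have h6 : 80 * y + 5 * y ≤ 85 * y ^ 11 := by
      have := yp 1 11 (by norm_num)
      rw [pow_one] at this
      linarith
    have h7 : Real.exp (80 * y) * 10 ≤ Real.exp (85 * y ^ 11) := by
      calc Real.exp (80 * y) * 10 ≤ Real.exp (80 * y) * Real.exp (5 * y) := by gcongr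
        _ = Real.exp (80 * y + 5 * y) := by rw [Real.exp_add]
        _ ≤ _ := Real.exp_le_exp.2 h6
    linarith
  have t2 : 4 ^ d * Real.exp (y ^ 20 - y ^ 70 / 10) *
      (1 + Real.log ((s * M ^ d : ℕ) : ℝ)) ≤ Real.exp (-(μ / 5 * y ^ 70)) / 2 := by
    calc _ ≤ Real.exp (4 * y ^ 11) * Real.exp (y ^ 20 - y ^ 70 / 10) *
          (Real.exp (85 * y ^ 11) / 2) := by
          have h0 : 0 ≤ Real.log ((s * M ^ d : ℕ) : ℝ) := by
            apply Real.log_nonneg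
            have : 1 ≤ s * M ^ d := Nat.mul_pos hs1 (pow_pos hM d)
            exact_mod_cast this
          gcongr
          linarith
      _ = Real.exp (4 * y ^ 11 + (y ^ 20 - y ^ 70 / 10) + 85 * y ^ 11) / 2 := by
          rw [Real.exp_add, Real.exp_add]; ring
      _ ≤ _ := by
          gcongr
          have h2 : 100 * y ^ 20 ≤ 1 / 40 * y ^ 50 * y ^ 20 := by gcongr
          have h3 : 1 / 40 * y ^ 50 * y ^ 20 = 1 / 40 * y ^ 70 := by ring
          rw [h3] at h2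
          have h4 : μ / 5 * y ^ 70 ≤ 1 / 20 * y ^ 70 :=
            mul_le_mul_of_nonneg_right (by linarith) (by positivity)
          have h5 := yp 11 20 (by norm_num)
          linarith
  linarith

/-- **exponential sums** of functions which are locally close to polynomials with a coefficient of
suitable size -/
theorem gsum {η : ℝ} (hη : 0 < η) (hη1 : η ≤ 1) :
    ∀ᶠ y : ℝ in atTop, ∀ N : ℕ, (N : ℝ) = Real.exp (y ^ 70) → ∀ H : ℕ,
      Real.exp (η * y ^ 70) ≤ H → H ≤ N → ∀ (φ : ℕ → ℝ) (κ κ' : ℝ) (r : ℕ), 2 ≤ r → (r : ℝ) ≤ y ^ 10 →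
      (∀ n : ℕ, N ≤ n → n ≤ 2 * N → ∃ (u : ℝ) (α : ℕ → ℝ) (d : ℕ), 1 ≤ d ∧ d ≤ r ∧
        κ + 1 / 10 ≤ d * (1 - η / 4) ∧ d * (1 - 2 * (η / 4)) ≤ κ' - 1 / 10 ∧
        |α d| ≤ Real.exp (y ^ 20 + κ * y ^ 70 - d * y ^ 70) ∧
        Real.exp (-(y ^ 20) + κ' * y ^ 70 - d * y ^ 70) ≤ |α d| ∧
        ∀ p : ℕ, (p : ℝ) ≤ Real.exp (η / 2 * y ^ 70) →
          |φ (n + p) - (u + ∑ j ∈ Finset.Icc 1 r, α j * (p : ℝ) ^ j)| ≤ Real.exp (-(y ^ 70 / 2))) →
      ‖∑ b ∈ Finset.Icc 1 H, ee (φ (N + b))‖ ≤ H * Real.exp (-(y ^ 20)) := by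
  have hμ : 0 < η / 4 := by positivity
  have hμ1 : η / 4 ≤ 1 / 4 := by linarith
  filter_upwards [WJ_num hμ hμ1, TT_sm (κ := η / 4 / 5) (by positivity),
    eventually_ge_atTop (8 : ℝ), ev_pow_ge 2 (η / 4) (by positivity) 70 (by norm_num),
    ev_pow_ge 8 (η / 2) (by positivity) 50 (by norm_num),
    ev_pow_ge 8 (1 / 4) (by positivity) 50 (by norm_num)] with y hW hT hy8 hyM hyη hyq
  intro N hN H hH1 hH2 φ κ κ' r hr2 hry hφ
  have hy0 : (0 : ℝ) < y := by linarith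
  have hy1 : (1 : ℝ) ≤ y := by linarith
  have yp : ∀ a b : ℕ, a ≤ b → y ^ a ≤ y ^ b := fun a b hab => pow_le_pow_right₀ hy1 hab
  have hy1' : ∀ a : ℕ, 1 ≤ y ^ a := fun a => one_le_pow₀ hy1
  -- `M`
  obtain ⟨M, hM⟩ : ∃ M : ℕ, M = ⌊Real.exp (η / 4 * y ^ 70)⌋₊ := ⟨_, rfl⟩
  have hexpM : 2 ≤ Real.exp (η / 4 * y ^ 70) := by
    have := Real.add_one_le_exp (η / 4 * y ^ 70)
    linarith
  have hM1 : 1 ≤ M := by
    rw [hM, Nat.one_le_floor_iff]
    linarith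
  have hM0 : (0 : ℝ) < M := by exact_mod_cast hM1
  have hMle : (M : ℝ) ≤ Real.exp (η / 4 * y ^ 70) := by
    rw [hM]; exact Nat.floor_le (Real.exp_nonneg _)
  have hMge : Real.exp (η / 4 * y ^ 70) / 2 ≤ M := by
    have h1 : Real.exp (η / 4 * y ^ 70) < M + 1 := by rw [hM]; exact Nat.lt_floor_add_one _
    have h2 : (1 : ℝ) ≤ M := by exact_mod_cast hM1
    linarith
  have hM2 : (M : ℝ) ^ 2 ≤ Real.exp (η / 2 * y ^ 70) := by
    calc (M : ℝ) ^ 2 ≤ (Real.exp (η / 4 * y ^ 70)) ^ 2 := pow_le_pow_left₀ hM0.le hMle 2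
      _ = _ := by
          rw [← Real.exp_nat_mul]
          congr 1
          push_cast
          ring
  have hlogM : Real.log M ≤ y ^ 70 := by
    rw [Real.log_le_iff_le_exp hM0]
    refine hMle.trans (Real.exp_le_exp.2 ?_)
    have := hy1' 70
    nlinarith
  -- the bound for one `b`
  have key : ∀ b ∈ Finset.Icc 1 H, ‖∑ p ∈ Finset.Icc 1 M, ∑ q ∈ Finset.Icc 1 M,
      ee (φ (N + (b + p * q)))‖ ≤
      (M : ℝ) ^ 2 * (Real.exp (-(y ^ 21)) + 2 * Real.pi * Real.exp (-(y ^ 70 / 2))) := by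
    intro b hb
    obtain ⟨hb1, hb2⟩ := Finset.mem_Icc.1 hb
    obtain ⟨u, α, d, hd1, hdr, hk1, hk2, ha1, ha2, hp⟩ := hφ (N + b) (by omega) (by omega)
    have hdy : (d : ℝ) ≤ y ^ 10 := by
      have : (d : ℝ) ≤ r := by exact_mod_cast hdr
      linarith
    have hTT : ‖TT r M α‖ ≤ (M : ℝ) ^ 2 * Real.exp (-(y ^ 21)) := by
      refine hT r d M α hr2 hry (Finset.mem_Icc.2 ⟨hd1, hdr⟩) hM1 hlogM ?_
      exact hW κ κ' (α d) d r M ha1 ha2 hMge hMle hk1 hk2 hd1 hdy hr2 hry hM1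
    have hTT' : ∑ p ∈ Finset.Icc 1 M, ∑ q ∈ Finset.Icc 1 M,
        ee (u + ∑ j ∈ Finset.Icc 1 r, α j * ((p : ℝ) * q) ^ j) = ee u * TT r M α := by
      unfold TT
      rw [Finset.mul_sum]
      refine Finset.sum_congr rfl fun p _ => ?_
      rw [Finset.mul_sum]
      refine Finset.sum_congr rfl fun q _ => ?_
      rw [ee_add]
      rfl
    have hterm : ∀ p ∈ Finset.Icc 1 M, ∀ q ∈ Finset.Icc 1 M,
        ‖ee (φ (N + (b + p * q))) - ee (u + ∑ j ∈ Finset.Icc 1 r, α j * ((p : ℝ) * q) ^ j)‖ ≤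
        2 * Real.pi * Real.exp (-(y ^ 70 / 2)) := by
      intro p hp' q hq'
      refine (ee_sub_le _ _).trans ?_
      have hpq : ((p * q : ℕ) : ℝ) ≤ Real.exp (η / 2 * y ^ 70) := by
        refine le_trans ?_ hM2
        have : p * q ≤ M ^ 2 := by
          rw [pow_two]
          exact Nat.mul_le_mul (Finset.mem_Icc.1 hp').2 (Finset.mem_Icc.1 hq').2
        exact_mod_cast this
      have h1 := hp (p * q) hpq
      rw [← Nat.add_assoc]
      push_cast at h1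
      have hpi := Real.pi_pos
      gcongr
    have hdiff : ‖∑ p ∈ Finset.Icc 1 M, ∑ q ∈ Finset.Icc 1 M, ee (φ (N + (b + p * q))) -
        ee u * TT r M α‖ ≤ (M : ℝ) ^ 2 * (2 * Real.pi * Real.exp (-(y ^ 70 / 2))) := by
      rw [← hTT', ← Finset.sum_sub_distrib]
      refine (norm_sum_le _ _).trans ?_
      calc _ ≤ ∑ p ∈ Finset.Icc 1 M, ((M : ℝ) * (2 * Real.pi * Real.exp (-(y ^ 70 / 2)))) := by
            refine Finset.sum_le_sum fun p hp' => ?_
            rw [← Finset.sum_sub_distrib]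
            refine (norm_sum_le _ _).trans ?_
            calc _ ≤ ∑ q ∈ Finset.Icc 1 M, (2 * Real.pi * Real.exp (-(y ^ 70 / 2))) :=
                  Finset.sum_le_sum fun q hq' => hterm p hp' q hq'
              _ = _ := by rw [Finset.sum_const, Nat.card_Icc, nsmul_eq_mul, Nat.add_sub_cancel]
        _ = _ := by
            rw [Finset.sum_const, Nat.card_Icc, nsmul_eq_mul, Nat.add_sub_cancel]
            ring
    have h3 : ‖ee u * TT r M α‖ = ‖TT r M α‖ := by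
      rw [norm_mul, norm_ee, one_mul]
    calc _ = ‖(∑ p ∈ Finset.Icc 1 M, ∑ q ∈ Finset.Icc 1 M, ee (φ (N + (b + p * q))) -
          ee u * TT r M α) + ee u * TT r M α‖ := by congr 1; ring
      _ ≤ (M : ℝ) ^ 2 * (2 * Real.pi * Real.exp (-(y ^ 70 / 2))) + (M : ℝ) ^ 2 * Real.exp (-(y ^ 21)) :=
          (norm_add_le _ _).trans (add_le_add hdiff (by rw [h3]; exact hTT))
      _ = _ := by ring
  have hmain := bilinear' (fun b => ee (φ (N + b))) (fun n => (norm_ee _).le) H M hM1 key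
  refine hmain.trans ?_
  have hH0 : (0 : ℝ) < H := lt_of_lt_of_le (Real.exp_pos _) hH1
  have h2 : (H : ℝ) * ((M : ℝ) ^ 2 * (Real.exp (-(y ^ 21)) + 2 * Real.pi * Real.exp (-(y ^ 70 / 2)))) /
      (M : ℝ) ^ 2 = H * Real.exp (-(y ^ 21)) + H * (2 * Real.pi * Real.exp (-(y ^ 70 / 2))) := by
    field_simp
  rw [h2]
  have hexp4 : Real.exp (-2) ≤ 1 / 4 := by
    rw [Real.exp_neg, ← one_div]
    apply one_div_le_one_div_of_le (by norm_num)
    have h7 : Real.exp 2 = Real.exp 1 * Real.exp 1 := by rw [← Real.exp_add]; norm_num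
    rw [h7]
    have h8 : (2 : ℝ) ≤ Real.exp 1 := by
      have := Real.add_one_le_exp (1 : ℝ)
      linarith
    nlinarith
  have hgen : ∀ z : ℝ, y ^ 20 + 2 ≤ z → Real.exp (-z) ≤ Real.exp (-(y ^ 20)) / 4 := by
    intro z hz
    calc Real.exp (-z) ≤ Real.exp (-(y ^ 20) + (-2)) := Real.exp_le_exp.2 (by linarith)
      _ = Real.exp (-(y ^ 20)) * Real.exp (-2) := by rw [Real.exp_add]
      _ ≤ Real.exp (-(y ^ 20)) * (1 / 4) := by gcongr
      _ = _ := by ring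
  have h21 : y ^ 20 + 2 ≤ y ^ 21 := by
    have h3 : 8 * y ^ 20 ≤ y ^ 21 := by
      calc 8 * y ^ 20 ≤ y * y ^ 20 := by gcongr
        _ = y ^ 21 := by ring
    have := hy1' 20
    linarith
  have hη2 : y ^ 20 + 5 ≤ η / 2 * y ^ 70 := by
    have h3 : 8 * y ^ 20 ≤ η / 2 * y ^ 50 * y ^ 20 := by gcongr
    have h4 : η / 2 * y ^ 50 * y ^ 20 = η / 2 * y ^ 70 := by ring
    have := hy1' 20
    linarith
  have hq2 : y ^ 20 + 6 ≤ y ^ 70 / 2 := by
    have h3 : 8 * y ^ 20 ≤ 1 / 4 * y ^ 50 * y ^ 20 := by gcongr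
    have h4 : 1 / 4 * y ^ 50 * y ^ 20 = 1 / 4 * y ^ 70 := by ring
    have := hy1' 20
    have := hy1' 70
    linarith
  have hexp4' : 2 * Real.pi * Real.exp (-4) ≤ 1 := by
    have h7 : Real.exp 4 = Real.exp 1 * Real.exp 1 * (Real.exp 1 * Real.exp 1) := by
      rw [← Real.exp_add, ← Real.exp_add]; norm_num
    have h8 : (2 : ℝ) ≤ Real.exp 1 := by
      have := Real.add_one_le_exp (1 : ℝ)
      linarith
    have h9 : (4 : ℝ) ≤ Real.exp 1 * Real.exp 1 := by nlinarith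
    have h10 : (16 : ℝ) ≤ Real.exp 4 := by rw [h7]; nlinarith
    rw [Real.exp_neg, ← div_eq_mul_inv, div_le_one (Real.exp_pos _)]
    have := Real.pi_lt_four
    linarith
  have t3 : 2 * (M : ℝ) ^ 2 ≤ H * (Real.exp (-(y ^ 20)) / 4) := by
    have h3 : (M : ℝ) ^ 2 ≤ H * Real.exp (-(η / 2 * y ^ 70)) := by
      calc (M : ℝ) ^ 2 ≤ Real.exp (η / 2 * y ^ 70) := hM2
        _ = Real.exp (η * y ^ 70) * Real.exp (-(η / 2 * y ^ 70)) := by
            rw [← Real.exp_add]; congr 1; ring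
        _ ≤ _ := by gcongr
    have h4 : Real.exp (-(η / 2 * y ^ 70)) ≤ Real.exp (-(y ^ 20)) / 8 := by
      have h5 := hgen (η / 2 * y ^ 70 - 1) (by linarith)
      have h6 : Real.exp (-(η / 2 * y ^ 70)) = Real.exp (-(η / 2 * y ^ 70 - 1)) * Real.exp (-1) := by
        rw [← Real.exp_add]; congr 1; ring
      have h7 : Real.exp (-1) ≤ 1 / 2 := by
        rw [Real.exp_neg, ← one_div]
        apply one_div_le_one_div_of_le (by norm_num)
        have := Real.add_one_le_exp (1 : ℝ)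
        linarith
      rw [h6]
      calc _ ≤ (Real.exp (-(y ^ 20)) / 4) * (1 / 2) := by gcongr
        _ = _ := by ring
    calc 2 * (M : ℝ) ^ 2 ≤ 2 * (H * (Real.exp (-(y ^ 20)) / 8)) := by
          have : H * Real.exp (-(η / 2 * y ^ 70)) ≤ H * (Real.exp (-(y ^ 20)) / 8) := by gcongr
          linarith
      _ = _ := by ring
  have t1 : H * Real.exp (-(y ^ 21)) ≤ H * (Real.exp (-(y ^ 20)) / 4) := by
    gcongr; exact hgen _ h21
  have t2 : H * (2 * Real.pi * Real.exp (-(y ^ 70 / 2))) ≤ H * (Real.exp (-(y ^ 20)) / 4) := by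
    gcongr
    have h5 := hgen (y ^ 70 / 2 - 4) (by linarith)
    have h6 : Real.exp (-(y ^ 70 / 2)) = Real.exp (-(y ^ 70 / 2 - 4)) * Real.exp (-4) := by
      rw [← Real.exp_add]; congr 1; ring
    rw [h6]
    have h8 : 0 ≤ Real.exp (-(y ^ 70 / 2 - 4)) := Real.exp_nonneg _
    calc 2 * Real.pi * (Real.exp (-(y ^ 70 / 2 - 4)) * Real.exp (-4)) =
          Real.exp (-(y ^ 70 / 2 - 4)) * (2 * Real.pi * Real.exp (-4)) := by ring
      _ ≤ Real.exp (-(y ^ 70 / 2 - 4)) * 1 := by gcongr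
      _ ≤ _ := by rw [mul_one]; exact h5
  have h9 : 0 < H * Real.exp (-(y ^ 20)) := by positivity
  linarith

end Pool.Agent.X121.GS
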